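import Pool.Agent.U84.SP.Lev

set_option autoImplicit false
set_option linter.unusedSectionVars false
set_option linter.unusedSimpArgs false

/-!
# Logarithms of sums of squares
-/

open Set Topology Filter
open scoped ContDiff

namespace Pool.Agent.U84.SP

open Pool.Agent.Y184.SP

variable {V : Type*} [NormedAddCommGroup V] [NormedSpace ℂ V] [CompleteSpace V]

theorem sq_norm_cd {n : WithTop ℕ∞} {f : V → ℂ} {z : V} (hf : ContDiffAt ℝ n f z) :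
    ContDiffAt ℝ n (fun t => ‖f t‖ ^ 2) z := hf.norm_sq ℝ

/-- the squared norm along a real line -/
theorem line_sq (a p e : ℂ) (t : ℝ) : ‖a + (t • e) * p‖ ^ 2 =
    ‖a‖ ^ 2 + 2 * t * ((starRingEnd ℂ a) * (e * p)).re + t ^ 2 * (‖e‖ ^ 2 * ‖p‖ ^ 2) := by
  rw [← mul_pow, ← norm_mul]
  simp only [Complex.sq_norm, Complex.normSq_apply, Complex.real_smul, Complex.add_re,
    Complex.add_im, Complex.mul_re, Complex.mul_im, Complex.ofReal_re, Complex.ofReal_im,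
    Complex.conj_re, Complex.conj_im]
  ring

theorem quad_deriv (A B C : ℝ) (t : ℝ) :
    HasDerivAt (fun t : ℝ => A + 2 * t * B + t ^ 2 * C) (2 * B + 2 * t * C) t := by
  have h1 : HasDerivAt (fun t : ℝ => A + 2 * t * B + t ^ 2 * C)
      (0 + 2 * 1 * B + (2 * t ^ (2 - 1) * 1) * C) t := by
    refine HasDerivAt.add (HasDerivAt.add (hasDerivAt_const _ _) ?_) ?_
    · exact ((hasDerivAt_id t).const_mul 2).mul_const B
    · exact ((hasDerivAt_id t).pow 2).mul_const C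
  convert h1 using 1
  ring

/-- the Levi form of `log (|a|² + |b|²)` on `ℂ²` in the direction `(p, q)` -/
theorem lap_log_two (a b p q : ℂ) (h : 0 < ‖a‖ ^ 2 + ‖b‖ ^ 2) :
    Laplacian.laplacian (fun ζ : ℂ => Real.log (‖a + ζ * p‖ ^ 2 + ‖b + ζ * q‖ ^ 2)) 0 =
      4 * ‖a * q - b * p‖ ^ 2 / (‖a‖ ^ 2 + ‖b‖ ^ 2) ^ 2 := by
  have hcd : ContDiffAt ℝ 2 (fun ζ : ℂ => Real.log (‖a + ζ * p‖ ^ 2 + ‖b + ζ * q‖ ^ 2)) 0 := by
    refine ContDiffAt.log ?_ (by simpa using h.ne')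
    refine ContDiffAt.add ?_ ?_ <;>
    exact ContDiffAt.norm_sq ℝ (contDiffAt_const.add (contDiffAt_id.mul contDiffAt_const))
  have main : ∀ e : ℂ, ‖e‖ = 1 → iteratedFDeriv ℝ 2
      (fun ζ : ℂ => Real.log (‖a + ζ * p‖ ^ 2 + ‖b + ζ * q‖ ^ 2)) 0 ![e, e] =
      2 * (‖p‖ ^ 2 + ‖q‖ ^ 2) / (‖a‖ ^ 2 + ‖b‖ ^ 2) -
      (2 * ((starRingEnd ℂ a) * (e * p) + (starRingEnd ℂ b) * (e * q)).re) ^ 2 /
        (‖a‖ ^ 2 + ‖b‖ ^ 2) ^ 2 := by
    intro e he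
    set A : ℝ := ‖a‖ ^ 2 + ‖b‖ ^ 2 with hA
    set B : ℝ := ((starRingEnd ℂ a) * (e * p) + (starRingEnd ℂ b) * (e * q)).re with hB
    set C : ℝ := ‖p‖ ^ 2 + ‖q‖ ^ 2 with hC
    have hN : ∀ s : ℝ, ‖a + (s • e) * p‖ ^ 2 + ‖b + (s • e) * q‖ ^ 2 =
        A + 2 * s * B + s ^ 2 * C := by
      intro s
      rw [line_sq, line_sq, he, hA, hB, hC, Complex.add_re]
      ring
    have hpos : ∀ᶠ t : ℝ in 𝓝 0, A + 2 * t * B + t ^ 2 * C ≠ 0 := by
      have h1 : ContinuousAt (fun t : ℝ => A + 2 * t * B + t ^ 2 * C) 0 :=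
        (quad_deriv A B C 0).continuousAt
      apply h1.eventually_ne
      simpa using h.ne'
    have h0 := lapline hcd e (ψ := fun t => (2 * B + 2 * t * C) / (A + 2 * t * B + t ^ 2 * C))
      (c := (2 * C * (A + 2 * 0 * B + 0 ^ 2 * C) - (2 * B + 2 * 0 * C) * (2 * B + 2 * 0 * C)) /
        (A + 2 * 0 * B + 0 ^ 2 * C) ^ 2)
      (by
        filter_upwards [hpos] with t ht
        have h2 := (quad_deriv A B C t).log ht
        refine h2.congr_of_eventuallyEq ?_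
        filter_upwards with s
        rw [hN])
      (by
        refine HasDerivAt.div ?_ (quad_deriv A B C 0) (by simpa using h.ne')
        have h2 : HasDerivAt (fun t : ℝ => 2 * B + 2 * t * C) (0 + 2 * 1 * C) 0 :=
          (hasDerivAt_const _ _).add (((hasDerivAt_id (0 : ℝ)).const_mul 2).mul_const C)
        have e2 : 0 + 2 * 1 * C = 2 * C := by ring
        rw [e2] at h2
        exact h2)
    rw [h0]
    have hA' : A ≠ 0 := h.ne'
    have e1 : A + 2 * 0 * B + 0 ^ 2 * C = A := by ring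
    rw [e1]
    field_simp
    ring
  rw [lap_def, main 1 (by simp), main Complex.I (by simp)]
  have hA' : ‖a‖ ^ 2 + ‖b‖ ^ 2 ≠ 0 := h.ne'
  have key : (‖a‖ ^ 2 + ‖b‖ ^ 2) * (‖p‖ ^ 2 + ‖q‖ ^ 2) -
      (((starRingEnd ℂ a) * (1 * p) + (starRingEnd ℂ b) * (1 * q)).re ^ 2 +
      ((starRingEnd ℂ a) * (Complex.I * p) + (starRingEnd ℂ b) * (Complex.I * q)).re ^ 2) =
      ‖a * q - b * p‖ ^ 2 := by
    simp only [Complex.sq_norm, Complex.normSq_apply, Complex.add_re, Complex.add_im,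
      Complex.sub_re, Complex.sub_im, Complex.mul_re, Complex.mul_im, Complex.conj_re,
      Complex.conj_im, Complex.I_re, Complex.I_im, one_mul]
    ring
  rw [← key]
  field_simp
  ring

theorem dir_prod {f g : V → ℂ} {z v : V} (hf : ContDiffAt ℂ ω f z) (hg : ContDiffAt ℂ ω g z) :
    fderiv ℂ (fun t => (f t, g t)) z v = (fderiv ℂ f z v, fderiv ℂ g z v) := by
  have h1 := (omega_an hf).differentiableAt.hasFDerivAt
  have h2 := (omega_an hg).differentiableAt.hasFDerivAt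
  rw [(h1.prodMk h2).fderiv]
  rfl

theorem lv_log_two {f g : V → ℂ} {z : V} (v : V) (hf : ContDiffAt ℂ ω f z)
    (hg : ContDiffAt ℂ ω g z) (h : 0 < ‖f z‖ ^ 2 + ‖g z‖ ^ 2) :
    lv (fun t => Real.log (‖f t‖ ^ 2 + ‖g t‖ ^ 2)) z v =
      4 * ‖f z * fderiv ℂ g z v - g z * fderiv ℂ f z v‖ ^ 2 / (‖f z‖ ^ 2 + ‖g z‖ ^ 2) ^ 2 := by
  have hcd : ContDiffAt ℝ 2 (fun w : ℂ × ℂ => Real.log (‖w.1‖ ^ 2 + ‖w.2‖ ^ 2)) (f z, g z) := by
    refine ContDiffAt.log ?_ (by simpa using h.ne')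
    exact (contDiffAt_fst.norm_sq ℝ).add (contDiffAt_snd.norm_sq ℝ)
  have h1 := lv_comp (v := v) (hf.prodMk hg) hcd
  rw [dir_prod hf hg] at h1
  have h2 := lap_log_two (f z) (g z) (fderiv ℂ f z v) (fderiv ℂ g z v) h
  exact h1.trans h2

/-- `log (|f|² + |g|²)` is smooth -/
theorem cd_log_two {n : WithTop ℕ∞} {f g : V → ℂ} {z : V} (hf : ContDiffAt ℝ n f z)
    (hg : ContDiffAt ℝ n g z) (h : 0 < ‖f z‖ ^ 2 + ‖g z‖ ^ 2) :
    ContDiffAt ℝ n (fun t => Real.log (‖f t‖ ^ 2 + ‖g t‖ ^ 2)) z :=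
  ((hf.norm_sq ℝ).add (hg.norm_sq ℝ)).log h.ne'

theorem lv_log_two_nonneg {f g : V → ℂ} {z : V} (v : V) (hf : ContDiffAt ℂ ω f z)
    (hg : ContDiffAt ℂ ω g z) (h : 0 < ‖f z‖ ^ 2 + ‖g z‖ ^ 2) :
    0 ≤ lv (fun t => Real.log (‖f t‖ ^ 2 + ‖g t‖ ^ 2)) z v := by
  rw [lv_log_two v hf hg h]
  positivity

/-- `log |f|²` is pluriharmonic -/
theorem lv_log_one {f : V → ℂ} {z : V} (v : V) (hf : ContDiffAt ℂ ω f z) (h : f z ≠ 0) :
    lv (fun t => Real.log (‖f t‖ ^ 2)) z v = 0 := by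
  have h1 : 0 < ‖f z‖ ^ 2 + ‖(fun _ : V => (0 : ℂ)) z‖ ^ 2 := by
    have := norm_pos_iff.2 h
    positivity
  have h2 := lv_log_two v hf (g := fun _ => 0) contDiffAt_const h1
  simp only [norm_zero, ne_eq, OfNat.ofNat_ne_zero, not_false_eq_true, zero_pow, add_zero] at h2
  rw [h2]
  simp

theorem cd_log_one {n : WithTop ℕ∞} {f : V → ℂ} {z : V} (hf : ContDiffAt ℝ n f z) (h : f z ≠ 0) :
    ContDiffAt ℝ n (fun t => Real.log (‖f t‖ ^ 2)) z :=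
  (hf.norm_sq ℝ).log (by simpa using h)

/-- the Laplacian of `|a + ζ p|²` -/
theorem lap_sq (a p : ℂ) :
    Laplacian.laplacian (fun ζ : ℂ => ‖a + ζ * p‖ ^ 2) 0 = 4 * ‖p‖ ^ 2 := by
  have hcd : ContDiffAt ℝ 2 (fun ζ : ℂ => ‖a + ζ * p‖ ^ 2) 0 :=
    ContDiffAt.norm_sq ℝ (contDiffAt_const.add (contDiffAt_id.mul contDiffAt_const))
  have main : ∀ e : ℂ, ‖e‖ = 1 → iteratedFDeriv ℝ 2
      (fun ζ : ℂ => ‖a + ζ * p‖ ^ 2) 0 ![e, e] = 2 * ‖p‖ ^ 2 := by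
    intro e he
    set B : ℝ := ((starRingEnd ℂ a) * (e * p)).re with hB
    refine lapline hcd e (ψ := fun t => 2 * B + 2 * t * ‖p‖ ^ 2) ?_ ?_
    · filter_upwards with t
      refine (quad_deriv (‖a‖ ^ 2) B (‖p‖ ^ 2) t).congr_of_eventuallyEq ?_
      filter_upwards with s
      rw [line_sq, he]
      ring
    · have h2 : HasDerivAt (fun t : ℝ => 2 * B + 2 * t * ‖p‖ ^ 2) (0 + 2 * 1 * ‖p‖ ^ 2) 0 :=
          (hasDerivAt_const _ _).add (((hasDerivAt_id (0 : ℝ)).const_mul 2).mul_const (‖p‖ ^ 2))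
      have e2 : 0 + 2 * 1 * ‖p‖ ^ 2 = 2 * ‖p‖ ^ 2 := by ring
      rw [e2] at h2
      exact h2
  rw [lap_def, main 1 (by simp), main Complex.I (by simp)]
  ring

theorem lv_sq {f : V → ℂ} {z : V} (v : V) (hf : ContDiffAt ℂ ω f z) :
    lv (fun t => ‖f t‖ ^ 2) z v = 4 * ‖fderiv ℂ f z v‖ ^ 2 := by
  have hcd : ContDiffAt ℝ 2 (fun w : ℂ => ‖w‖ ^ 2) (f z) := contDiffAt_id.norm_sq ℝ
  have h1 := lv_comp (v := v) hf hcd
  exact h1.trans (lap_sq (f z) (fderiv ℂ f z v))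

end Pool.Agent.U84.SP
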