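import Mathlib

set_option autoImplicit false

/-!
# Forms and classes on complex surfaces

The model of a complex surface is `ℂ × ℂ`. Closed real `(1,1)`-forms are given by local potentials.
-/

open Set Topology Filter
open scoped ContDiff Manifold

namespace Pool.Agent.U84.NB

/-- `f` is (near `0`) a holomorphic disc in the complex surface `Y` -/
def IsDisc {Y : Type} [TopologicalSpace Y] [ChartedSpace (ℂ × ℂ) Y] (f : ℂ → Y) : Prop :=
  ContMDiffAt 𝓘(ℂ, ℂ) 𝓘(ℂ, ℂ × ℂ) ω f 0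

/-- A smooth closed real `(1,1)`-form on the complex surface `Y`, given by its local potentials: it
is `dd^c (pot p)` near `p`, where the function `pot p` is smooth near `p`. For `q` near `p` the
functions `pot p` and `pot q` have the same Laplacian at `q` along all discs through `q` (so they
define the same form at `q`). -/
structure Form (Y : Type) [TopologicalSpace Y] [ChartedSpace (ℂ × ℂ) Y] where
  pot : Y → Y → ℝ
  smooth : ∀ p, ∀ᶠ q in 𝓝 p, ContMDiffAt 𝓘(ℝ, ℂ × ℂ) 𝓘(ℝ, ℝ) ∞ (pot p) q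
  compat : ∀ p, ∀ᶠ q in 𝓝 p, ∀ f : ℂ → Y, IsDisc f → f 0 = q →
    Laplacian.laplacian (fun ζ : ℂ => pot p (f ζ) - pot q (f ζ)) 0 = 0

section

variable {Y : Type} [TopologicalSpace Y] [ChartedSpace (ℂ × ℂ) Y]

/-- The value of the form on the tangent vector `v` of the disc `f` at `f 0` (up to a constant
factor, `θ (v, J v)`). -/
noncomputable def Form.val (θ : Form Y) (f : ℂ → Y) : ℝ :=
  Laplacian.laplacian (fun ζ : ℂ => θ.pot (f 0) (f ζ)) 0

/-- The value of `dd^c u` on the tangent vector of the disc `f` at `f 0` (same factor). -/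
noncomputable def ddc (u : Y → ℝ) (f : ℂ → Y) : ℝ :=
  Laplacian.laplacian (fun ζ : ℂ => u (f ζ)) 0

/-- The form is positive (a Kähler form). -/
def Form.IsKahler (Ω : Form Y) : Prop :=
  ∀ f : ℂ → Y, IsDisc f → mfderiv 𝓘(ℂ, ℂ) 𝓘(ℂ, ℂ × ℂ) f 0 ≠ 0 → 0 < Ω.val f

/-- The class `{θ + dd^c u}` of `θ` is nef (`Ω` is a Kähler form): for each `ε > 0` it contains a
smooth form `θ + dd^c u ≥ -ε Ω`. -/
def Form.IsNef (θ Ω : Form Y) : Prop := ∀ ε : ℝ, 0 < ε →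
  ∃ u : Y → ℝ, ContMDiff 𝓘(ℝ, ℂ × ℂ) 𝓘(ℝ, ℝ) ∞ u ∧
    ∀ f : ℂ → Y, IsDisc f → -(ε * Ω.val f) ≤ θ.val f + ddc u f

/-- The class of `θ` is big, with a Kähler current which is smooth outside a nowhere dense closed
set `A`: the function `ψ` is smooth outside `A` and has the limit `-∞` at the points of `A`, and
`θ + dd^c ψ ≥ δ Ω` outside `A`. (So `ψ`, extended by `-∞` to `A`, is quasi-plurisubharmonic, and
`θ + dd^c ψ` is a closed positive current in the class of `θ` with `θ + dd^c ψ ≥ δ Ω`.) -/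
def Form.IsBig (θ Ω : Form Y) : Prop := ∃ (A : Set Y) (δ : ℝ) (ψ : Y → ℝ),
  IsClosed A ∧ Dense Aᶜ ∧ 0 < δ ∧
  (∀ p, p ∉ A → ContMDiffAt 𝓘(ℝ, ℂ × ℂ) 𝓘(ℝ, ℝ) ∞ ψ p) ∧
  (∀ p ∈ A, Tendsto ψ (𝓝[Aᶜ] p) atBot) ∧
  ∀ f : ℂ → Y, IsDisc f → f 0 ∉ A → δ * Ω.val f ≤ θ.val f + ddc ψ f

/-- The class of `θ` has a smooth semipositive representative. -/
def Form.HasSemipositive (θ : Form Y) : Prop :=
  ∃ u : Y → ℝ, ContMDiff 𝓘(ℝ, ℂ × ℂ) 𝓘(ℝ, ℝ) ∞ u ∧
    ∀ f : ℂ → Y, IsDisc f → 0 ≤ θ.val f + ddc u f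

end

end Pool.Agent.U84.NB
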