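import Pool.Agent.Y184.SP.Base

set_option autoImplicit false

/-!
# Calculus of the Levi form on a complex normed space
-/

open Set Topology Filter
open scoped ContDiff

namespace Pool.Agent.U84.SP

open Pool.Agent.Y184.SP

variable {V : Type*} [NormedAddCommGroup V] [NormedSpace ℂ V]
variable {V' : Type*} [NormedAddCommGroup V'] [NormedSpace ℂ V']

/-- the Levi form on a complex normed space -/
noncomputable def lv (ρ : V → ℝ) (z v : V) : ℝ :=
  Laplacian.laplacian (fun ζ : ℂ => ρ (z + ζ • v)) 0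

theorem lev_lv : lev = lv (V := E) := rfl

theorem lap_def (L : ℂ → ℝ) (x : ℂ) : Laplacian.laplacian L x =
    iteratedFDeriv ℝ 2 L x ![1, 1] + iteratedFDeriv ℝ 2 L x ![Complex.I, Complex.I] := by
  rw [InnerProductSpace.laplacian_eq_iteratedFDeriv_complexPlane]

theorem lapline {L : ℂ → ℝ} (hL : ContDiffAt ℝ 2 L 0) (e : ℂ) {ψ : ℝ → ℝ} {c : ℝ}
    (h1 : ∀ᶠ t in 𝓝 (0 : ℝ), HasDerivAt (fun s : ℝ => L (s • e)) (ψ t) t)
    (h2 : HasDerivAt ψ c 0) : iteratedFDeriv ℝ 2 L 0 ![e, e] = c := by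
  rw [iteratedFDeriv_two_apply]
  simp only [Matrix.cons_val_zero, Matrix.cons_val_one]
  have hdiff : ∀ᶠ ζ in 𝓝 (0 : ℂ), DifferentiableAt ℝ L ζ := by
    have h := hL.eventually (by simp)
    filter_upwards [h] with ζ hζ
    exact hζ.differentiableAt (by norm_num)
  have hf : DifferentiableAt ℝ (fderiv ℝ L) 0 := by
    have : ContDiffAt ℝ 1 (fderiv ℝ L) 0 := hL.fderiv_right (by norm_num)
    exact this.differentiableAt (by norm_num)
  have hline : ∀ t : ℝ, HasDerivAt (fun s : ℝ => s • e) e t := by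
    intro t
    simpa using (hasDerivAt_id t).smul_const e
  have ht0 : Tendsto (fun s : ℝ => s • e) (𝓝 0) (𝓝 (0 : ℂ)) := by
    have := (hline 0).continuousAt.tendsto
    simpa using this
  have h3 : ψ =ᶠ[𝓝 0] fun t => fderiv ℝ L (t • e) e := by
    filter_upwards [h1, ht0.eventually hdiff] with t ht htd
    have h4 : HasDerivAt (fun s : ℝ => L (s • e)) (fderiv ℝ L (t • e) e) t :=
      htd.hasFDerivAt.comp_hasDerivAt t (hline t)
    exact ht.unique h4
  have h5 : HasDerivAt (fun t : ℝ => fderiv ℝ L (t • e) e) (fderiv ℝ (fderiv ℝ L) 0 e e) 0 := by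
    have h6 : HasFDerivAt (fderiv ℝ L) (fderiv ℝ (fderiv ℝ L) 0) ((0 : ℝ) • e) := by
      rw [zero_smul]; exact hf.hasFDerivAt
    have h7 : HasDerivAt (fun t : ℝ => fderiv ℝ L (t • e)) (fderiv ℝ (fderiv ℝ L) 0 e) 0 :=
      h6.comp_hasDerivAt (0 : ℝ) (hline 0)
    have h8 := (ContinuousLinearMap.apply ℝ ℝ e).hasFDerivAt.comp_hasDerivAt (0 : ℝ) h7
    exact h8
  exact ((h2.congr_of_eventuallyEq h3.symm).unique h5).symm

/-- the Laplacian of `ρ ∘ f` for a holomorphic disc `f` -/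
theorem lap_disc' {ρ : V → ℝ} {f : ℂ → V} (hfR : ContDiffAt ℝ 2 f 0)
    (hf1 : ∀ᶠ ζ in 𝓝 (0 : ℂ), HasDerivAt f (deriv f ζ) ζ)
    (hf2 : HasDerivAt (deriv f) (deriv (deriv f) 0) 0)
    (hρ : ContDiffAt ℝ 2 ρ (f 0)) :
    Laplacian.laplacian (fun ζ : ℂ => ρ (f ζ)) 0 =
      fderiv ℝ (fderiv ℝ ρ) (f 0) (deriv f 0) (deriv f 0) +
      fderiv ℝ (fderiv ℝ ρ) (f 0) (Complex.I • deriv f 0) (Complex.I • deriv f 0) := by
  have hL : ContDiffAt ℝ 2 (fun ζ : ℂ => ρ (f ζ)) 0 := hρ.comp (0 : ℂ) hfR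
  have hρ1 : ∀ᶠ ζ in 𝓝 (0 : ℂ), DifferentiableAt ℝ ρ (f ζ) := by
    have h := hρ.eventually (by simp)
    have h2 := hfR.continuousAt.tendsto.eventually h
    filter_upwards [h2] with ζ hζ
    exact hζ.differentiableAt (by norm_num)
  have hρ2 : HasFDerivAt (fderiv ℝ ρ) (fderiv ℝ (fderiv ℝ ρ) (f 0)) (f 0) := by
    have : ContDiffAt ℝ 1 (fderiv ℝ ρ) (f 0) := hρ.fderiv_right (by norm_num)
    exact (this.differentiableAt (by norm_num)).hasFDerivAt
  have hline : ∀ (e : ℂ) (t : ℝ), HasDerivAt (fun s : ℝ => s • e) e t := by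
    intro e t
    simpa using (hasDerivAt_id t).smul_const e
  have ht0 : ∀ e : ℂ, Tendsto (fun s : ℝ => s • e) (𝓝 0) (𝓝 (0 : ℂ)) := by
    intro e
    have := (hline e 0).continuousAt.tendsto
    simpa using this
  have main : ∀ e : ℂ, iteratedFDeriv ℝ 2 (fun ζ : ℂ => ρ (f ζ)) 0 ![e, e] =
      fderiv ℝ (fderiv ℝ ρ) (f 0) (e • deriv f 0) (e • deriv f 0) +
        fderiv ℝ ρ (f 0) (e • (e • deriv (deriv f) 0)) := by
    intro e
    apply lapline hL e (ψ := fun s : ℝ => fderiv ℝ ρ (f (s • e)) (e • deriv f (s • e)))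
    · filter_upwards [(ht0 e).eventually hf1, (ht0 e).eventually hρ1] with t h1 h2
      have h3 : HasDerivAt (fun s : ℝ => f (s • e)) (e • deriv f (t • e)) t :=
        HasDerivAt.scomp t h1 (hline e t)
      exact h2.hasFDerivAt.comp_hasDerivAt t h3
    · have e0 : (0 : ℝ) • e = 0 := zero_smul _ _
      have h1 : HasDerivAt (fun s : ℝ => f (s • e)) (e • deriv f 0) 0 := by
        have h2 : HasDerivAt f (deriv f 0) ((0 : ℝ) • e) := by
          rw [e0]; exact hf1.self_of_nhds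
        exact HasDerivAt.scomp (0 : ℝ) h2 (hline e 0)
      have h3 : HasDerivAt (fun s : ℝ => fderiv ℝ ρ (f (s • e)))
          (fderiv ℝ (fderiv ℝ ρ) (f 0) (e • deriv f 0)) 0 := by
        have h4 : HasFDerivAt (fderiv ℝ ρ) (fderiv ℝ (fderiv ℝ ρ) (f 0)) (f ((0 : ℝ) • e)) := by
          rw [e0]; exact hρ2
        exact h4.comp_hasDerivAt (0 : ℝ) h1
      have h5 : HasDerivAt (fun s : ℝ => e • deriv f (s • e)) (e • (e • deriv (deriv f) 0)) 0 := by
        have h6 : HasDerivAt (deriv f) (deriv (deriv f) 0) ((0 : ℝ) • e) := by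
          rw [e0]; exact hf2
        exact (HasDerivAt.scomp (0 : ℝ) h6 (hline e 0)).const_smul e
      have h7 := h3.clm_apply h5
      rw [e0] at h7
      exact h7
  rw [lap_def, main 1, main Complex.I]
  have h1 : Complex.I • (Complex.I • deriv (deriv f) 0) = -(deriv (deriv f) 0) := by
    rw [smul_smul, Complex.I_mul_I, neg_smul, one_smul]
  rw [h1, one_smul, one_smul, one_smul, map_neg]
  ring

theorem line_hd (z v : V) (t : ℂ) : HasDerivAt (fun ζ : ℂ => z + ζ • v) v t := by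
  simpa using ((hasDerivAt_id t).smul_const v).const_add z

theorem line_deriv (z v : V) : deriv (fun ζ : ℂ => z + ζ • v) = fun _ => v :=
  funext fun t => (line_hd z v t).deriv

/-- the Levi form in terms of the second derivative -/
theorem lv_eq {ρ : V → ℝ} {z : V} (v : V) (hρ : ContDiffAt ℝ 2 ρ z) :
    lv ρ z v = fderiv ℝ (fderiv ℝ ρ) z v v +
      fderiv ℝ (fderiv ℝ ρ) z (Complex.I • v) (Complex.I • v) := by
  have e0 : z + (0 : ℂ) • v = z := by rw [zero_smul, add_zero]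
  have h := lap_disc' (ρ := ρ) (f := fun ζ : ℂ => z + ζ • v)
    (contDiffAt_const.add (contDiffAt_id.smul contDiffAt_const))
    (by
      filter_upwards with t
      rw [line_deriv]
      exact line_hd z v t)
    (by
      rw [line_deriv, deriv_const']
      exact hasDerivAt_const _ _)
    (by
      simp only [zero_smul, add_zero]
      exact hρ)
  rw [line_deriv] at h
  simp only [zero_smul, add_zero] at h
  exact h

theorem omega_an [CompleteSpace V'] {f : V → V'} {z : V} (hf : ContDiffAt ℂ ω f z) : AnalyticAt ℂ f z := by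
  rw [← contDiffWithinAt_univ, contDiffWithinAt_omega_iff_analyticWithinAt,
    analyticWithinAt_univ] at hf
  exact hf

theorem omega_real {f : V → V'} {z : V} (hf : ContDiffAt ℂ ω f z) : ContDiffAt ℝ ∞ f z :=
  (hf.of_le le_top).restrict_scalars ℝ

theorem two_le : (2 : WithTop ℕ∞) ≤ ∞ := WithTop.coe_le_coe.2 (le_top : (2 : ℕ∞) ≤ ⊤)

/-- the chain rule for discs -/
theorem lv_disc [CompleteSpace V] {ρ : V → ℝ} {f : ℂ → V} (hf : ContDiffAt ℂ ω f 0)
    (hρ : ContDiffAt ℝ 2 ρ (f 0)) :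
    Laplacian.laplacian (fun ζ : ℂ => ρ (f ζ)) 0 = lv ρ (f 0) (deriv f 0) := by
  rw [lv_eq _ hρ]
  have hfa := omega_an hf
  refine lap_disc' ((omega_real hf).of_le two_le) ?_ hfa.deriv.differentiableAt.hasDerivAt hρ
  filter_upwards [hfa.eventually_analyticAt] with ζ hζ
  exact hζ.differentiableAt.hasDerivAt

/-- the chain rule -/
theorem lv_comp [CompleteSpace V] [CompleteSpace V'] {ρ : V' → ℝ} {g : V → V'} {z v : V} (hg : ContDiffAt ℂ ω g z)
    (hρ : ContDiffAt ℝ 2 ρ (g z)) :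
    lv (fun t => ρ (g t)) z v = lv ρ (g z) (fderiv ℂ g z v) := by
  have e0 : z + (0 : ℂ) • v = z := by rw [zero_smul, add_zero]
  have hg' : ContDiffAt ℂ ω g (z + (0 : ℂ) • v) := by rw [e0]; exact hg
  have h := lv_disc (ρ := ρ) (f := fun ζ : ℂ => g (z + ζ • v))
    (hg'.comp (0 : ℂ) (contDiffAt_const.add (contDiffAt_id.smul contDiffAt_const)))
    (by simp only [zero_smul, add_zero]; exact hρ)
  have h2 : HasDerivAt (fun ζ : ℂ => g (z + ζ • v)) (fderiv ℂ g z v) 0 := by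
    have h3 : HasFDerivAt g (fderiv ℂ g z) (z + (0 : ℂ) • v) := by
      rw [e0]; exact ((omega_an hg).differentiableAt).hasFDerivAt
    exact h3.comp_hasDerivAt (0 : ℂ) (line_hd z v 0)
  rw [h2.deriv] at h
  simp only [zero_smul, add_zero] at h
  exact h

theorem lv_congr {ρ ρ' : V → ℝ} {z : V} (v : V) (h : ρ =ᶠ[𝓝 z] ρ') : lv ρ z v = lv ρ' z v := by
  unfold lv
  have h1 : Tendsto (fun ζ : ℂ => z + ζ • v) (𝓝 0) (𝓝 z) := by
    have : ContinuousAt (fun ζ : ℂ => z + ζ • v) 0 := by fun_prop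
    have h2 := this.tendsto
    simpa using h2
  have h2 : (fun ζ : ℂ => ρ (z + ζ • v)) =ᶠ[𝓝 0] (fun ζ : ℂ => ρ' (z + ζ • v)) := h1.eventually h
  exact (InnerProductSpace.laplacian_congr_nhds h2).self_of_nhds

theorem line_c {ρ : V → ℝ} {z : V} (v : V) {n : WithTop ℕ∞} (h : ContDiffAt ℝ n ρ z) :
    ContDiffAt ℝ n (fun ζ : ℂ => ρ (z + ζ • v)) 0 := by
  have h' : ContDiffAt ℝ n ρ (z + (0 : ℂ) • v) := by rw [zero_smul, add_zero]; exact h
  exact h'.comp (0 : ℂ) (contDiffAt_const.add (contDiffAt_id.smul contDiffAt_const))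

theorem lv_add {f g : V → ℝ} {z : V} (v : V) (hf : ContDiffAt ℝ 2 f z) (hg : ContDiffAt ℝ 2 g z) :
    lv (fun t => f t + g t) z v = lv f z v + lv g z v :=
  (line_c v hf).laplacian_add (line_c v hg)

theorem lv_sub {f g : V → ℝ} {z : V} (v : V) (hf : ContDiffAt ℝ 2 f z) (hg : ContDiffAt ℝ 2 g z) :
    lv (fun t => f t - g t) z v = lv f z v - lv g z v :=
  (line_c v hf).laplacian_sub (line_c v hg)

theorem lv_smul {f : V → ℝ} {z : V} (v : V) (c : ℝ) (hf : ContDiffAt ℝ 2 f z) :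
    lv (fun t => c * f t) z v = c * lv f z v :=
  InnerProductSpace.laplacian_smul c (line_c v hf)

theorem lv_neg {f : V → ℝ} {z : V} (v : V) (hf : ContDiffAt ℝ 2 f z) :
    lv (fun t => - f t) z v = - lv f z v := by
  have := lv_smul v (-1) hf
  simpa using this

theorem lv_const (b : ℝ) (z v : V) : lv (fun _ => b) z v = 0 := by
  unfold lv
  rw [lap_def]
  simp [iteratedFDeriv_const_of_ne (𝕜 := ℝ) (n := 2) (by norm_num) b]

theorem lv_add_const {f : V → ℝ} {z : V} (v : V) (b : ℝ) (hf : ContDiffAt ℝ 2 f z) :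
    lv (fun t => f t + b) z v = lv f z v := by
  rw [lv_add v hf contDiffAt_const, lv_const, add_zero]

theorem lv_zero (f : V → ℝ) (z : V) : lv f z 0 = 0 := by
  unfold lv
  simp only [smul_zero, add_zero]
  rw [lap_def]
  simp [iteratedFDeriv_const_of_ne (𝕜 := ℝ) (n := 2) (by norm_num) (f z)]

/-- homogeneity -/
theorem lv_hom {f : V → ℝ} {z : V} (c : ℂ) (v : V) (hf : ContDiffAt ℝ 2 f z) :
    lv f z (c • v) = ‖c‖ ^ 2 * lv f z v := by
  rw [lv_eq _ hf, lv_eq _ hf]
  have hs : ∀ a b : V, fderiv ℝ (fderiv ℝ f) z a b = fderiv ℝ (fderiv ℝ f) z b a := by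
    intro a b
    exact hf.isSymmSndFDerivAt (by simp) a b
  have hc : c • v = c.re • v + c.im • (Complex.I • v) := by
    conv_lhs => rw [← Complex.re_add_im c]
    rw [add_smul, mul_smul]
    rfl
  have hc2 : Complex.I • c • v = c.re • (Complex.I • v) - c.im • v := by
    rw [hc, smul_add, smul_comm Complex.I c.re, smul_comm Complex.I c.im, smul_smul,
      Complex.I_mul_I, neg_smul, one_smul, smul_neg, sub_eq_add_neg]
  rw [hc2, hc]
  simp only [map_add, map_sub, map_smul, add_apply, sub_apply, smul_apply, smul_eq_mul]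
  rw [hs v (Complex.I • v), Complex.sq_norm, Complex.normSq_apply]
  ring

/-- joint continuity of the Levi form -/
theorem lv_cont {ρ : V → ℝ} {z : V} (v : V) (hρ : ContDiffAt ℝ 2 ρ z) :
    ContinuousAt (fun p : V × V => lv ρ p.1 p.2) (z, v) := by
  have h1 : ∀ᶠ p in 𝓝 (z, v), lv ρ p.1 p.2 = fderiv ℝ (fderiv ℝ ρ) p.1 p.2 p.2 +
      fderiv ℝ (fderiv ℝ ρ) p.1 (Complex.I • p.2) (Complex.I • p.2) := by
    have h3 : ∀ᶠ p : V × V in 𝓝 (z, v), ContDiffAt ℝ 2 ρ p.1 :=
      (continuous_fst.tendsto (z, v)).eventually (hρ.eventually (by simp))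
    filter_upwards [h3] with p hp
    exact lv_eq _ hp
  have h4 : ContDiffAt ℝ 1 (fderiv ℝ ρ) z := hρ.fderiv_right (by norm_num)
  have h5 : ContinuousAt (fderiv ℝ (fderiv ℝ ρ)) z := by
    have h6 : ContDiffAt ℝ 0 (fderiv ℝ (fderiv ℝ ρ)) z := h4.fderiv_right (by norm_num)
    exact h6.continuousAt
  have h7 : ContinuousAt (fun p : V × V => fderiv ℝ (fderiv ℝ ρ) p.1) (z, v) :=
    ContinuousAt.comp (g := fderiv ℝ (fderiv ℝ ρ)) (f := fun p : V × V => p.1) h5
      continuousAt_fst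
  have h8 : ContinuousAt (fun p : V × V => Complex.I • p.2) (z, v) :=
    Continuous.continuousAt (by fun_prop)
  have h9 : ContinuousAt (fun p : V × V => fderiv ℝ (fderiv ℝ ρ) p.1 p.2 p.2 +
      fderiv ℝ (fderiv ℝ ρ) p.1 (Complex.I • p.2) (Complex.I • p.2)) (z, v) :=
    ((h7.clm_apply continuousAt_snd).clm_apply continuousAt_snd).add
      ((h7.clm_apply h8).clm_apply h8)
  exact h9.congr_of_eventuallyEq h1

end Pool.Agent.U84.SP
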