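import Pool.Agent.U84.SP.Phi2
import Pool.Agent.Y79.RB.Sub2
import Pool.Agent.Y684.RB.Null

set_option autoImplicit false
set_option linter.unusedSectionVars false

/-!
# Extensions of functions, and the strong maximum principle
-/

open Set Topology Filter
open scoped ContDiff

namespace Pool.Agent.U84.SP

open Pool.Agent.Y184.SP

theorem lap_line (v : ℂ → ℝ) (x1 : ℂ) (R : ℝ) (z : ℂ) :
    Laplacian.laplacian (fun ζ : ℂ => v (x1 + R • ζ)) z =
      R ^ 2 * Laplacian.laplacian v (x1 + R • z) := by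
  rw [Pool.Agent.Y79.RB.lap_scale (fun y => v (x1 + y)) R z]
  congr 1
  rw [lap_def, lap_def]
  simp only [iteratedFDeriv_comp_add_left]

/-- a subharmonic function on the plane which attains its maximum is constant -/
theorem smp {v : ℂ → ℝ} (hv : ContDiff ℝ 2 v) (hl : ∀ x, 0 ≤ Laplacian.laplacian v x) {x1 : ℂ}
    (hm : ∀ x, v x ≤ v x1) (x : ℂ) : v x = v x1 := by
  by_cases hx : x = x1
  · rw [hx]
  have hr : 0 < ‖x - x1‖ := norm_pos_iff.2 (sub_ne_zero.2 hx)
  set R : ℝ := ‖x - x1‖ with hR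
  have hcd : ∀ ζ : ℂ, ContDiffAt ℝ 2 (fun ζ : ℂ => v (x1 + R • ζ)) ζ := fun ζ =>
    (hv.contDiffAt).comp ζ (by fun_prop)
  have h1 := Pool.Agent.Y79.RB.mean_le (h := fun ζ : ℂ => v (x1 + R • ζ)) (fun ζ _ => hcd ζ)
    (fun ζ _ => by
      rw [lap_line]
      exact mul_nonneg (by positivity) (hl _))
  simp only [smul_zero, add_zero] at h1
  have h2 := Pool.Agent.Y684.RB.circ (fun ζ : ℂ => v (x1 + R • ζ)) 0 1 (v x1) one_pos
    (by
      have h3 : Continuous (fun ζ : ℂ => v (x1 + R • ζ)) :=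
        continuous_iff_continuousAt.2 fun ζ => (hcd ζ).continuousAt
      exact h3.comp (continuous_circleMap _ _))
    (fun y _ => hm _) h1 (R⁻¹ • (x - x1)) (by
      rw [sub_zero, norm_smul, norm_inv, Real.norm_of_nonneg hr.le, ← hR]
      exact inv_mul_cancel₀ hr.ne')
  simp only [smul_smul, mul_inv_cancel₀ hr.ne', one_smul, add_sub_cancel] at h2
  exact h2

/-- the extension of `u` to the coordinate system `j` -/
noncomputable def ext (j : Fin 5) (u : E → ℝ) (z : E) : ℝ :=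
  extendFrom {z' | tr j z' ∈ W} (fun z' => u (tr j z')) z

theorem ext_ev {u : E → ℝ} {j : Fin 5} {z : E} (hz : z ∈ V j) {f : E → ℝ} (hf : SmAt f z)
    (h : ∀ᶠ z' in 𝓝 z, tr j z' ∈ W → f z' = u (tr j z')) : ext j u =ᶠ[𝓝 z] f := by
  filter_upwards [hf, h.eventually_nhds, (V_open j).mem_nhds hz] with z' h1 h2 h3
  refine extendFrom_eq (dense_V j h3) ?_
  have h4 : Tendsto f (𝓝[{z' | tr j z' ∈ W}] z') (𝓝 (f z')) :=
    h1.continuousAt.tendsto.mono_left nhdsWithin_le_nhds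
  refine h4.congr' ?_
  filter_upwards [nhdsWithin_le_nhds h2, self_mem_nhdsWithin] with s h5 h6
  exact h5 h6

theorem ext_cd {u : E → ℝ} (hu : Ext u) {j : Fin 5} {z : E} (hz : z ∈ V j) :
    ContDiffAt ℝ ∞ (ext j u) z := by
  obtain ⟨f, hf, h⟩ := hu j z hz
  exact (hf.self_of_nhds).congr_of_eventuallyEq (ext_ev hz hf h)

theorem ext_W {u : E → ℝ} (hu : Ext u) {j : Fin 5} {z : E} (hz : z ∈ V j) (h : tr j z ∈ W) :
    ext j u z = u (tr j z) := by
  obtain ⟨f, hf, h1⟩ := hu j z hz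
  rw [(ext_ev hz hf h1).self_of_nhds]
  exact h1.self_of_nhds h

theorem W_V0 {z : E} (h : z ∈ W) : z ∈ V 0 := Or.inl h.1

theorem u_cd {u : E → ℝ} (hu : Ext u) {z : E} (hz : z ∈ W) : ContDiffAt ℝ ∞ u z := by
  obtain ⟨f, hf, h⟩ := hu 0 z (W_V0 hz)
  refine (hf.self_of_nhds).congr_of_eventuallyEq ?_
  filter_upwards [h, W_open.mem_nhds hz] with z' h1 h2
  exact (h1 h2).symm

/-- the Levi form is invariant under the coordinate changes -/
theorem lv_tr {f : E → ℝ} {j : Fin 5} {z : E} (v : E) (h : tr j z ∈ W)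
    (hf : ContDiffAt ℝ 2 f (tr j z)) :
    lv (fun t => f (tr j t)) z v = lv f (tr j z) (fderiv ℂ (tr j) z v) :=
  lv_comp (tr_cd (W_ne h)) hf

theorem tr_cdR {n : WithTop ℕ∞} {j : Fin 5} {z : E} (h : tr j z ∈ W) : ContDiffAt ℝ n (tr j) z :=
  ((tr_cd (W_ne h)).restrict_scalars ℝ).of_le le_top

theorem pot_nonneg {u : E → ℝ} (hu : Ext u) (hpos : ∀ z ∈ W, ∀ v, 0 ≤ lev (fun z' => Phi z' + u z') z v)
    {j : Fin 5} {z : E} (hz : z ∈ V j) {ρ : E → ℝ} (hρ : PotAt Phi j z ρ) (v : E) :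
    0 ≤ lv (fun t => ρ t + ext j u t) z v := by
  have hc : ContDiffAt ℝ 2 (fun t => ρ t + ext j u t) z :=
    ((hρ.1.self_of_nhds).of_le two_le).add ((ext_cd hu hz).of_le two_le)
  refine nonneg_of_W j hz (F := fun z' => lv (fun t => ρ t + ext j u t) z' v) ?_ ?_
  · have h1 : ContinuousAt (fun z' : E => (z', v)) z := by fun_prop
    exact ContinuousAt.comp (f := fun z' : E => (z', v))
      (g := fun p : E × E => lv (fun t => ρ t + ext j u t) p.1 p.2) (lv_cont v hc) h1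
  · filter_upwards [hρ.1, hρ.2, (V_open j).mem_nhds hz] with z' h1 h2 h3 h4
    have c1 : ContDiffAt ℝ 2 (fun t => ρ t - Phi (tr j t)) z' :=
      (h1.of_le two_le).sub (((Phi_cd h4.1).of_le two_le).comp z' (tr_cdR h4))
    have c2 : ContDiffAt ℝ 2 (fun t => Phi t + u t) (tr j z') :=
      ((Phi_cd h4.1).of_le two_le).add ((u_cd hu h4).of_le two_le)
    have c3 : ContDiffAt ℝ 2 (fun t => Phi (tr j t) + u (tr j t)) z' := c2.comp z' (tr_cdR h4)
    have e1 : (fun t => ρ t + ext j u t) =ᶠ[𝓝 z']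
        fun t => (ρ t - Phi (tr j t)) + (Phi (tr j t) + u (tr j t)) := by
      filter_upwards [tr_W_open h4, (V_open j).mem_nhds h3] with s hs hs2
      rw [ext_W hu hs2 hs]
      ring
    have h5 : lv (fun t => ρ t - Phi (tr j t)) z' v = 0 := h2 h4 v
    have h6 : lv (fun t => Phi (tr j t) + u (tr j t)) z' v = lv (fun t => Phi t + u t) (tr j z')
      (fderiv ℂ (tr j) z' v) := lv_tr (f := fun t => Phi t + u t) v h4 c2
    have h7 : lv (fun t => ρ t + ext j u t) z' v =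
        lv (fun t => ρ t - Phi (tr j t)) z' v + lv (fun t => Phi (tr j t) + u (tr j t)) z' v :=
      (lv_congr v e1).trans (lv_add v c1 c3)
    show 0 ≤ lv (fun t => ρ t + ext j u t) z' v
    rw [h7, h5, h6, zero_add]
    exact hpos _ h4 _

end Pool.Agent.U84.SP
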