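import Pool.Agent.U84.SP.X4
import Pool.Agent.U84.SP.Not
import Pool.Agent.U84.SP.Forms

set_option autoImplicit false
set_option linter.unusedSectionVars false

/-!
# Functions and forms on the surface
-/

open Set Topology Filter
open scoped ContDiff Manifold

namespace Pool.Agent.U84.SP

open Pool.Agent.Y184.SP Pool.Agent.U84.NB

theorem pX_cm_iff {j : Fin 5} {z : E} (hz : z ∈ V j) (f : X → ℝ) :
    ContMDiffAt 𝓘(ℝ, E) 𝓘(ℝ, ℝ) ∞ f (pX j z) ↔ ContDiffAt ℝ ∞ (fun z => f (pX j z)) z :=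
  XP.cm_iff (i := (j, z.1)) (Dm_self hz) f

theorem nhds_pX {j : Fin 5} {z : E} (hz : z ∈ V j) : 𝓝 (pX j z) = map (pX j) (𝓝 z) :=
  XP.nhds_ph (i := (j, z.1)) (Dm_self hz)

theorem ev_pX {j : Fin 5} {z : E} (hz : z ∈ V j) {P : X → Prop} :
    (∀ᶠ q in 𝓝 (pX j z), P q) ↔ ∀ᶠ z' in 𝓝 z, P (pX j z') := by
  rw [nhds_pX hz]; rfl

/-- `F` is a lift of the disc `f` to the coordinate system `j` -/
structure Lift (f : ℂ → X) (j : Fin 5) (F : ℂ → E) : Prop where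
  mem : F 0 ∈ V j
  cd : ContDiffAt ℂ ω F 0
  eq : ∀ᶠ ζ in 𝓝 (0 : ℂ), f ζ = pX j (F ζ)

theorem Lift.eq0 {f : ℂ → X} {j : Fin 5} {F : ℂ → E} (h : Lift f j F) : f 0 = pX j (F 0) :=
  h.eq.self_of_nhds

/-- the charts of the surface -/
noncomputable def cX (i : Fin 5 × ℂ) : X → E := XP.ch i

theorem cX_pX {i : Fin 5 × ℂ} {z : E} (hz : z ∈ Dm i) : cX i (pX i.1 z) = z :=
  XP.ch_ph (i := i) hz

theorem lift_ch {i : Fin 5 × ℂ} {z : E} (hz : z ∈ Dm i) {f : ℂ → X} (hf : IsDisc f)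
    (h0 : f 0 = pX i.1 z) : Lift f i.1 (fun ζ => cX i (f ζ)) ∧ cX i (f 0) = z := by
  have h := XP.disc_of (i := i) hz hf h0
  have h2 : cX i (f 0) = z := h.2.1
  refine ⟨⟨?_, h.1, h.2.2⟩, h2⟩
  show cX i (f 0) ∈ V i.1
  rw [h2]
  exact hz.1

theorem exists_lift {f : ℂ → X} (hf : IsDisc f) {j : Fin 5} {z : E} (hz : z ∈ V j)
    (h0 : f 0 = pX j z) : ∃ F, Lift f j F ∧ F 0 = z := by
  obtain ⟨h1, h2⟩ := lift_ch (i := (j, z.1)) (Dm_self hz) hf h0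
  exact ⟨_, h1, h2⟩

theorem Lift.isDisc {f : ℂ → X} {j : Fin 5} {F : ℂ → E} (h : Lift f j F) : IsDisc f := by
  have h1 : ContMDiffAt 𝓘(ℂ, ℂ) 𝓘(ℂ, E) ω (fun ζ => pX j (F ζ)) 0 :=
    XP.disc_mk (i := (j, (F 0).1)) h.cd (Dm_self h.mem)
  exact h1.congr_of_eventuallyEq h.eq

theorem Lift.mf {f : ℂ → X} {j : Fin 5} {F : ℂ → E} (h : Lift f j F)
    (hf : mfderiv 𝓘(ℂ, ℂ) 𝓘(ℂ, E) f 0 ≠ 0) : deriv F 0 ≠ 0 := by
  intro h0
  apply hf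
  have h1 : mfderiv 𝓘(ℂ, ℂ) 𝓘(ℂ, E) f 0 = mfderiv 𝓘(ℂ, ℂ) 𝓘(ℂ, E) (fun ζ => pX j (F ζ)) 0 :=
    Filter.EventuallyEq.mfderiv_eq h.eq
  have h2 : MDifferentiableAt 𝓘(ℂ, E) 𝓘(ℂ, E) (pX j) (F 0) :=
    (XP.ph_cm (i := (j, (F 0).1)) (Dm_self h.mem)).mdifferentiableAt (by simp)
  have h3 : MDifferentiableAt 𝓘(ℂ, ℂ) 𝓘(ℂ, E) F 0 :=
    (contMDiffAt_iff_contDiffAt.2 h.cd).mdifferentiableAt (by simp)
  have h4 : mfderiv 𝓘(ℂ, ℂ) 𝓘(ℂ, E) (fun ζ => pX j (F ζ)) 0 =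
      (mfderiv 𝓘(ℂ, E) 𝓘(ℂ, E) (pX j) (F 0)).comp (mfderiv 𝓘(ℂ, ℂ) 𝓘(ℂ, E) F 0) :=
    mfderiv_comp (0 : ℂ) h2 h3
  have h5 : mfderiv 𝓘(ℂ, ℂ) 𝓘(ℂ, E) F 0 = 0 := by
    rw [mfderiv_eq_fderiv]
    have h6 : fderiv ℂ F 0 = 0 := by
      apply ContinuousLinearMap.ext_ring
      rw [fderiv_apply_one_eq_deriv, h0]
      rfl
    exact h6
  rw [h1, h4, h5]
  exact ContinuousLinearMap.comp_zero _

/-- points of different coordinate systems with the same image, in `W` -/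
theorem W_eq {i j : Fin 5} {z w : E} (hz : z ∈ V i) (hw : w ∈ V j) (h : ph i z = ph j w)
    (hW : tr i z ∈ W) : tr j w ∈ W ∧ (tr i z).1 - (tr j w).1 ∈ Lam ∧ (tr i z).2 = (tr j w).2 := by
  have hr := W_Reg hz hW
  have hr2 := Reg_of_eq hr hw h
  rw [(Reg_ph hr).1, (Reg_ph hr2).1] at h
  obtain ⟨h1, h2⟩ := ph0_eq h
  refine ⟨⟨?_, ?_⟩, h1, h2⟩
  · intro h3
    apply hW.1
    have := Lam_add h1 h3
    rwa [sub_add_cancel] at this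
  · rw [← h2]; exact hW.2

theorem per_eq {i j : Fin 5} {z w : E} (hz : z ∈ V i) (hw : w ∈ V j) (h : ph i z = ph j w)
    (hW : tr i z ∈ W) {u : E → ℝ} (hu : Per u) : u (tr i z) = u (tr j w) := by
  obtain ⟨_, h1, h2⟩ := W_eq hz hw h hW
  have h3 := hu (tr j w).1 (tr j w).2 _ h1
  rw [add_sub_cancel, ← h2] at h3
  have e : tr j w = ((tr j w).1, (tr i z).2) := pairext rfl h2.symm
  rw [e, ← h3]

theorem potAt_ev {Φ : E → ℝ} {j : Fin 5} {z : E} {ρ : E → ℝ} (h : PotAt Φ j z ρ) :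
    ∀ᶠ z' in 𝓝 z, PotAt Φ j z' ρ := by
  filter_upwards [h.1.eventually_nhds, h.2.eventually_nhds] with z' h1 h2
  exact ⟨h1, h2⟩

/-- the Levi forms of two potentials agree -/
theorem pot_agree {Φ : E → ℝ} (hp : Per Φ) (hc : ∀ z ∈ W, ContDiffAt ℝ 2 Φ z) {i j : Fin 5}
    {z w : E} (hz : z ∈ V i) (hw : w ∈ V j) {g : E → E} (hg : ContDiffAt ℂ ω g z) (hgz : g z = w)
    (he : ∀ᶠ z' in 𝓝 z, ph j (g z') = ph i z') {ρ σ : E → ℝ} (hρ : PotAt Φ i z ρ)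
    (hσ : PotAt Φ j w σ) (v : E) : lv ρ z v = lv σ w (fderiv ℂ g z v) := by
  subst hgz
  have c1 : ContDiffAt ℝ 2 ρ z := hρ.1.self_of_nhds.of_le two_le
  have c2 : ContDiffAt ℝ 2 σ (g z) := hσ.1.self_of_nhds.of_le two_le
  have c3 : ContDiffAt ℝ 2 (fun t => σ (g t)) z := c2.comp z ((omega_real hg).of_le two_le)
  rw [← lv_comp hg c2]
  have cont : ∀ {f : E → ℝ}, ContDiffAt ℝ 2 f z → ContinuousAt (fun z' => lv f z' v) z := by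
    intro f hf
    have h1 : ContinuousAt (fun z' : E => (z', v)) z := by fun_prop
    exact ContinuousAt.comp (f := fun z' : E => (z', v)) (g := fun p : E × E => lv f p.1 p.2)
      (lv_cont v hf) h1
  refine eq_of_W i hz (F := fun z' => lv ρ z' v) (G := fun z' => lv (fun t => σ (g t)) z' v)
    (cont c1) (cont c3) ?_
  have hgc : ∀ᶠ z' in 𝓝 z, ContDiffAt ℂ ω g z' := hg.eventually (by simp)
  have hgV : ∀ᶠ z' in 𝓝 z, g z' ∈ V j := hg.continuousAt.eventually ((V_open j).mem_nhds hw)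
  filter_upwards [hρ.1, hρ.2, (V_open i).mem_nhds hz, hgc, hgV, he.eventually_nhds,
    hg.continuousAt.eventually hσ.1, hg.continuousAt.eventually hσ.2,
    hgV.eventually_nhds] with z' a1 a2 a3 a4 a5 a6 a7 a8 a9 hW
  have hWj : tr j (g z') ∈ W := (W_eq a3 a5 a6.self_of_nhds.symm hW).1
  obtain ⟨Φi, hΦi⟩ : ∃ Φi : E → ℝ, Φi = fun t => Φ (tr i t) := ⟨_, rfl⟩
  obtain ⟨Φj, hΦj⟩ : ∃ Φj : E → ℝ, Φj = fun t => Φ (tr j t) := ⟨_, rfl⟩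
  have d1 : ContDiffAt ℝ 2 Φi z' := by
    rw [hΦi]; exact (hc _ hW).comp z' (tr_cdR hW)
  have d2 : ContDiffAt ℝ 2 Φj (g z') := by
    rw [hΦj]; exact (hc _ hWj).comp (g z') (tr_cdR hWj)
  have e1 : lv ρ z' v = lv Φi z' v := by
    have h1 : lv (fun t => ρ t - Φi t) z' v = 0 := by rw [hΦi]; exact a2 hW v
    rw [lv_sub v (a1.of_le two_le) d1] at h1
    linarith
  have e2 : lv σ (g z') (fderiv ℂ g z' v) = lv Φj (g z') (fderiv ℂ g z' v) := by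
    have h1 : lv (fun t => σ t - Φj t) (g z') (fderiv ℂ g z' v) = 0 := by
      rw [hΦj]; exact a8 hWj _
    rw [lv_sub _ (a7.of_le two_le) d2] at h1
    linarith
  have e3 : lv (fun t => σ (g t)) z' v = lv σ (g z') (fderiv ℂ g z' v) :=
    lv_comp a4 (a7.of_le two_le)
  have e4 : lv (fun t => Φj (g t)) z' v = lv Φj (g z') (fderiv ℂ g z' v) := lv_comp a4 d2
  have e5 : lv Φi z' v = lv (fun t => Φj (g t)) z' v := by
    apply lv_congr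
    filter_upwards [a6, tr_W_open hW, a9, (V_open i).mem_nhds a3] with t t1 t2 t3 t4
    rw [hΦi, hΦj]
    exact per_eq t4 t3 t1.symm t2 hp
  show lv ρ z' v = lv (fun t => σ (g t)) z' v
  rw [e3, e1, e2, e5, e4]

/-- the Levi forms of potentials along two lifts of a disc -/
theorem lift_agree {Φ : E → ℝ} (hp : Per Φ) (hc : ∀ z ∈ W, ContDiffAt ℝ 2 Φ z) {i j : Fin 5}
    {f : ℂ → X} {F H : ℂ → E} (hF : Lift f i F) (hH : Lift f j H) {ρ σ : E → ℝ}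
    (hρ : PotAt Φ i (F 0) ρ) (hσ : PotAt Φ j (H 0) σ) :
    lv ρ (F 0) (deriv F 0) = lv σ (H 0) (deriv H 0) := by
  have h0 : ph i (F 0) = ph j (H 0) := hF.eq0.symm.trans hH.eq0
  obtain ⟨g, g1, g2, g3⟩ := compatV hF.mem hH.mem h0
  rw [pot_agree hp hc hF.mem hH.mem g1 g2 g3 hρ hσ]
  congr 1
  have hD := Dm_open (j, (H 0).1)
  have e1 : ∀ᶠ ζ in 𝓝 (0 : ℂ), H ζ ∈ Dm (j, (H 0).1) :=
    hH.cd.continuousAt.eventually (hD.mem_nhds (Dm_self hH.mem))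
  have hgF : ContDiffAt ℂ ω (fun ζ => g (F ζ)) 0 := g1.comp (0 : ℂ) hF.cd
  have e2 : ∀ᶠ ζ in 𝓝 (0 : ℂ), g (F ζ) ∈ Dm (j, (H 0).1) :=
    hgF.continuousAt.eventually (hD.mem_nhds (by
      show g (F 0) ∈ _
      rw [g2]; exact Dm_self hH.mem))
  have e3 : H =ᶠ[𝓝 0] fun ζ => g (F ζ) := by
    filter_upwards [e1, e2, hF.eq, hH.eq, hF.cd.continuousAt.eventually g3] with ζ a1 a2 a3 a4 a5
    refine Dm_inj (j, (H 0).1) a1 a2 ?_
    show ph j (H ζ) = ph j (g (F ζ))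
    rw [a5]
    exact a4.symm.trans a3
  rw [e3.deriv_eq]
  have h1 := (omega_an hF.cd).differentiableAt.hasDerivAt
  have h2 := (omega_an g1).differentiableAt.hasFDerivAt
  exact (h2.comp_hasDerivAt (0 : ℂ) h1).deriv.symm

end Pool.Agent.U84.SP
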