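import Pool.Agent.U84.SP.M

set_option autoImplicit false
set_option linter.unusedSectionVars false

/-!
# Forms on the surface given by potentials, and extensions of functions
-/

open Set Topology Filter
open scoped ContDiff Manifold

namespace Pool.Agent.U84.SP

open Pool.Agent.Y184.SP Pool.Agent.U84.NB

/-- the function `Φ` on `W` defines a form on the surface -/
structure PD (Φ : E → ℝ) : Prop where
  per : Per Φ
  cd : ∀ z ∈ W, ContDiffAt ℝ 2 Φ z
  pot : ∀ j, ∀ z ∈ V j, ∃ ρ, PotAt Φ j z ρ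

noncomputable def jX (p : X) : Fin 5 := (exists_pX p).choose
noncomputable def zX (p : X) : E := (exists_pX p).choose_spec.choose
theorem zX_mem (p : X) : zX p ∈ V (jX p) := (exists_pX p).choose_spec.choose_spec.1
theorem pX_zX (p : X) : pX (jX p) (zX p) = p := (exists_pX p).choose_spec.choose_spec.2
noncomputable def iX (p : X) : Fin 5 × ℂ := (jX p, (zX p).1)
theorem zX_Dm (p : X) : zX p ∈ Dm (iX p) := Dm_self (zX_mem p)

noncomputable def PD.rho {Φ : E → ℝ} (h : PD Φ) (p : X) : E → ℝ :=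
  (h.pot (jX p) (zX p) (zX_mem p)).choose

theorem PD.rho_spec {Φ : E → ℝ} (h : PD Φ) (p : X) : PotAt Φ (jX p) (zX p) (h.rho p) :=
  (h.pot (jX p) (zX p) (zX_mem p)).choose_spec

/-- the form -/
noncomputable def PD.form {Φ : E → ℝ} (h : PD Φ) : Form X where
  pot := fun p q => h.rho p (cX (iX p) q)
  smooth := by
    intro p
    have key : ∀ᶠ q in 𝓝 (pX (jX p) (zX p)), ContMDiffAt 𝓘(ℝ, ℂ × ℂ) 𝓘(ℝ, ℝ) ∞
        (fun q => h.rho p (cX (iX p) q)) q := by
      rw [ev_pX (zX_mem p)]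
      filter_upwards [(h.rho_spec p).1, (Dm_open (iX p)).mem_nhds (zX_Dm p)] with z' h1 h2
      refine (pX_cm_iff (j := jX p) h2.1 _).2 ?_
      refine h1.congr_of_eventuallyEq ?_
      filter_upwards [(Dm_open (iX p)).mem_nhds h2] with t ht
      exact congrArg (h.rho p) (cX_pX (i := iX p) ht)
    rwa [pX_zX] at key
  compat := by
    intro p
    have key : ∀ᶠ q in 𝓝 (pX (jX p) (zX p)), ∀ f : ℂ → X, IsDisc f → f 0 = q →
        Laplacian.laplacian (fun ζ : ℂ => h.rho p (cX (iX p) (f ζ)) -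
          h.rho q (cX (iX q) (f ζ))) 0 = 0 := by
      rw [ev_pX (zX_mem p)]
      filter_upwards [potAt_ev (h.rho_spec p), (Dm_open (iX p)).mem_nhds (zX_Dm p)] with z' h1 h2
      intro f hf h0
      obtain ⟨l1, e1⟩ := lift_ch (i := iX p) h2 hf h0
      obtain ⟨l2, e2⟩ := lift_ch (i := iX (pX (jX p) z')) (zX_Dm _) hf
        (h0.trans (pX_zX (pX (jX p) z')).symm)
      have s1 : PotAt Φ (iX p).1 (cX (iX p) (f 0)) (h.rho p) := by rw [e1]; exact h1
      have s2 : PotAt Φ (iX (pX (jX p) z')).1 (cX (iX (pX (jX p) z')) (f 0))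
          (h.rho (pX (jX p) z')) := by
        rw [e2]; exact h.rho_spec _
      have c1 := s1.1.self_of_nhds.of_le two_le
      have c2 := s2.1.self_of_nhds.of_le two_le
      have d1 : ContDiffAt ℝ 2 (fun ζ : ℂ => h.rho p (cX (iX p) (f ζ))) 0 :=
        ContDiffAt.comp (f := fun ζ : ℂ => cX (iX p) (f ζ)) (0 : ℂ) c1
          ((omega_real l1.cd).of_le two_le)
      have d2 : ContDiffAt ℝ 2 (fun ζ : ℂ => h.rho (pX (jX p) z')
          (cX (iX (pX (jX p) z')) (f ζ))) 0 :=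
        ContDiffAt.comp (f := fun ζ : ℂ => cX (iX (pX (jX p) z')) (f ζ)) (0 : ℂ) c2
          ((omega_real l2.cd).of_le two_le)
      have a1 := lv_disc l1.cd c1
      have a2 := lv_disc l2.cd c2
      have a3 := lift_agree h.per h.cd l1 l2 s1 s2
      have a4 : Laplacian.laplacian (fun ζ : ℂ => h.rho p (cX (iX p) (f ζ)) -
          h.rho (pX (jX p) z') (cX (iX (pX (jX p) z')) (f ζ))) 0 =
          Laplacian.laplacian (fun ζ : ℂ => h.rho p (cX (iX p) (f ζ))) 0 -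
          Laplacian.laplacian (fun ζ : ℂ => h.rho (pX (jX p) z')
            (cX (iX (pX (jX p) z')) (f ζ))) 0 := d1.laplacian_sub d2
      rw [a4, a1, a2, a3, sub_self]
    rwa [pX_zX] at key

theorem PD.val_eq {Φ : E → ℝ} (h : PD Φ) {f : ℂ → X} {j : Fin 5} {F : ℂ → E} (hF : Lift f j F)
    {σ : E → ℝ} (hσ : PotAt Φ j (F 0) σ) : h.form.val f = lv σ (F 0) (deriv F 0) := by
  obtain ⟨l2, e2⟩ := lift_ch (i := iX (f 0)) (zX_Dm _) hF.isDisc (pX_zX (f 0)).symm
  have s2 : PotAt Φ (iX (f 0)).1 (cX (iX (f 0)) (f 0)) (h.rho (f 0)) := by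
    rw [e2]; exact h.rho_spec _
  have a2 := lv_disc l2.cd (s2.1.self_of_nhds.of_le two_le)
  have a3 := lift_agree h.per h.cd hF l2 hσ s2
  rw [a3]
  exact a2

theorem ddc_eq {u : X → ℝ} {f : ℂ → X} {j : Fin 5} {F : ℂ → E} (hF : Lift f j F) {φ : E → ℝ}
    (hφ : ContDiffAt ℝ 2 φ (F 0)) (h : ∀ᶠ z' in 𝓝 (F 0), u (pX j z') = φ z') :
    ddc u f = lv φ (F 0) (deriv F 0) := by
  rw [← lv_disc hF.cd hφ]
  unfold ddc
  have e : (fun ζ : ℂ => u (f ζ)) =ᶠ[𝓝 0] fun ζ => φ (F ζ) := by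
    filter_upwards [hF.eq, hF.cd.continuousAt.eventually h] with ζ h1 h2
    rw [h1, h2]
  exact (InnerProductSpace.laplacian_congr_nhds e).self_of_nhds

theorem extAt_ev {u : E → ℝ} {j : Fin 5} {z : E} (h : ExtAt u j z) :
    ∀ᶠ z' in 𝓝 z, ExtAt u j z' := by
  obtain ⟨f, h1, h2⟩ := h
  filter_upwards [h1.eventually_nhds, h2.eventually_nhds] with z' a1 a2
  exact ⟨f, a1, a2⟩

theorem ext_cd' {u : E → ℝ} {j : Fin 5} {z : E} (hz : z ∈ V j) (h : ExtAt u j z) :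
    ContDiffAt ℝ ∞ (ext j u) z := by
  obtain ⟨f, hf, h⟩ := h
  exact (hf.self_of_nhds).congr_of_eventuallyEq (ext_ev hz hf h)

theorem ext_W' {u : E → ℝ} {j : Fin 5} {z : E} (hz : z ∈ V j) (h : ExtAt u j z)
    (hW : tr j z ∈ W) : ext j u z = u (tr j z) := by
  obtain ⟨f, hf, h1⟩ := h
  rw [(ext_ev hz hf h1).self_of_nhds]
  exact h1.self_of_nhds hW

theorem ext_agree {u : E → ℝ} (hp : Per u) {i j : Fin 5} {z w : E} (hz : z ∈ V i) (hw : w ∈ V j)
    (h : ph i z = ph j w) (h1 : ExtAt u i z) (h2 : ExtAt u j w) : ext i u z = ext j u w := by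
  obtain ⟨g, g1, g2, g3⟩ := compatV hz hw h
  subst g2
  refine eq_of_W i hz (F := ext i u) (G := fun t => ext j u (g t)) (ext_cd' hz h1).continuousAt
    ?_ ?_
  · exact ContinuousAt.comp (f := g) (g := ext j u) (ext_cd' hw h2).continuousAt g1.continuousAt
  · filter_upwards [extAt_ev h1, g1.continuousAt.eventually (extAt_ev h2),
      g1.continuousAt.eventually ((V_open j).mem_nhds hw), (V_open i).mem_nhds hz, g3]
      with t a1 a2 a3 a4 a5 hW
    have hWj := (W_eq a4 a3 a5.symm hW).1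
    rw [ext_W' a4 a1 hW, ext_W' a3 a2 hWj]
    exact per_eq a4 a3 a5.symm hW hp

/-- the extension of a function to the surface -/
noncomputable def uX (u : E → ℝ) (p : X) : ℝ := ext (jX p) u (zX p)

theorem uX_eq {u : E → ℝ} (hp : Per u) {j : Fin 5} {z : E} (hz : z ∈ V j) (h1 : ExtAt u j z)
    (h2 : ExtAt u (jX (pX j z)) (zX (pX j z))) : uX u (pX j z) = ext j u z :=
  ext_agree hp (zX_mem _) hz (pX_zX (pX j z)) h2 h1

theorem lv_pot_W {Φ : E → ℝ} {j : Fin 5} {z : E} {ρ : E → ℝ} (hW : tr j z ∈ W)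
    (hc : ContDiffAt ℝ 2 Φ (tr j z)) (h : PotAt Φ j z ρ) (v : E) :
    lv ρ z v = lv Φ (tr j z) (fderiv ℂ (tr j) z v) := by
  have d1 : ContDiffAt ℝ 2 (fun t => Φ (tr j t)) z := hc.comp z (tr_cdR hW)
  have h1 : lv (fun t => ρ t - Φ (tr j t)) z v = 0 := h.2.self_of_nhds hW v
  rw [lv_sub v (h.1.self_of_nhds.of_le two_le) d1] at h1
  have h2 := lv_tr v hW hc
  linarith

theorem lv_ext_W {u : E → ℝ} {j : Fin 5} {z : E} (hz : z ∈ V j) (hW : tr j z ∈ W)
    (hc : ContDiffAt ℝ 2 u (tr j z)) (h : ExtAt u j z) (v : E) :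
    lv (ext j u) z v = lv u (tr j z) (fderiv ℂ (tr j) z v) := by
  rw [← lv_tr v hW hc]
  apply lv_congr
  filter_upwards [extAt_ev h, (V_open j).mem_nhds hz, tr_W_open hW] with t h1 h2 h3
  exact ext_W' h2 h1 h3

/-- inequalities on `W` hold on the surface -/
theorem ineq {Φ Ψ : E → ℝ} (h1 : PD Ψ) (h2 : PD Φ) {u : E → ℝ} {c : ℝ}
    (hu : ∀ z ∈ W, ContDiffAt ℝ 2 u z)
    (hW : ∀ z ∈ W, ∀ v, c * lev Ψ z v ≤ lev (fun t => Φ t + u t) z v)
    {f : ℂ → X} {j : Fin 5} {F : ℂ → E} (hF : Lift f j F) (hE : ExtAt u j (F 0)) :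
    c * h1.form.val f ≤ h2.form.val f + lv (ext j u) (F 0) (deriv F 0) := by
  obtain ⟨σ, hσ⟩ := h1.pot j (F 0) hF.mem
  obtain ⟨ρ, hρ⟩ := h2.pot j (F 0) hF.mem
  rw [h1.val_eq hF hσ, h2.val_eq hF hρ]
  obtain ⟨v, hv⟩ : ∃ v, v = deriv F 0 := ⟨_, rfl⟩
  rw [← hv]
  have cont : ∀ {g : E → ℝ}, ContDiffAt ℝ 2 g (F 0) → ContinuousAt (fun z' => lv g z' v) (F 0) := by
    intro g hg
    have h1 : ContinuousAt (fun z' : E => (z', v)) (F 0) := by fun_prop
    exact ContinuousAt.comp (f := fun z' : E => (z', v)) (g := fun p : E × E => lv g p.1 p.2)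
      (lv_cont v hg) h1
  have k1 := cont (hσ.1.self_of_nhds.of_le two_le)
  have k2 := cont (hρ.1.self_of_nhds.of_le two_le)
  have k3 := cont ((ext_cd' hF.mem hE).of_le two_le)
  have key := nonneg_of_W j hF.mem (F := fun z' => lv ρ z' v + lv (ext j u) z' v - c * lv σ z' v)
    ((k2.add k3).sub (continuousAt_const.mul k1)) (by
      filter_upwards [potAt_ev hσ, potAt_ev hρ, extAt_ev hE, (V_open j).mem_nhds hF.mem]
        with t a1 a2 a3 a4 hWt
      rw [lv_pot_W hWt (h1.cd _ hWt) a1 v, lv_pot_W hWt (h2.cd _ hWt) a2 v,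
        lv_ext_W a4 hWt (hu _ hWt) a3 v]
      have h3 := hW _ hWt (fderiv ℂ (tr j) t v)
      rw [lev_lv, lv_add _ (h2.cd _ hWt) (hu _ hWt)] at h3
      linarith)
  have key' : 0 ≤ lv ρ (F 0) v + lv (ext j u) (F 0) v - c * lv σ (F 0) v := key
  linarith

end Pool.Agent.U84.SP
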