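import Pool.Agent.U84.SP.Not2

set_option autoImplicit false
set_option linter.unusedSectionVars false

/-!
# There is no semipositive representative
-/

open Set Topology Filter
open scoped ContDiff

namespace Pool.Agent.U84.SP

open Pool.Agent.Y184.SP

variable {u : E → ℝ}

/-- if the Levi form is nonnegative and vanishes in the direction `a`, the mixed terms vanish -/
theorem mixed {V : Type*} [NormedAddCommGroup V] [NormedSpace ℂ V] {F : V → ℝ} {z : V}
    (hF : ContDiffAt ℝ 2 F z) (hpos : ∀ v, 0 ≤ lv F z v) {a : V} (ha : lv F z a = 0) (b : V) :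
    fderiv ℝ (fderiv ℝ F) z a b + fderiv ℝ (fderiv ℝ F) z (Complex.I • a) (Complex.I • b) = 0 := by
  set D := fderiv ℝ (fderiv ℝ F) z with hD
  have hs : ∀ p q : V, D p q = D q p := fun p q => hF.isSymmSndFDerivAt (by simp) p q
  have h1 : ∀ v, 0 ≤ D v v + D (Complex.I • v) (Complex.I • v) := by
    intro v
    have := hpos v
    rwa [lv_eq v hF] at this
  have h2 : D a a + D (Complex.I • a) (Complex.I • a) = 0 := by
    rw [← lv_eq a hF]; exact ha
  by_contra hne
  set m := D a b + D (Complex.I • a) (Complex.I • b) with hm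
  set q := D b b + D (Complex.I • b) (Complex.I • b) with hq
  have h3 : ∀ t : ℝ, 0 ≤ 2 * t * m + q := by
    intro t
    have h4 := h1 (t • a + b)
    have h5 : Complex.I • (t • a + b) = t • (Complex.I • a) + Complex.I • b := by
      rw [smul_add, smul_comm]
    rw [h5] at h4
    simp only [map_add, map_smul, add_apply, smul_apply, smul_eq_mul] at h4
    rw [hs b a, hs (Complex.I • b) (Complex.I • a)] at h4
    have h6 : t * (t * D a a + D a b) + (t * D a b + D b b) +
        (t * (t * D (Complex.I • a) (Complex.I • a) + D (Complex.I • a) (Complex.I • b)) +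
        (t * D (Complex.I • a) (Complex.I • b) + D (Complex.I • b) (Complex.I • b))) =
        t ^ 2 * (D a a + D (Complex.I • a) (Complex.I • a)) + (2 * t * m + q) := by
      rw [hm, hq]; ring
    have h7 : 0 ≤ t ^ 2 * (D a a + D (Complex.I • a) (Complex.I • a)) + (2 * t * m + q) := by
      rw [← h6]
      linarith
    rw [h2, mul_zero, zero_add] at h7
    exact h7
  have h4 := h3 (-(q + 1) / (2 * m))
  have h5 : 2 * (-(q + 1) / (2 * m)) * m + q = -1 := by
    field_simp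
    ring
  rw [h5] at h4
  linarith

/-- the derivative of the potential in the direction of `y`, as a function of `x` -/
noncomputable def gg (u : E → ℝ) (x : ℂ) : ℂ :=
  ((fderiv ℝ (P0 u) (x, 0) (0, 1) : ℝ) : ℂ) / 2 -
    Complex.I * ((fderiv ℝ (P0 u) (x, 0) (0, Complex.I) : ℝ) : ℂ) / 2

theorem gg_diff (hp : Per u) (hu : Ext u)
    (hpos : ∀ z ∈ W, ∀ v, 0 ≤ lev (fun z' => Phi z' + u z') z v) {x : ℂ} (hx : x ∉ Lam) :
    DifferentiableAt ℂ (gg u) x := by
  have hcd : ContDiffAt ℝ 2 (P0 u) (x, 0) := (P0_cd hu hx).of_le two_le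
  have h1 : DifferentiableAt ℝ (fderiv ℝ (P0 u)) (x, 0) := by
    have : ContDiffAt ℝ 1 (fderiv ℝ (P0 u)) (x, 0) := hcd.fderiv_right (by norm_num)
    exact this.differentiableAt (by norm_num)
  set D := fderiv ℝ (fderiv ℝ (P0 u)) (x, 0) with hD
  have h2 : HasFDerivAt (fun y : ℂ => ((y, 0) : E)) ((ContinuousLinearMap.inl ℝ ℂ ℂ)) x :=
    (ContinuousLinearMap.inl ℝ ℂ ℂ).hasFDerivAt
  have h3 : HasFDerivAt (fun y : ℂ => fderiv ℝ (P0 u) (y, 0))
      (D.comp (ContinuousLinearMap.inl ℝ ℂ ℂ)) x :=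
    HasFDerivAt.comp (f := fun y : ℂ => ((y, 0) : E)) x h1.hasFDerivAt h2
  have h4 : ∀ w : E, HasFDerivAt (fun y : ℂ => ((fderiv ℝ (P0 u) (y, 0) w : ℝ) : ℂ))
      (Complex.ofRealCLM.comp ((ContinuousLinearMap.apply ℝ ℝ w).comp
        (D.comp (ContinuousLinearMap.inl ℝ ℂ ℂ)))) x := by
    intro w
    have h5 : HasFDerivAt (fun y : ℂ => fderiv ℝ (P0 u) (y, 0) w)
        ((ContinuousLinearMap.apply ℝ ℝ w).comp (D.comp (ContinuousLinearMap.inl ℝ ℂ ℂ))) x :=
      (ContinuousLinearMap.apply ℝ ℝ w).hasFDerivAt.comp x h3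
    exact Complex.ofRealCLM.hasFDerivAt.comp x h5
  have h6 : HasFDerivAt (gg u)
      ((2⁻¹ : ℂ) • (Complex.ofRealCLM.comp ((ContinuousLinearMap.apply ℝ ℝ ((0, 1) : E)).comp
        (D.comp (ContinuousLinearMap.inl ℝ ℂ ℂ)))) -
      (Complex.I / 2) • (Complex.ofRealCLM.comp ((ContinuousLinearMap.apply ℝ ℝ
        ((0, Complex.I) : E)).comp (D.comp (ContinuousLinearMap.inl ℝ ℂ ℂ))))) x := by
    have h7 := ((h4 (0, 1)).const_smul (2⁻¹ : ℂ)).sub ((h4 (0, Complex.I)).const_smul (Complex.I / 2))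
    refine h7.congr_of_eventuallyEq (Eventually.of_forall fun y => ?_)
    simp only [gg, Pi.sub_apply, Pi.smul_apply, smul_eq_mul]
    ring
  rw [differentiableAt_complex_iff_differentiableAt_real]
  refine ⟨h6.differentiableAt, ?_⟩
  rw [h6.fderiv]
  obtain ⟨c, hc⟩ := P0_const hp hu hpos
  have hl0 : lv (P0 u) (x, 0) (1, 0) = 0 := by
    rw [← lap2]
    have e : (fun t : ℂ => P0 u (t, 0)) =ᶠ[𝓝 x] fun _ => c := by
      filter_upwards [Lam_closed.isOpen_compl.mem_nhds hx] with y hy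
      exact hc y hy
    rw [(InnerProductSpace.laplacian_congr_nhds e).self_of_nhds, lap_def]
    simp [iteratedFDeriv_const_of_ne (𝕜 := ℝ) (n := 2) (by norm_num) c]
  have hp0 : ∀ v, 0 ≤ lv (P0 u) (x, 0) v := fun v =>
    pot_nonneg hu hpos (j := 0) (Or.inl hx) (pot0_ne hx) v
  have m1 := mixed hcd hp0 hl0 (0, 1)
  have m2 := mixed hcd hp0 hl0 (0, Complex.I)
  rw [← hD] at m1 m2
  have e1 : Complex.I • ((1, 0) : E) = (Complex.I, 0) := by simp
  have e2 : Complex.I • ((0, 1) : E) = (0, Complex.I) := by simp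
  have e3 : Complex.I • ((0, Complex.I) : E) = -(0, 1) := by simp
  rw [e1, e2] at m1
  rw [e1, e3, map_neg] at m2
  have k1 : D (Complex.I, 0) (0, Complex.I) = -D (1, 0) (0, 1) := by linarith
  have k2 : D (Complex.I, 0) (0, 1) = D (1, 0) (0, Complex.I) := by linarith
  simp only [sub_apply, smul_apply, ContinuousLinearMap.comp_apply, ContinuousLinearMap.inl_apply,
    ContinuousLinearMap.apply_apply, Complex.ofRealCLM_apply, smul_eq_mul, k1, k2]
  push_cast
  ring_nf
  rw [Complex.I_sq]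
  ring

theorem gg_per (hp : Per u) (hu : Ext u) {x : ℂ} (hx : x ∉ Lam) {l : ℂ} (hl : l ∈ Lam) :
    gg u (x + l) = gg u x := by
  have h1 : (fun z : E => P0 u (z + (l, 0))) =ᶠ[𝓝 (x, 0)] P0 u := by
    have hO : IsOpen {t : E | t.1 ∉ Lam} := Lam_closed.isOpen_compl.preimage continuous_fst
    filter_upwards [hO.mem_nhds (show ((x, 0) : E).1 ∉ Lam from hx)] with z hz
    have e : z + (l, 0) = (z.1 + l, z.2) := by
      ext <;> simp
    rw [e]
    exact P0_per hp hu hz hl
  have h2 : fderiv ℝ (P0 u) ((x, 0) + (l, 0)) = fderiv ℝ (P0 u) (x, 0) := by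
    rw [← h1.fderiv_eq, fderiv_comp_add_right]
  have e : ((x, 0) : E) + (l, 0) = (x + l, 0) := by simp
  rw [e] at h2
  unfold gg
  rw [h2]

/-- the derivative of the potential near the exceptional curve -/
theorem gg_near (hu : Ext u) {x : ℂ} (h0 : x ≠ 0) (hx : ‖x‖ < 1 / 8) (b : ℂ) (hb : ‖b‖ = 1) :
    fderiv ℝ (P0 u) (x, 0) (0, b) = fderiv ℝ (P2 u) (-1, -x) (-(b / x), b) -
      2 * ((starRingEnd ℂ x) * b).re / ‖x‖ ^ 2 := by
  have hL : x ∉ Lam := notMem_Lam (by linarith) h0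
  have hV : ((-1, -x) : E) ∈ V 2 := by
    constructor
    · show ‖(-1 : ℂ) * (-x)‖ < 1 / 8
      simpa using hx
    · show ‖-x‖ < 1 / 8
      rw [norm_neg]; exact hx
  have hb0 : b ≠ 0 := by
    rintro rfl
    simp at hb
  -- the line
  have l0 : HasDerivAt (fun s : ℝ => s • b) b 0 := by
    simpa using (hasDerivAt_id (0 : ℝ)).smul_const b
  have l1 : HasDerivAt (fun s : ℝ => ((x, s • b) : E)) (0, b) 0 :=
    (hasDerivAt_const _ _).prodMk l0
  have a1 : HasDerivAt (fun s : ℝ => P0 u (x, s • b)) (fderiv ℝ (P0 u) (x, 0) (0, b)) 0 := by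
    have h1 : HasFDerivAt (P0 u) (fderiv ℝ (P0 u) (x, 0)) ((x, (0 : ℝ) • b) : E) := by
      rw [zero_smul]
      exact ((P0_cd hu hL).differentiableAt (by norm_num)).hasFDerivAt
    exact HasFDerivAt.comp_hasDerivAt (f := fun s : ℝ => ((x, s • b) : E)) (0 : ℝ) h1 l1
  have l2 : HasDerivAt (fun s : ℝ => s • b - x) b 0 := l0.sub_const x
  have l3 : HasDerivAt (fun s : ℝ => x / (s • b - x)) (-(b / x)) 0 := by
    have h1 := HasDerivAt.div (hasDerivAt_const (0 : ℝ) x) l2 (by simpa using h0)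
    have e : (0 * ((0 : ℝ) • b - x) - x * b) / ((0 : ℝ) • b - x) ^ 2 = -(b / x) := by
      rw [zero_smul, zero_sub]
      field_simp
      ring
    rw [e] at h1
    exact h1
  have l4 : HasDerivAt (fun s : ℝ => ((x / (s • b - x), s • b - x) : E)) (-(b / x), b) 0 :=
    l3.prodMk l2
  have a2 : HasDerivAt (fun s : ℝ => P2 u (x / (s • b - x), s • b - x))
      (fderiv ℝ (P2 u) (-1, -x) (-(b / x), b)) 0 := by
    have h1 : HasFDerivAt (P2 u) (fderiv ℝ (P2 u) (-1, -x))
        ((x / ((0 : ℝ) • b - x), (0 : ℝ) • b - x) : E) := by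
      have e : x / ((0 : ℝ) • b - x) = -1 := by
        rw [zero_smul, zero_sub, div_neg, div_self h0]
      rw [e, zero_smul, zero_sub]
      exact ((P2_cd hu hV).differentiableAt (by norm_num)).hasFDerivAt
    exact HasFDerivAt.comp_hasDerivAt (f := fun s : ℝ => ((x / (s • b - x), s • b - x) : E))
      (0 : ℝ) h1 l4
  set B : ℝ := ((starRingEnd ℂ (-x)) * (b * 1)).re with hB
  have a3 : HasDerivAt (fun s : ℝ => Real.log (‖-x + (s • b) * 1‖ ^ 2)) (2 * B / ‖x‖ ^ 2) 0 := by
    have h1 := (quad_deriv (‖-x‖ ^ 2) B (‖b‖ ^ 2 * ‖(1 : ℂ)‖ ^ 2) 0).log (by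
      have := sq_pos h0
      simpa using this.ne')
    have e : (2 * B + 2 * 0 * (‖b‖ ^ 2 * ‖(1 : ℂ)‖ ^ 2)) /
        (‖-x‖ ^ 2 + 2 * 0 * B + 0 ^ 2 * (‖b‖ ^ 2 * ‖(1 : ℂ)‖ ^ 2)) = 2 * B / ‖x‖ ^ 2 := by
      rw [norm_neg]; ring
    rw [e] at h1
    refine h1.congr_of_eventuallyEq (Eventually.of_forall fun s => ?_)
    simp only []
    rw [line_sq]
  have a4 : HasDerivAt (fun s : ℝ => P2 u (x / (s • b - x), s • b - x) -
      (Real.log (‖x‖ ^ 2) - Real.log (‖-x + (s • b) * 1‖ ^ 2)))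
      (fderiv ℝ (P2 u) (-1, -x) (-(b / x), b) - (0 - 2 * B / ‖x‖ ^ 2)) 0 :=
    a2.sub ((hasDerivAt_const _ _).sub a3)
  have hev : (fun s : ℝ => P0 u (x, s • b)) =ᶠ[𝓝 0]
      (fun s : ℝ => P2 u (x / (s • b - x), s • b - x) -
        (Real.log (‖x‖ ^ 2) - Real.log (‖-x + (s • b) * 1‖ ^ 2))) := by
    have c1 : ContinuousAt (fun s : ℝ => s • b - x) 0 := l2.continuousAt
    have n1 : ∀ᶠ s : ℝ in 𝓝 0, s • b - x ≠ 0 := c1.eventually_ne (by simpa using h0)
    have n2 : ∀ᶠ s : ℝ in 𝓝 0, ‖s • b - x‖ < 1 / 8 := by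
      apply c1.norm.eventually_lt continuousAt_const
      simpa using hx
    filter_upwards [n1, n2] with s s1 s2
    have h1 := P02 hu (z := (x, s • b)) h0 s1 hx s2
    simp only [] at h1
    rw [h1, norm_div, div_pow, Real.log_div (sq_pos h0).ne' (sq_pos s1).ne']
    have e : -x + (s • b) * 1 = s • b - x := by ring
    rw [e]
  have h9 := (a1.congr_of_eventuallyEq hev.symm).unique a4
  rw [h9, hB]
  simp only [map_neg, mul_one, neg_mul, Complex.neg_re]
  ring

theorem t_Not (hR : StRes) : StNot := by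
  classical
  intro u hp hu hpos
  refine hR (fun x => if x ∈ Lam then 0 else gg u x) ?_ ?_ ?_
  · intro x hx
    refine (gg_diff hp hu hpos hx).congr_of_eventuallyEq ?_
    filter_upwards [Lam_closed.isOpen_compl.mem_nhds hx] with y hy
    exact if_neg hy
  · intro x l hl
    by_cases hx : x ∈ Lam
    · simp [hx, Lam_add hx hl]
    · have h1 : x + l ∉ Lam := fun h => hx (by
        have := Lam_sub h hl
        rwa [add_sub_cancel_right] at this)
      simp only [hx, h1, if_false]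
      exact gg_per hp hu hx hl
  · -- the residue
    set D : E → E →L[ℝ] ℝ := fderiv ℝ (P2 u) with hD
    have hDc : ContinuousAt (fun x : ℂ => D (-1, -x)) 0 := by
      have h1 : ContinuousAt D (-1, -(0 : ℂ)) := by
        rw [neg_zero]
        have : ContDiffAt ℝ 0 (fderiv ℝ (P2 u)) ((-1, 0) : E) :=
          ((P2_cd hu (V2_line (-1))).of_le two_le).fderiv_right (by norm_num)
        exact this.continuousAt
      exact ContinuousAt.comp (f := fun x : ℂ => ((-1, -x) : E)) (g := D) h1 (by fun_prop)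
    have hD0 : (D (-1, 0)).comp (ContinuousLinearMap.inl ℝ ℂ ℂ) = 0 := by
      have h1 : HasFDerivAt (fun y : ℂ => ((y, 0) : E)) ((ContinuousLinearMap.inl ℝ ℂ ℂ)) (-1) :=
        (ContinuousLinearMap.inl ℝ ℂ ℂ).hasFDerivAt
      have h2 : HasFDerivAt (P2 u) (D (-1, 0)) ((-1, 0) : E) :=
        ((P2_cd hu (V2_line (-1))).differentiableAt (by norm_num)).hasFDerivAt
      have h3 : HasFDerivAt (fun y : ℂ => P2 u (y, 0))
          ((D (-1, 0)).comp (ContinuousLinearMap.inl ℝ ℂ ℂ)) (-1) :=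
        HasFDerivAt.comp (f := fun y : ℂ => ((y, 0) : E)) (-1 : ℂ) h2 h1
      have h4 : (fun y : ℂ => P2 u (y, 0)) = fun _ => P2 u (0, 0) :=
        funext fun y => P2_const hu hpos y
      rw [h4] at h3
      exact h3.unique (hasFDerivAt_const _ _)
    have hN : Tendsto (fun x : ℂ => ‖(D (-1, -x)).comp (ContinuousLinearMap.inl ℝ ℂ ℂ)‖ +
        ‖x‖ * ‖D (-1, -x)‖) (𝓝 0) (𝓝 0) := by
      have h1 : ContinuousAt (fun x : ℂ => (D (-1, -x)).comp (ContinuousLinearMap.inl ℝ ℂ ℂ)) 0 :=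
        hDc.clm_comp continuousAt_const
      have h2 : ContinuousAt (fun x : ℂ => ‖(D (-1, -x)).comp (ContinuousLinearMap.inl ℝ ℂ ℂ)‖ +
        ‖x‖ * ‖D (-1, -x)‖) 0 := h1.norm.add (continuous_norm.continuousAt.mul hDc.norm)
      have h3 := h2.tendsto
      simp only [neg_zero, hD0, norm_zero, zero_mul, add_zero] at h3
      exact h3
    rw [tendsto_iff_norm_sub_tendsto_zero]
    have hsm : ∀ᶠ x : ℂ in 𝓝[≠] 0, ‖x‖ < 1 / 8 := by
      apply nhdsWithin_le_nhds
      have hc : ContinuousAt (fun y : ℂ => ‖y‖) 0 := by fun_prop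
      apply hc.eventually_lt continuousAt_const
      simp
    refine squeeze_zero' (Eventually.of_forall fun _ => norm_nonneg _) ?_
      (hN.mono_left nhdsWithin_le_nhds)
    filter_upwards [hsm, self_mem_nhdsWithin] with x hx hx0
    have hx0' : x ≠ 0 := hx0
    have hL : x ∉ Lam := notMem_Lam (by linarith) hx0'
    have hxp : 0 < ‖x‖ := norm_pos_iff.2 hx0'
    simp only [hL, if_false]
    have g1 := gg_near hu hx0' hx 1 (by simp)
    have g2 := gg_near hu hx0' hx Complex.I (by simp)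
    rw [← hD] at g1 g2
    have split : ∀ b : ℂ, D (-1, -x) (-(b / x), b) = D (-1, -x) (-(b / x), 0) +
        D (-1, -x) (0, b) := by
      intro b
      rw [← map_add]
      simp
    have bd1 : ∀ b : ℂ, ‖b‖ = 1 → ‖x‖ * |D (-1, -x) (-(b / x), b)| ≤
        ‖(D (-1, -x)).comp (ContinuousLinearMap.inl ℝ ℂ ℂ)‖ + ‖x‖ * ‖D (-1, -x)‖ := by
      intro b hb
      rw [split]
      have i1 : |D (-1, -x) (-(b / x), 0)| ≤
          ‖(D (-1, -x)).comp (ContinuousLinearMap.inl ℝ ℂ ℂ)‖ * ‖x‖⁻¹ := by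
        have := ((D (-1, -x)).comp (ContinuousLinearMap.inl ℝ ℂ ℂ)).le_opNorm (-(b / x))
        rw [norm_neg, norm_div, hb, one_div] at this
        exact this
      have i2 : |D (-1, -x) (0, b)| ≤ ‖D (-1, -x)‖ := by
        have := (D (-1, -x)).le_opNorm (0, b)
        have e : ‖((0, b) : E)‖ = 1 := by
          rw [Prod.norm_mk, norm_zero, hb]; simp
        rw [e, mul_one] at this
        exact this
      have i3 := abs_add_le (D (-1, -x) (-(b / x), 0)) (D (-1, -x) (0, b))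
      have i4 := mul_le_mul_of_nonneg_left (i3.trans (add_le_add i1 i2)) hxp.le
      refine i4.trans (le_of_eq ?_)
      field_simp
    have key : x * gg u x - -1 = x * ((D (-1, -x) (-(1 / x), 1) : ℝ) : ℂ) / 2 -
        Complex.I * (x * ((D (-1, -x) (-(Complex.I / x), Complex.I) : ℝ) : ℂ)) / 2 := by
      unfold gg
      rw [g1, g2]
      have e1 : ((starRingEnd ℂ x) * 1).re = x.re := by simp
      have e2 : ((starRingEnd ℂ x) * Complex.I).re = x.im := by simp
      rw [e1, e2]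
      push_cast
      have hn : ((‖x‖ : ℝ) : ℂ) ^ 2 = x * (starRingEnd ℂ x) := by
        rw [Complex.mul_conj, Complex.normSq_eq_norm_sq]
        push_cast
        ring
      have hc : (starRingEnd ℂ x) = (x.re : ℂ) - x.im * Complex.I := by
        apply Complex.ext <;> simp
      have hcn : (starRingEnd ℂ x) ≠ 0 := by simpa using hx0'
      rw [hn]
      have h5 : x * ((2 * (x.re : ℂ)) / (x * (starRingEnd ℂ x))) / 2 -
          Complex.I * (x * ((2 * (x.im : ℂ)) / (x * (starRingEnd ℂ x)))) / 2 = 1 := by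
        field_simp
        rw [hc]
        ring
      linear_combination -h5
    rw [key]
    have n1 := bd1 1 (by simp)
    have n2 := bd1 Complex.I (by simp)
    calc ‖x * ((D (-1, -x) (-(1 / x), 1) : ℝ) : ℂ) / 2 -
        Complex.I * (x * ((D (-1, -x) (-(Complex.I / x), Complex.I) : ℝ) : ℂ)) / 2‖
        ≤ ‖x * ((D (-1, -x) (-(1 / x), 1) : ℝ) : ℂ) / 2‖ +
        ‖Complex.I * (x * ((D (-1, -x) (-(Complex.I / x), Complex.I) : ℝ) : ℂ)) / 2‖ :=
          norm_sub_le _ _
      _ = ‖x‖ * |D (-1, -x) (-(1 / x), 1)| / 2 +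
        ‖x‖ * |D (-1, -x) (-(Complex.I / x), Complex.I)| / 2 := by
          simp only [norm_div, norm_mul, Complex.norm_real, Real.norm_eq_abs, Complex.norm_I,
            one_mul, Complex.norm_ofNat]
      _ ≤ _ := by linarith

end Pool.Agent.U84.SP
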