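import Pool.Agent.U84.SP.M2
import Pool.Agent.U84.SP.Not3
import Pool.Agent.U186.SP.Psi2
import Pool.Agent.U186.SP.G
import Pool.Agent.U186.SP.Res
import Pool.Agent.U438.SP.Big
import Pool.Agent.U438.SP.Comp
import Pool.Agent.U474.SP.Near
import Pool.Agent.U674.SP.Nef
import Pool.Agent.Y625.SP.Max

set_option autoImplicit false
set_option linter.unusedSectionVars false

/-!
# The class on the surface
-/

open Set Topology Filter
open scoped ContDiff Manifold

namespace Pool.Agent.U84.SP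

open Pool.Agent.Y184.SP Pool.Agent.U84.NB

theorem PD_Phi : PD Phi := ⟨Phi_per, fun _ hz => (Phi_cd hz.1).of_le two_le, t_Phi.2⟩

theorem Psi_per {G h : ℂ → ℝ} {c : ℝ} (hG : IsGreen G h c) (K : ℝ) : Per (Psi G K) := by
  intro x y l hl
  unfold Psi L1 L2
  simp only [red_add x hl, chi_per x hl, hG.per x l hl]

theorem Psi_cd {G h : ℂ → ℝ} {c : ℝ} (hG : IsGreen G h c) (K : ℝ) {z : E} (hz : z ∈ W) :
    ContDiffAt ℝ ∞ (Psi G K) z := by
  have h1 : ContDiffAt ℝ ∞ (fun t : E => G t.1) z := (hG.smooth _ hz.1).comp z contDiffAt_fst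
  unfold Psi
  refine ((contDiffAt_const.mul h1).neg.add (contDiffAt_const.mul (cd_log_1 contDiffAt_snd))).add
    (chi_mul_cd le_rfl fun h2 => ?_)
  have hr := red_cdR (n := ∞) (z := z) (by linarith)
  have hr0 := sq_pos (red_ne hz.1)
  refine ContDiffAt.add ?_ (L2_cd (by linarith) (Or.inl hz.2))
  unfold L1
  refine ContDiffAt.log (ContDiffAt.div ?_ ?_ (by positivity)) (by positivity)
  · exact (hr.norm_sq ℝ).add ((contDiffAt_snd.sub hr).norm_sq ℝ)
  · exact contDiffAt_const.add (contDiffAt_snd.norm_sq ℝ)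

/-- the class is nef -/
theorem X_nef {G h : ℂ → ℝ} {c : ℝ} (hG : IsGreen G h c) {K c0 : ℝ} (hc0 : 0 < c0)
    (hPsi : PD (Psi G K)) (hlow : ∀ z ∈ W, ∀ v, c0 * nm z v ≤ lev (Psi G K) z v) (hN : StNef) :
    Form.IsNef PD_Phi.form hPsi.form := by
  intro ε hε
  obtain ⟨U, U1, U2, U3⟩ := hN G h c hG (ε * c0) (mul_pos hε hc0)
  have hper : Per (fun z => U z - Phi z) := fun x y l hl => by
    show U (x + l, y) - Phi (x + l, y) = U (x, y) - Phi (x, y)
    rw [U1 x y l hl, Phi_per x y l hl]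
  have hu : ∀ j z, z ∈ V j → uX (fun z => U z - Phi z) (pX j z) = ext j (fun z => U z - Phi z) z :=
    fun j z hz => uX_eq hper hz (U2 j z hz) (U2 _ _ (zX_mem _))
  refine ⟨uX (fun z => U z - Phi z), ?_, ?_⟩
  · intro p
    obtain ⟨j, z, hz, rfl⟩ := exists_pX p
    refine (pX_cm_iff hz _).2 ?_
    refine (ext_cd' hz (U2 j z hz)).congr_of_eventuallyEq ?_
    filter_upwards [(V_open j).mem_nhds hz] with t ht
    exact hu j t ht
  · intro f hf
    obtain ⟨F, hF, h0⟩ := exists_lift hf (zX_mem (f 0)) (pX_zX (f 0)).symm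
    have e := ddc_eq hF (φ := ext (jX (f 0)) (fun z => U z - Phi z))
      ((ext_cd' hF.mem (U2 _ _ hF.mem)).of_le two_le) (by
        filter_upwards [(V_open _).mem_nhds hF.mem] with t ht
        exact hu _ t ht)
    rw [e]
    have key := ineq (c := -ε) hPsi PD_Phi (u := fun z => U z - Phi z) (fun z hz => by
        exact (u_cd U2 hz).of_le two_le) (fun z hz v => by
        have h1 := hlow z hz v
        have h2 := U3 z hz v
        have h3 := mul_le_mul_of_nonneg_left h1 hε.le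
        have h4 : (fun t => Phi t + (U t - Phi t)) = U := by
          funext t; ring
        rw [h4]
        linarith) hF (U2 _ _ hF.mem)
    linarith

/-- the exceptional set: the curve `y = 0` and the exceptional curves -/
def AXp : Pt → Prop
  | Pt.fin _ y => y = 0
  | Pt.inf _ => False
  | Pt.e1 _ => True
  | Pt.e2 _ => True

/-- the exceptional set -/
def AX : Set X := {p | AXp p}

theorem AXp_iff {j : Fin 5} {z : E} (hz : z ∈ V j) : AXp (ph j z) ↔ onA j z := by
  unfold onA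
  by_cases hr : z ∈ Reg j
  · rw [(Reg_ph hr).1, ph0]
    constructor
    · intro h
      have h' : (tr j z).2 = 0 := h
      refine ⟨?_, h'⟩
      rintro rfl
      have h2 : z.2⁻¹ = 0 := h'
      exact hr (inv_eq_zero.1 h2)
    · exact fun h => h.2
  · fin_cases j
    · exact absurd hz hr
    · show AXp (ph 1 z) ↔ ((1 : Fin 5) ≠ 1 ∧ (tr 1 z).2 = 0)
      rw [ph1_0 (non1 hr)]
      exact ⟨fun h => False.elim h, fun h => h.1 rfl⟩
    · have h0 := non2 hz hr
      show AXp (ph 2 z) ↔ ((2 : Fin 5) ≠ 1 ∧ (tr 2 z).2 = 0)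
      rw [ph2_0 h0]
      refine ⟨fun _ => ⟨by decide, ?_⟩, fun _ => trivial⟩
      show z.2 + z.1 * z.2 = 0
      rw [h0]; ring
    · have h0 : (tr 3 z).2 = 0 := by
        show z.1 * z.2 ^ 2 + z.1 * z.2 = 0
        rcases non3 hz hr with h | h <;> rw [h] <;> ring
      show AXp (ph 3 z) ↔ ((3 : Fin 5) ≠ 1 ∧ (tr 3 z).2 = 0)
      have h2 : AXp (ph 3 z) := by
        by_cases a1 : z.1 = 0 <;> by_cases a2 : z.2 = 0
        · rw [ph3_00 a1 a2]; exact rfl
        · rw [ph3_01 a1 a2]; trivial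
        · rw [ph3_10 a1 a2]; trivial
        · exact absurd ⟨hz, a1, a2⟩ hr
      exact ⟨fun _ => ⟨by decide, h0⟩, fun _ => h2⟩
    · have h0 := non4 hz hr
      show AXp (ph 4 z) ↔ ((4 : Fin 5) ≠ 1 ∧ (tr 4 z).2 = 0)
      rw [ph4_0 h0]
      refine ⟨fun _ => ⟨by decide, ?_⟩, fun _ => trivial⟩
      show z.1 ^ 2 * z.2 + z.1 = 0
      rw [h0]; ring

theorem AX_iff {j : Fin 5} {z : E} (hz : z ∈ V j) : pX j z ∈ AX ↔ onA j z := AXp_iff hz

theorem AX_W {z : E} (hz : z ∈ W) : pX 0 z ∉ AX := by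
  rw [AX_iff (j := 0) (Or.inl hz.1)]
  exact fun h => hz.2 h.2

theorem AX_closed : IsClosed AX := by
  rw [← isOpen_compl_iff, isOpen_iff_mem_nhds]
  intro p hp
  obtain ⟨j, z, hz, rfl⟩ := exists_pX p
  show ∀ᶠ q in 𝓝 (pX j z), q ∈ AXᶜ
  rw [ev_pX hz]
  have h1 : ¬ onA j z := fun h => hp ((AX_iff hz).2 h)
  by_cases hj : j = 1
  · filter_upwards [(V_open j).mem_nhds hz] with t ht
    rw [mem_compl_iff, AX_iff ht]
    exact fun h => h.1 hj
  · have h2 : (tr j z).2 ≠ 0 := fun h => h1 ⟨hj, h⟩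
    have h3 : ContinuousAt (fun t => (tr j t).2) z :=
      ((tr_cont hj).snd).continuousAt
    filter_upwards [(V_open j).mem_nhds hz, h3.eventually_ne h2] with t ht ht2
    rw [mem_compl_iff, AX_iff ht]
    exact fun h => ht2 h.2

theorem AX_dense : Dense AXᶜ := by
  intro p
  refine closure_mono ?_ (pX_dense p)
  rintro _ ⟨z, hz, rfl⟩
  exact AX_W hz

/-- the class is big -/
theorem X_big {G h : ℂ → ℝ} {c : ℝ} (hG : IsGreen G h c) {K : ℝ} (hK : 0 < K)
    (hPsi : PD (Psi G K)) (hB : StBig) : Form.IsBig PD_Phi.form hPsi.form := by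
  obtain ⟨δ, U, hδ, U1, U2, U3, U4⟩ := hB G h c hG K hK
  have hper : Per (fun z => U z - Phi z) := fun x y l hl => by
    show U (x + l, y) - Phi (x + l, y) = U (x, y) - Phi (x, y)
    rw [U1 x y l hl, Phi_per x y l hl]
  have hu : ∀ j z, z ∈ V j → pX j z ∉ AX →
      uX (fun z => U z - Phi z) (pX j z) = ext j (fun z => U z - Phi z) z := by
    intro j z hz hA
    refine uX_eq hper hz (U3 j z hz fun h => hA ((AX_iff hz).2 h)) (U3 _ _ (zX_mem _) fun h => ?_)
    apply hA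
    have := (AX_iff (zX_mem (pX j z))).2 h
    rwa [pX_zX] at this
  have hop : ∀ {j z}, z ∈ V j → pX j z ∉ AX → ∀ᶠ t in 𝓝 z, t ∈ V j ∧ pX j t ∉ AX := by
    intro j z hz hA
    have h1 : ∀ᶠ q in 𝓝 (pX j z), q ∉ AX := AX_closed.isOpen_compl.mem_nhds hA
    rw [ev_pX hz] at h1
    have h2 : ∀ᶠ t in 𝓝 z, t ∈ V j := (V_open j).mem_nhds hz
    exact h2.and h1
  refine ⟨AX, δ, uX (fun z => U z - Phi z), AX_closed, AX_dense, hδ, ?_, ?_, ?_⟩
  · intro p hp
    obtain ⟨j, z, hz, rfl⟩ := exists_pX p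
    refine (pX_cm_iff hz _).2 ?_
    refine (ext_cd' hz (U3 j z hz fun h => hp ((AX_iff hz).2 h))).congr_of_eventuallyEq ?_
    filter_upwards [hop hz hp] with t ht
    exact hu j t ht.1 ht.2
  · intro p hp
    obtain ⟨j, z, hz, rfl⟩ := exists_pX p
    have h1 := U4 j z hz ((AX_iff hz).1 hp)
    rw [tendsto_atBot]
    intro b
    have h2 : ∀ᶠ t in 𝓝 z, tr j t ∈ W → U (tr j t) - Phi (tr j t) ≤ b :=
      eventually_nhdsWithin_iff.1 (h1.eventually (eventually_le_atBot b))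
    rw [eventually_nhdsWithin_iff, ev_pX hz]
    filter_upwards [h2.eventually_nhds, (V_open j).mem_nhds hz] with t t1 t2 t3
    have t3' : pX j t ∉ AX := t3
    rw [hu j t t2 t3']
    have hE := U3 j t t2 fun h => t3' ((AX_iff t2).2 h)
    have h4 := nonneg_of_W j t2 (F := fun s => b - ext j (fun z => U z - Phi z) s)
      (continuousAt_const.sub (ext_cd' t2 hE).continuousAt) (by
        filter_upwards [t1, extAt_ev hE, (V_open j).mem_nhds t2] with s s1 s2 s3 hW
        rw [ext_W' s3 s2 hW]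
        have := s1 hW
        linarith)
    have h4' : 0 ≤ b - ext j (fun z => U z - Phi z) t := h4
    linarith
  · intro f hf hA
    obtain ⟨F, hF, h0⟩ := exists_lift hf (zX_mem (f 0)) (pX_zX (f 0)).symm
    have hA' : pX (jX (f 0)) (F 0) ∉ AX := by
      rw [← hF.eq0]; exact hA
    have hE := U3 _ _ hF.mem fun h => hA' ((AX_iff hF.mem).2 h)
    have e := ddc_eq hF (φ := ext (jX (f 0)) (fun z => U z - Phi z))
      ((ext_cd' hF.mem hE).of_le two_le) (by
        filter_upwards [hop hF.mem hA'] with t ht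
        exact hu _ t ht.1 ht.2)
    rw [e]
    refine ineq (c := δ) hPsi PD_Phi (u := fun z => U z - Phi z) (fun z hz => ?_)
      (fun z hz v => ?_) hF hE
    · obtain ⟨f, f1, f2⟩ := U3 0 z (Or.inl hz.1) fun h => hz.2 h.2
      refine (f1.self_of_nhds.of_le two_le).congr_of_eventuallyEq ?_
      filter_upwards [f2, W_open.mem_nhds hz] with t t1 t2
      exact (t1 t2).symm
    · have h4 : (fun t => Phi t + (U t - Phi t)) = U := by
        funext t; ring
      rw [h4]
      exact U2 z hz v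

/-- the class has no semipositive representative -/
theorem X_not (hN : StNot) : ¬ PD_Phi.form.HasSemipositive := by
  rintro ⟨u, hu, hpos⟩
  refine hN (fun z => u (pX 0 z)) ?_ ?_ ?_
  · intro x y l hl
    have : pX 0 (x + l, y) = pX 0 (x, y) := by
      show (Pt.fin ((x + l : ℂ) : ℂ ⧸ LamG) y : Pt) = Pt.fin (x : ℂ ⧸ LamG) y
      rw [mk_eq.2 (show x + l - x ∈ Lam by rw [add_sub_cancel_left]; exact hl)]
    show u (pX 0 (x + l, y)) = u (pX 0 (x, y))
    rw [this]
  · intro j z hz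
    refine ⟨fun t => u (pX j t), ?_, ?_⟩
    · filter_upwards [(V_open j).mem_nhds hz] with t ht
      exact (pX_cm_iff ht _).1 (hu (pX j t))
    · filter_upwards [(V_open j).mem_nhds hz] with t ht hW
      rw [pX_W ht hW]
  · intro z hz v
    have hz0 : z ∈ V 0 := Or.inl hz.1
    have hF : Lift (fun ζ : ℂ => pX 0 (z + ζ • v)) 0 (fun ζ : ℂ => z + ζ • v) := by
      refine ⟨?_, contDiffAt_const.add (contDiffAt_id.smul contDiffAt_const),
        Eventually.of_forall fun _ => rfl⟩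
      show z + (0 : ℂ) • v ∈ V 0
      rw [zero_smul, add_zero]; exact hz0
    have e0 : z + (0 : ℂ) • v = z := by rw [zero_smul, add_zero]
    have hd : deriv (fun ζ : ℂ => z + ζ • v) 0 = v := by rw [line_deriv]
    have h1 := hpos _ hF.isDisc
    have h2 := PD_Phi.val_eq hF (σ := Phi) (by
      show PotAt Phi 0 (z + (0 : ℂ) • v) Phi
      rw [e0]; exact pot0_ne hz.1)
    have hcu : ContDiffAt ℝ 2 (fun t => u (pX 0 t)) z :=
      ((pX_cm_iff hz0 _).1 (hu (pX 0 z))).of_le two_le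
    have h3 := ddc_eq (u := u) hF (φ := fun t => u (pX 0 t)) (by
      show ContDiffAt ℝ 2 (fun t => u (pX 0 t)) (z + (0 : ℂ) • v)
      rw [e0]; exact hcu)
      (Eventually.of_forall fun _ => rfl)
    rw [h2, h3, hd, e0] at h1
    rw [lev_lv, lv_add v ((Phi_cd hz.1).of_le two_le) hcu]
    exact h1

/-- the complete statement -/
theorem main : ∃ Ω θ : Form X, Ω.IsKahler ∧ θ.IsNef Ω ∧ θ.IsBig Ω ∧ ¬ θ.HasSemipositive := by
  obtain ⟨G, h, c, hG⟩ := Pool.Agent.U186.SP.t
  obtain ⟨K, c0, hK, hc0, hlow, hpot⟩ := Pool.Agent.U186.SP.tPsi G h c hG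
  have hPsi : PD (Psi G K) := ⟨Psi_per hG K, fun z hz => (Psi_cd hG K hz).of_le two_le,
    fun j z hz => (hpot j z hz).imp fun ρ hρ => hρ.1⟩
  refine ⟨hPsi.form, PD_Phi.form, ?_, ?_, ?_, ?_⟩
  · intro f hf hne
    obtain ⟨F, hF, h0⟩ := exists_lift hf (zX_mem (f 0)) (pX_zX (f 0)).symm
    obtain ⟨ρ, h1, h2⟩ := hpot _ _ hF.mem
    rw [hPsi.val_eq hF h1]
    exact h2 _ (hF.mf hne)
  · exact X_nef hG hc0 hPsi hlow
      (Pool.Agent.U674.SP.t_Nef Pool.Agent.Y625.SP.max_thm Pool.Agent.U474.SP.near_thm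
        Pool.Agent.U438.SP.t_Comp)
  · exact X_big hG hK hPsi Pool.Agent.U438.SP.t_Big
  · exact X_not (t_Not Pool.Agent.U186.SP.tRes)

end Pool.Agent.U84.SP
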