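import Pool.Agent.U84.SP.Not

set_option autoImplicit false
set_option linter.unusedSectionVars false

/-!
# The potentials of a semipositive form are constant on the curves
-/

open Set Topology Filter
open scoped ContDiff

namespace Pool.Agent.U84.SP

open Pool.Agent.Y184.SP

/-- the potential in the coordinate system `2` -/
noncomputable def P2 (u : E → ℝ) (t : E) : ℝ := rho 2 t + ext 2 u t

/-- the potential in the coordinate system `3` -/
noncomputable def P3 (u : E → ℝ) (t : E) : ℝ := rho 3 t + ext 3 u t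

/-- the potential in the coordinate system `0` -/
noncomputable def P0 (u : E → ℝ) (t : E) : ℝ := Phi t + ext 0 u t

variable {u : E → ℝ}

theorem P2_cd (hu : Ext u) {z : E} (hz : z ∈ V 2) : ContDiffAt ℝ ∞ (P2 u) z :=
  (rho_cd 2 z).add (ext_cd hu hz)

theorem P3_cd (hu : Ext u) {z : E} (hz : z ∈ V 3) : ContDiffAt ℝ ∞ (P3 u) z :=
  (rho_cd 3 z).add (ext_cd hu hz)

theorem P0_cd (hu : Ext u) {z : E} (hz : z.1 ∉ Lam) : ContDiffAt ℝ ∞ (P0 u) z :=
  (Phi_cd hz).add (ext_cd hu (Or.inl hz))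

theorem P23 (hu : Ext u) {z : E} (hz : z ∈ V 2) (h : z.1 ≠ 0) :
    P2 u z = P3 u (z.1 ^ 2 * z.2, z.1⁻¹) := by
  have hO : IsOpen {t : E | t ∈ V 2 ∧ t.1 ≠ 0} :=
    (V_open 2).inter (isClosed_singleton.isOpen_compl.preimage continuous_fst)
  have hg : ∀ t : E, t ∈ V 2 → t.1 ≠ 0 → ((t.1 ^ 2 * t.2, t.1⁻¹) : E) ∈ V 3 := by
    intro t ht ht1
    have e1 : t.1 ^ 2 * t.2 * t.1⁻¹ = t.1 * t.2 := by field_simp
    have e2 : t.1 ^ 2 * t.2 * t.1⁻¹ ^ 2 = t.2 := by field_simp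
    exact ⟨by simpa only [e1] using ht.1, by simpa only [e2] using ht.2⟩
  have htr : ∀ t : E, t.1 ≠ 0 → tr 3 (t.1 ^ 2 * t.2, t.1⁻¹) = tr 2 t := by
    intro t ht1
    show (t.1 ^ 2 * t.2 * t.1⁻¹, t.1 ^ 2 * t.2 * t.1⁻¹ ^ 2 + t.1 ^ 2 * t.2 * t.1⁻¹) =
      (t.1 * t.2, t.2 + t.1 * t.2)
    have e1 : t.1 ^ 2 * t.2 * t.1⁻¹ = t.1 * t.2 := by field_simp
    have e2 : t.1 ^ 2 * t.2 * t.1⁻¹ ^ 2 = t.2 := by field_simp
    rw [e1, e2]
  have hc : ContinuousAt (fun t : E => ((t.1 ^ 2 * t.2, t.1⁻¹) : E)) z := by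
    have h1 : ContinuousAt (fun t : E => t.1⁻¹) z := continuousAt_fst.inv₀ h
    exact ContinuousAt.prodMk (by fun_prop) h1
  refine eq_of_W 2 hz (F := P2 u) (G := fun t => P3 u (t.1 ^ 2 * t.2, t.1⁻¹))
    (P2_cd hu hz).continuousAt ?_ ?_
  · exact ContinuousAt.comp (f := fun t : E => ((t.1 ^ 2 * t.2, t.1⁻¹) : E)) (g := P3 u)
      (P3_cd hu (hg z hz h)).continuousAt hc
  · filter_upwards [hO.mem_nhds ⟨hz, h⟩] with t ht hW
    have ht3 := hg t ht.1 ht.2
    have hW3 : tr 3 (t.1 ^ 2 * t.2, t.1⁻¹) ∈ W := by rw [htr t ht.2]; exact hW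
    have a2 := rho2_eq ht.1 hW
    have a3 := rho3_eq ht3 hW3
    rw [htr t ht.2] at a3
    unfold P2 P3
    rw [ext_W hu ht.1 hW, ext_W hu ht3 hW3, htr t ht.2]
    have a4 : Real.log (‖t.1⁻¹‖ ^ 2) = -Real.log (‖t.1‖ ^ 2) := by
      rw [norm_inv, inv_pow, Real.log_inv]
    simp only [a4] at a3
    linarith

theorem V2_line (ξ : ℂ) : ((ξ, 0) : E) ∈ V 2 := by
  constructor <;> simp

theorem V3_line (η : ℂ) : ((0, η) : E) ∈ V 3 := by
  constructor <;> simp

theorem lap_slice (f : E → ℝ) (a b p q : ℂ) (x : ℂ) :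
    Laplacian.laplacian (fun t : ℂ => f (a + t * p, b + t * q)) x =
      lv f (a + x * p, b + x * q) (p, q) := by
  unfold lv
  have h1 : (fun ζ : ℂ => f ((a + x * p, b + x * q) + ζ • (p, q))) =
      fun ζ : ℂ => (fun t : ℂ => f (a + t * p, b + t * q)) (x + ζ) := by
    funext ζ
    simp only [Prod.smul_mk, Prod.mk_add_mk, smul_eq_mul]
    congr 2 <;> ring
  rw [h1, Pool.Agent.Y79.RB.lap_shift (fun t : ℂ => f (a + t * p, b + t * q)) x]

theorem lap2 (f : E → ℝ) (x : ℂ) : Laplacian.laplacian (fun t : ℂ => f (t, 0)) x =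
    lv f (x, 0) (1, 0) := by
  have := lap_slice f 0 0 1 0 x
  simpa using this

theorem lap3 (f : E → ℝ) (x : ℂ) : Laplacian.laplacian (fun t : ℂ => f (0, t)) x =
    lv f (0, x) (0, 1) := by
  have := lap_slice f 0 0 0 1 x
  simpa using this

theorem P2_const (hu : Ext u) (hpos : ∀ z ∈ W, ∀ v, 0 ≤ lev (fun z' => Phi z' + u z') z v)
    (ξ : ℂ) : P2 u (ξ, 0) = P2 u (0, 0) := by
  have c2 : ContDiff ℝ 2 (fun t : ℂ => P2 u (t, 0)) := by
    rw [contDiff_iff_contDiffAt]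
    intro t
    exact ContDiffAt.comp (f := fun t : ℂ => ((t, 0) : E)) t ((P2_cd hu (V2_line t)).of_le two_le)
      (contDiffAt_id.prodMk contDiffAt_const)
  have c3 : ContDiff ℝ 2 (fun t : ℂ => P3 u (0, t)) := by
    rw [contDiff_iff_contDiffAt]
    intro t
    exact ContDiffAt.comp (f := fun t : ℂ => ((0, t) : E)) t ((P3_cd hu (V3_line t)).of_le two_le)
      (contDiffAt_const.prodMk contDiffAt_id)
  have l2 : ∀ x, 0 ≤ Laplacian.laplacian (fun t : ℂ => P2 u (t, 0)) x := by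
    intro x
    rw [lap2]
    exact pot_nonneg hu hpos (V2_line x) (rho2_pot (V2_line x)) _
  have l3 : ∀ x, 0 ≤ Laplacian.laplacian (fun t : ℂ => P3 u (0, t)) x := by
    intro x
    rw [lap3]
    exact pot_nonneg hu hpos (V3_line x) (rho3_pot (V3_line x)) _
  have h23 : ∀ ξ : ℂ, ξ ≠ 0 → P2 u (ξ, 0) = P3 u (0, ξ⁻¹) := by
    intro ξ hξ
    have := P23 hu (V2_line ξ) hξ
    simpa using this
  obtain ⟨a, ha, hma⟩ := (isCompact_closedBall (0 : ℂ) 1).exists_isMaxOn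
    (Metric.nonempty_closedBall.2 zero_le_one) c2.continuous.continuousOn
  obtain ⟨b, hb, hmb⟩ := (isCompact_closedBall (0 : ℂ) 1).exists_isMaxOn
    (Metric.nonempty_closedBall.2 zero_le_one) c3.continuous.continuousOn
  have hma' : ∀ x : ℂ, ‖x‖ ≤ 1 → P2 u (x, 0) ≤ P2 u (a, 0) := fun x hx =>
    hma (mem_closedBall_zero_iff.2 hx)
  have hmb' : ∀ x : ℂ, ‖x‖ ≤ 1 → P3 u (0, x) ≤ P3 u (0, b) := fun x hx =>
    hmb (mem_closedBall_zero_iff.2 hx)
  have hinv : ∀ x : ℂ, 1 < ‖x‖ → ‖x⁻¹‖ ≤ 1 ∧ x ≠ 0 := by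
    intro x hx
    refine ⟨?_, ?_⟩
    · rw [norm_inv]
      exact inv_le_one_of_one_le₀ hx.le
    · rintro rfl
      simp at hx
      linarith
  rcases le_total (P3 u (0, b)) (P2 u (a, 0)) with h | h
  · have hm : ∀ x, P2 u (x, 0) ≤ P2 u (a, 0) := by
      intro x
      rcases le_or_gt ‖x‖ 1 with hx | hx
      · exact hma' x hx
      · obtain ⟨h1, h2⟩ := hinv x hx
        rw [h23 x h2]
        exact (hmb' _ h1).trans h
    have h1 := smp c2 l2 hm
    exact (h1 ξ).trans (h1 0).symm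
  · have hm : ∀ x, P3 u (0, x) ≤ P3 u (0, b) := by
      intro x
      rcases le_or_gt ‖x‖ 1 with hx | hx
      · exact hmb' x hx
      · obtain ⟨h1, h2⟩ := hinv x hx
        have h3 := h23 x⁻¹ (inv_ne_zero h2)
        rw [inv_inv] at h3
        rw [← h3]
        exact (hma' _ h1).trans h
    have h1 := smp c3 l3 hm
    have h4 : ∀ ξ : ℂ, ξ ≠ 0 → P2 u (ξ, 0) = P3 u (0, b) := fun ξ hξ => (h23 ξ hξ).trans (h1 _)
    have h5 : P2 u (0, 0) = P3 u (0, b) := by
      have h6 : Tendsto (fun t : ℂ => P2 u (t, 0)) (𝓝[≠] 0) (𝓝 (P2 u (0, 0))) :=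
        c2.continuous.continuousAt.tendsto.mono_left nhdsWithin_le_nhds
      have h7 : Tendsto (fun t : ℂ => P2 u (t, 0)) (𝓝[≠] 0) (𝓝 (P3 u (0, b))) := by
        refine (tendsto_const_nhds (x := P3 u (0, b))).congr' ?_
        filter_upwards [self_mem_nhdsWithin] with t ht
        exact (h4 t ht).symm
      exact tendsto_nhds_unique h6 h7
    rcases eq_or_ne ξ 0 with rfl | hξ
    · rfl
    · rw [h4 ξ hξ, h5]

/-- the relation between the coordinate systems `0` and `2` -/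
theorem P02 (hu : Ext u) {z : E} (h1 : z.1 ≠ 0) (h2 : z.2 - z.1 ≠ 0) (h3 : ‖z.1‖ < 1 / 8)
    (h4 : ‖z.2 - z.1‖ < 1 / 8) : P0 u z = P2 u (z.1 / (z.2 - z.1), z.2 - z.1) -
      Real.log (‖z.1 / (z.2 - z.1)‖ ^ 2) := by
  have hO : IsOpen {t : E | t.1 ≠ 0 ∧ t.2 - t.1 ≠ 0 ∧ ‖t.1‖ < 1 / 8 ∧ ‖t.2 - t.1‖ < 1 / 8} := by
    have i1 : IsOpen {t : E | t.1 ≠ 0} := isOpen_ne_fun continuous_fst continuous_const
    have i2 : IsOpen {t : E | t.2 - t.1 ≠ 0} :=
      isOpen_ne_fun (continuous_snd.sub continuous_fst) continuous_const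
    have i3 : IsOpen {t : E | ‖t.1‖ < 1 / 8} := isOpen_lt (by fun_prop) continuous_const
    have i4 : IsOpen {t : E | ‖t.2 - t.1‖ < 1 / 8} := isOpen_lt (by fun_prop) continuous_const
    exact i1.inter (i2.inter (i3.inter i4))
  have hz : z ∈ {t : E | t.1 ≠ 0 ∧ t.2 - t.1 ≠ 0 ∧ ‖t.1‖ < 1 / 8 ∧ ‖t.2 - t.1‖ < 1 / 8} :=
    ⟨h1, h2, h3, h4⟩
  have hg : ∀ t ∈ {t : E | t.1 ≠ 0 ∧ t.2 - t.1 ≠ 0 ∧ ‖t.1‖ < 1 / 8 ∧ ‖t.2 - t.1‖ < 1 / 8},
      ((t.1 / (t.2 - t.1), t.2 - t.1) : E) ∈ V 2 ∧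
      tr 2 (t.1 / (t.2 - t.1), t.2 - t.1) = t := by
    rintro t ⟨t1, t2, t3, t4⟩
    have e1 : t.1 / (t.2 - t.1) * (t.2 - t.1) = t.1 := by field_simp
    refine ⟨⟨?_, t4⟩, ?_⟩
    · show ‖t.1 / (t.2 - t.1) * (t.2 - t.1)‖ < 1 / 8
      rw [e1]; exact t3
    · show (t.1 / (t.2 - t.1) * (t.2 - t.1), (t.2 - t.1) + t.1 / (t.2 - t.1) * (t.2 - t.1)) = t
      rw [e1, sub_add_cancel]
  have hc : ContinuousAt (fun t : E => ((t.1 / (t.2 - t.1), t.2 - t.1) : E)) z := by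
    have h5 : ContinuousAt (fun t : E => t.1 / (t.2 - t.1)) z :=
      continuousAt_fst.div (continuousAt_snd.sub continuousAt_fst) h2
    exact ContinuousAt.prodMk h5 (by fun_prop)
  have hL : z.1 ∉ Lam := notMem_Lam (by linarith) h1
  refine eq_of_W 0 (Or.inl hL) (F := P0 u)
    (G := fun t => P2 u (t.1 / (t.2 - t.1), t.2 - t.1) - Real.log (‖t.1 / (t.2 - t.1)‖ ^ 2))
    (P0_cd hu hL).continuousAt ?_ ?_
  · have h6 : ContinuousAt (fun t : E => P2 u (t.1 / (t.2 - t.1), t.2 - t.1)) z :=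
      ContinuousAt.comp (f := fun t : E => ((t.1 / (t.2 - t.1), t.2 - t.1) : E)) (g := P2 u)
        (P2_cd hu (hg z hz).1).continuousAt hc
    have h7 : ContinuousAt (fun t : E => t.1 / (t.2 - t.1)) z :=
      continuousAt_fst.div (continuousAt_snd.sub continuousAt_fst) h2
    refine h6.sub (ContinuousAt.log (h7.norm.pow 2) ?_)
    have : z.1 / (z.2 - z.1) ≠ 0 := div_ne_zero h1 h2
    simpa using this
  · filter_upwards [hO.mem_nhds hz] with t ht hW
    obtain ⟨g1, g2⟩ := hg t ht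
    have hW' : t ∈ W := hW
    have hW2 : tr 2 (t.1 / (t.2 - t.1), t.2 - t.1) ∈ W := by rw [g2]; exact hW'
    have a2 := rho2_eq g1 hW2
    rw [g2] at a2
    unfold P0 P2
    have a5 : ext 0 u t = u t := ext_W hu (j := 0) (W_V0 hW') hW'
    rw [ext_W hu g1 hW2, g2, a5, a2]
    ring

theorem P0_per (hp : Per u) (hu : Ext u) {z : E} (hz : z.1 ∉ Lam) {l : ℂ} (hl : l ∈ Lam) :
    P0 u (z.1 + l, z.2) = P0 u z := by
  have hL : ∀ x : ℂ, x ∉ Lam → x + l ∉ Lam := fun x hx h => hx (by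
    have := Lam_sub h hl
    rwa [add_sub_cancel_right] at this)
  have hc : ContinuousAt (fun t : E => ((t.1 + l, t.2) : E)) z := by fun_prop
  refine eq_of_W 0 (Or.inl hz) (F := fun t => P0 u (t.1 + l, t.2)) (G := P0 u) ?_
    (P0_cd hu hz).continuousAt ?_
  · exact ContinuousAt.comp (f := fun t : E => ((t.1 + l, t.2) : E)) (g := P0 u)
      (P0_cd hu (hL _ hz)).continuousAt hc
  · filter_upwards with t hW
    have hW' : t ∈ W := hW
    have hW2 : ((t.1 + l, t.2) : E) ∈ W := ⟨hL _ hW'.1, hW'.2⟩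
    unfold P0
    have a5 : ext 0 u t = u t := ext_W hu (j := 0) (W_V0 hW') hW'
    have a6 : ext 0 u (t.1 + l, t.2) = u (t.1 + l, t.2) := ext_W hu (j := 0) (W_V0 hW2) hW2
    rw [a5, a6, Phi_per t.1 t.2 l hl, hp t.1 t.2 l hl]

/-- the potential is constant along the curve `y = 0` -/
theorem P0_const (hp : Per u) (hu : Ext u)
    (hpos : ∀ z ∈ W, ∀ v, 0 ≤ lev (fun z' => Phi z' + u z') z v) :
    ∃ c : ℝ, ∀ x, x ∉ Lam → P0 u (x, 0) = c := by
  classical
  obtain ⟨v, hv⟩ : ∃ v : ℂ → ℝ, v = fun x => if x ∈ Lam then P2 u (-1, 0) else P0 u (x, 0) :=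
    ⟨_, rfl⟩
  have v0 : ∀ x, x ∉ Lam → v x = P0 u (x, 0) := fun x hx => by rw [hv]; simp [hx]
  have v1 : ∀ x l : ℂ, l ∈ Lam → ‖x - l‖ < 1 / 8 → v x = P2 u (-1, -(x - l)) := by
    intro x l hl hx
    by_cases h : x ∈ Lam
    · have h2 : x - l = 0 := Lam_norm (Lam_sub h hl) (by linarith)
      rw [hv, h2, neg_zero]
      simp [h]
    · rw [v0 x h]
      have hx0 : x - l ≠ 0 := by
        intro h0
        exact h (by rw [sub_eq_zero.1 h0]; exact hl)
      have h3 : x - l ∉ Lam := notMem_Lam (by linarith) hx0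
      have h4 := P0_per hp hu (z := (x - l, 0)) h3 hl
      simp only [sub_add_cancel] at h4
      have b1 : (0 : ℂ) - (x - l) ≠ 0 := by rw [zero_sub]; exact neg_ne_zero.2 hx0
      have b2 : ‖(0 : ℂ) - (x - l)‖ < 1 / 8 := by rw [zero_sub, norm_neg]; exact hx
      rw [h4, P02 hu (z := (x - l, 0)) hx0 b1 hx b2]
      simp only [zero_sub]
      have h5 : (x - l) / (-(x - l)) = -1 := by
        rw [div_neg, div_self hx0]
      rw [h5]
      simp
  have vcd : ContDiff ℝ 2 v := by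
    rw [contDiff_iff_contDiffAt]
    intro x
    by_cases hx : x ∈ Lam
    · have h1 : ∀ᶠ y in 𝓝 x, v y = P2 u (-1, -(y - x)) := by
        have h2 : ∀ᶠ y in 𝓝 x, ‖y - x‖ < 1 / 8 := by
          have hc : ContinuousAt (fun y : ℂ => ‖y - x‖) x := by fun_prop
          apply hc.eventually_lt continuousAt_const
          simp
        filter_upwards [h2] with y hy
        exact v1 y x hx hy
      refine ContDiffAt.congr_of_eventuallyEq ?_ h1
      have h3 : ContDiffAt ℝ 2 (P2 u) ((-1 : ℂ), -(x - x)) := by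
        rw [sub_self, neg_zero]
        exact (P2_cd hu (V2_line _)).of_le two_le
      exact ContDiffAt.comp (f := fun y : ℂ => (((-1 : ℂ), -(y - x)) : E)) x h3
        (contDiffAt_const.prodMk (contDiffAt_id.sub contDiffAt_const).neg)
    · have h1 : ∀ᶠ y in 𝓝 x, v y = P0 u (y, 0) := by
        filter_upwards [Lam_closed.isOpen_compl.mem_nhds hx] with y hy
        exact v0 y hy
      refine ContDiffAt.congr_of_eventuallyEq ?_ h1
      exact ContDiffAt.comp (f := fun y : ℂ => ((y, 0) : E)) x ((P0_cd hu hx).of_le two_le)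
        (contDiffAt_id.prodMk contDiffAt_const)
  have vper : ∀ x l : ℂ, l ∈ Lam → v (x + l) = v x := by
    intro x l hl
    by_cases hx : x ∈ Lam
    · rw [hv]; simp [hx, Lam_add hx hl]
    · have h1 : x + l ∉ Lam := fun h => hx (by
        have := Lam_sub h hl
        rwa [add_sub_cancel_right] at this)
      rw [v0 _ h1, v0 _ hx]
      exact P0_per hp hu (z := (x, 0)) hx hl
  have vlap : ∀ x, 0 ≤ Laplacian.laplacian v x := by
    have h0 : ∀ x, x ∉ Lam → 0 ≤ Laplacian.laplacian v x := by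
      intro x hx
      have h1 : v =ᶠ[𝓝 x] fun y => P0 u (y, 0) := by
        filter_upwards [Lam_closed.isOpen_compl.mem_nhds hx] with y hy
        exact v0 y hy
      rw [(InnerProductSpace.laplacian_congr_nhds h1).self_of_nhds, lap2]
      exact pot_nonneg hu hpos (j := 0) (Or.inl hx) (pot0_ne hx) _
    intro x
    by_contra hlt
    push Not at hlt
    have hcont : ContinuousAt (fun y => Laplacian.laplacian v y) x := by
      have h2 := lv_cont (V := ℂ) (ρ := v) (z := x) 1 vcd.contDiffAt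
      have h3 : ContinuousAt (fun y : ℂ => lv v y 1) x :=
        ContinuousAt.comp (f := fun y : ℂ => (y, (1 : ℂ))) (g := fun p : ℂ × ℂ => lv v p.1 p.2) h2
          (by fun_prop)
      have h4 : (fun y : ℂ => lv v y 1) = fun y => Laplacian.laplacian v y := by
        funext y
        unfold lv
        simp only [smul_eq_mul, mul_one]
        exact Pool.Agent.Y79.RB.lap_shift v y
      rwa [h4] at h3
    have h1 : ∀ᶠ y in 𝓝 x, Laplacian.laplacian v y < 0 :=
      hcont.eventually_lt continuousAt_const hlt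
    have h1' : ∀ᶠ y in 𝓝[≠] x, Laplacian.laplacian v y < 0 := nhdsWithin_le_nhds h1
    obtain ⟨y, hy, hy2⟩ := (h1'.and (Lam_isolated x)).exists
    exact absurd (h0 y hy2) (not_le.2 hy)
  obtain ⟨a, _, ha⟩ := (isCompact_closedBall (0 : ℂ) 1).exists_isMaxOn
    (Metric.nonempty_closedBall.2 zero_le_one) vcd.continuous.continuousOn
  have hm : ∀ x, v x ≤ v a := by
    intro x
    have h1 := vper (red x) _ (sub_red x)
    rw [add_sub_cancel] at h1
    rw [h1]
    apply ha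
    rw [mem_closedBall_zero_iff]
    have h2 := Complex.norm_le_abs_re_add_abs_im (red x)
    have h3 := abs_re_red x
    have h4 := abs_im_red x
    linarith
  have h1 := smp vcd vlap hm
  refine ⟨v a, fun x hx => ?_⟩
  rw [← v0 x hx, h1 x]

end Pool.Agent.U84.SP
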