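import Pool.Agent.U84.SP.Lev

set_option autoImplicit false
set_option linter.unusedSectionVars false

/-!
# Complex surfaces given by parametrisations
-/

open Set Topology Filter
open scoped ContDiff Manifold

namespace Pool.Agent.U84.SP

open Pool.Agent.Y184.SP

/-- a set `M` covered by the images of injective maps `φ i` on open sets `D i` of `ℂ²`, which
differ by holomorphic coordinate changes -/
structure Par (M : Type) where
  ι : Type
  D : ι → Set E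
  φ : ι → E → M
  openD : ∀ i, IsOpen (D i)
  inj : ∀ i, InjOn (φ i) (D i)
  cov : ∀ p, ∃ i, ∃ z ∈ D i, φ i z = p
  compat : ∀ i j z w, z ∈ D i → w ∈ D j → φ i z = φ j w →
    ∃ g : E → E, ContDiffAt ℂ ω g z ∧ g z = w ∧ ∀ᶠ z' in 𝓝 z, φ j (g z') = φ i z'

namespace Par

variable {M : Type} (P : Par M)

/-- the charts -/
noncomputable def e (i : P.ι) : PartialEquiv M E where
  toFun := Function.invFunOn (P.φ i) (P.D i)
  invFun := P.φ i
  source := P.φ i '' P.D i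
  target := P.D i
  map_source' := fun _ hp => Function.invFunOn_mem hp
  map_target' := fun _ hz => mem_image_of_mem _ hz
  left_inv' := fun _ hp => Function.invFunOn_eq hp
  right_inv' := fun _ hz => P.inj i (Function.invFunOn_mem (mem_image_of_mem _ hz)) hz
    (Function.invFunOn_eq (mem_image_of_mem _ hz))

theorem e_φ (i : P.ι) {z : E} (hz : z ∈ P.D i) : P.e i (P.φ i z) = z := (P.e i).right_inv hz

theorem trans_source (i j : P.ι) {z : E} (hz : z ∈ ((P.e i).symm.trans (P.e j)).source) :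
    z ∈ P.D i ∧ ∃ w ∈ P.D j, P.φ j w = P.φ i z := by
  rw [PartialEquiv.trans_source] at hz
  exact ⟨hz.1, hz.2⟩

theorem trans_ev {i j : P.ι} {z w : E} (hw : w ∈ P.D j) {g : E → E}
    (hg : ContinuousAt g z) (hgz : g z = w) (h : ∀ᶠ z' in 𝓝 z, P.φ j (g z') = P.φ i z') :
    ∀ᶠ z' in 𝓝 z, P.e j (P.φ i z') = g z' := by
  have h1 : ∀ᶠ z' in 𝓝 z, g z' ∈ P.D j :=
    hg.eventually ((P.openD j).mem_nhds (by rw [hgz]; exact hw))
  filter_upwards [h, h1] with z' h2 h3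
  rw [← h2, P.e_φ j h3]

/-- the manifold structure -/
noncomputable def core : ChartedSpaceCore E M where
  atlas := range P.e
  chartAt := fun p => P.e (P.cov p).choose
  mem_chart_source := fun p => (P.cov p).choose_spec
  chart_mem_atlas := fun p => mem_range_self _
  open_source := by
    rintro _ _ ⟨i, rfl⟩ ⟨j, rfl⟩
    rw [isOpen_iff_mem_nhds]
    intro z hz
    obtain ⟨h1, w, h2, h3⟩ := P.trans_source i j hz
    obtain ⟨g, g1, g2, g3⟩ := P.compat i j z w h1 h2 h3.symm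
    have h4 : ∀ᶠ z' in 𝓝 z, g z' ∈ P.D j :=
      g1.continuousAt.eventually ((P.openD j).mem_nhds (by rw [g2]; exact h2))
    filter_upwards [g3, h4, (P.openD i).mem_nhds h1] with z' h5 h6 h7
    rw [PartialEquiv.trans_source]
    exact ⟨h7, ⟨g z', h6, h5⟩⟩
  continuousOn_toFun := by
    rintro _ _ ⟨i, rfl⟩ ⟨j, rfl⟩
    intro z hz
    obtain ⟨h1, w, h2, h3⟩ := P.trans_source i j hz
    obtain ⟨g, g1, g2, g3⟩ := P.compat i j z w h1 h2 h3.symm
    have h4 := P.trans_ev h2 g1.continuousAt g2 g3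
    exact (g1.continuousAt.congr (h4.mono fun _ h => h.symm)).continuousWithinAt

/-- the set `M` as a topological space -/
def Sp (_ : Par M) : Type := M

noncomputable instance : TopologicalSpace P.Sp := P.core.toTopologicalSpace

noncomputable instance : ChartedSpace E P.Sp := P.core.toChartedSpace

/-- the parametrisations -/
def ph (i : P.ι) : E → P.Sp := P.φ i

/-- the charts of the manifold -/
noncomputable def ch (i : P.ι) : OpenPartialHomeomorph P.Sp E :=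
  P.core.openPartialHomeomorph (P.e i) (mem_range_self i)

theorem ch_symm (i : P.ι) : ⇑(P.ch i).symm = P.ph i := rfl

theorem ch_source (i : P.ι) : (P.ch i).source = P.ph i '' P.D i := rfl

theorem ch_target (i : P.ι) : (P.ch i).target = P.D i := rfl

theorem ch_ph {i : P.ι} {z : E} (hz : z ∈ P.D i) : P.ch i (P.ph i z) = z := P.e_φ i hz

theorem ph_mem {i : P.ι} {z : E} (hz : z ∈ P.D i) : P.ph i z ∈ (P.ch i).source :=
  mem_image_of_mem _ hz

theorem ch_atlas (i : P.ι) : P.ch i ∈ atlas E P.Sp := by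
  show P.ch i ∈ ⋃ (e : PartialEquiv M E) (he : e ∈ P.core.atlas),
    ({P.core.openPartialHomeomorph e he} : Set (OpenPartialHomeomorph P.Sp E))
  simp only [mem_iUnion, mem_singleton_iff]
  exact ⟨P.e i, mem_range_self i, rfl⟩

theorem of_atlas {c : OpenPartialHomeomorph P.Sp E} (h : c ∈ atlas E P.Sp) :
    ∃ i, c = P.ch i := by
  have h' : c ∈ ⋃ (e : PartialEquiv M E) (he : e ∈ P.core.atlas),
    ({P.core.openPartialHomeomorph e he} : Set (OpenPartialHomeomorph P.Sp E)) := h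
  simp only [mem_iUnion, mem_singleton_iff] at h'
  obtain ⟨_, ⟨i, rfl⟩, rfl⟩ := h'
  exact ⟨i, rfl⟩

/-- the index of the chart at a point -/
noncomputable def ix (p : P.Sp) : P.ι := (P.cov p).choose

theorem chartAt_eq (p : P.Sp) : chartAt E p = P.ch (P.ix p) := rfl

theorem exists_ph (p : P.Sp) : ∃ i, ∃ z ∈ P.D i, P.ph i z = p := P.cov p

theorem ix_spec (p : P.Sp) : ∃ z ∈ P.D (P.ix p), P.ph (P.ix p) z = p := (P.cov p).choose_spec

theorem cd_trans (𝕜 : Type) [NontriviallyNormedField 𝕜] [NormedSpace 𝕜 E] {n : WithTop ℕ∞}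
    (hr : ∀ (g : E → E) (z : E), ContDiffAt ℂ ω g z → ContDiffAt 𝕜 n g z) :
    IsManifold 𝓘(𝕜, E) n P.Sp := by
  refine isManifold_of_contDiffOn 𝓘(𝕜, E) n P.Sp ?_
  intro c c' hc hc'
  obtain ⟨i, rfl⟩ := P.of_atlas hc
  obtain ⟨j, rfl⟩ := P.of_atlas hc'
  intro z hz
  have hz' : z ∈ ((P.e i).symm.trans (P.e j)).source := hz.1
  obtain ⟨h1, w, h2, h3⟩ := P.trans_source i j hz'
  obtain ⟨g, g1, g2, g3⟩ := P.compat i j z w h1 h2 h3.symm
  have h4 := P.trans_ev h2 g1.continuousAt g2 g3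
  have h5 : ContDiffAt 𝕜 n (fun z' => P.e j (P.φ i z')) z :=
    (hr g z g1).congr_of_eventuallyEq h4
  exact h5.contDiffWithinAt

instance isMan : IsManifold 𝓘(ℂ, E) ω P.Sp := P.cd_trans ℂ fun _ _ h => h

instance isManR : IsManifold 𝓘(ℝ, E) ∞ P.Sp := P.cd_trans ℝ fun _ _ h => omega_real h

theorem nhds_ph {i : P.ι} {z : E} (hz : z ∈ P.D i) : 𝓝 (P.ph i z) = map (P.ph i) (𝓝 z) :=
  ((P.ch i).symm.map_nhds_eq hz).symm

theorem ph_cont {i : P.ι} {z : E} (hz : z ∈ P.D i) : ContinuousAt (P.ph i) z := by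
  rw [ContinuousAt, P.nhds_ph hz]
  exact tendsto_map

theorem ph_cm {i : P.ι} {z : E} (hz : z ∈ P.D i) : ContMDiffAt 𝓘(ℂ, E) 𝓘(ℂ, E) ω (P.ph i) z :=
  contMDiffAt_symm_of_mem_maximalAtlas (IsManifold.subset_maximalAtlas (P.ch_atlas i)) hz

theorem ph_cmR {i : P.ι} {z : E} (hz : z ∈ P.D i) : ContMDiffAt 𝓘(ℝ, E) 𝓘(ℝ, E) ∞ (P.ph i) z :=
  contMDiffAt_symm_of_mem_maximalAtlas (IsManifold.subset_maximalAtlas (P.ch_atlas i)) hz

theorem ch_cm {i : P.ι} {z : E} (hz : z ∈ P.D i) :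
    ContMDiffAt 𝓘(ℂ, E) 𝓘(ℂ, E) ω (P.ch i) (P.ph i z) :=
  contMDiffAt_of_mem_maximalAtlas (IsManifold.subset_maximalAtlas (P.ch_atlas i)) (P.ph_mem hz)

theorem ch_cmR {i : P.ι} {z : E} (hz : z ∈ P.D i) :
    ContMDiffAt 𝓘(ℝ, E) 𝓘(ℝ, E) ∞ (P.ch i) (P.ph i z) :=
  contMDiffAt_of_mem_maximalAtlas (IsManifold.subset_maximalAtlas (P.ch_atlas i)) (P.ph_mem hz)

theorem ph_ch {i : P.ι} {z : E} (hz : z ∈ P.D i) : ∀ᶠ q in 𝓝 (P.ph i z), P.ph i (P.ch i q) = q := by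
  filter_upwards [(P.ch i).open_source.mem_nhds (P.ph_mem hz)] with q hq
  exact (P.ch i).left_inv hq

/-- smoothness in a chart -/
theorem cm_iff {i : P.ι} {z : E} (hz : z ∈ P.D i) (f : P.Sp → ℝ) :
    ContMDiffAt 𝓘(ℝ, E) 𝓘(ℝ, ℝ) ∞ f (P.ph i z) ↔ ContDiffAt ℝ ∞ (fun z => f (P.ph i z)) z := by
  constructor
  · intro h
    exact contMDiffAt_iff_contDiffAt.1 (ContMDiffAt.comp z h (P.ph_cmR hz))
  · intro h
    have h1 : ContMDiffAt 𝓘(ℝ, E) 𝓘(ℝ, ℝ) ∞ (fun z => f (P.ph i z)) (P.ch i (P.ph i z)) := by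
      rw [P.ch_ph hz]
      exact contMDiffAt_iff_contDiffAt.2 h
    have h2 := ContMDiffAt.comp (P.ph i z) h1 (P.ch_cmR hz)
    refine h2.congr_of_eventuallyEq ?_
    filter_upwards [P.ph_ch hz] with q hq
    show f q = f (P.ph i (P.ch i q))
    rw [hq]

/-- holomorphic discs in a chart -/
theorem disc_of {i : P.ι} {z : E} (hz : z ∈ P.D i) {f : ℂ → P.Sp} {x : ℂ}
    (hf : ContMDiffAt 𝓘(ℂ, ℂ) 𝓘(ℂ, E) ω f x) (h0 : f x = P.ph i z) :
    ContDiffAt ℂ ω (fun ζ => P.ch i (f ζ)) x ∧ P.ch i (f x) = z ∧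
      ∀ᶠ ζ in 𝓝 x, f ζ = P.ph i (P.ch i (f ζ)) := by
  refine ⟨?_, ?_, ?_⟩
  · have h1 : ContMDiffAt 𝓘(ℂ, E) 𝓘(ℂ, E) ω (P.ch i) (f x) := by
      rw [h0]; exact P.ch_cm hz
    exact contMDiffAt_iff_contDiffAt.1 (ContMDiffAt.comp x h1 hf)
  · rw [h0, P.ch_ph hz]
  · have h1 : ∀ᶠ q in 𝓝 (f x), P.ph i (P.ch i q) = q := by rw [h0]; exact P.ph_ch hz
    filter_upwards [hf.continuousAt.eventually h1] with ζ hζ
    exact hζ.symm

theorem disc_mk {i : P.ι} {F : ℂ → E} {x : ℂ} (hF : ContDiffAt ℂ ω F x) (h0 : F x ∈ P.D i) :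
    ContMDiffAt 𝓘(ℂ, ℂ) 𝓘(ℂ, E) ω (fun ζ => P.ph i (F ζ)) x :=
  ContMDiffAt.comp x (P.ph_cm h0) (contMDiffAt_iff_contDiffAt.2 hF)

/-- a criterion for the Hausdorff property -/
theorem t2 (h : ∀ i j z w, z ∈ P.D i → w ∈ P.D j →
    (∃ᶠ p in 𝓝 (z, w), P.φ i p.1 = P.φ j p.2) → P.φ i z = P.φ j w) : T2Space P.Sp := by
  rw [t2_iff_nhds]
  intro p q hpq
  obtain ⟨i, z, hz, rfl⟩ := P.exists_ph p
  obtain ⟨j, w, hw, rfl⟩ := P.exists_ph q
  apply h i j z w hz hw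
  rw [P.nhds_ph hz, P.nhds_ph hw] at hpq
  intro hcon
  apply hpq.ne
  rw [nhds_prod_eq, eventually_prod_iff] at hcon
  obtain ⟨A, hA, B, hB, hAB⟩ := hcon
  rw [← disjoint_iff, Filter.disjoint_iff]
  refine ⟨P.ph i '' {x | A x}, image_mem_map hA, P.ph j '' {y | B y}, image_mem_map hB, ?_⟩
  rw [Set.disjoint_left]
  rintro _ ⟨x, hx, rfl⟩ ⟨y, hy, hxy⟩
  exact hAB hx hy hxy.symm

end Par

end Pool.Agent.U84.SP
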