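import Pool.Agent.U84.SP.Tr

set_option autoImplicit false
set_option linter.unusedSectionVars false

/-!
# The class `α`
-/

open Set Topology Filter
open scoped ContDiff

namespace Pool.Agent.U84.SP

open Pool.Agent.Y184.SP

section

variable {V : Type*} [NormedAddCommGroup V] [NormedSpace ℂ V] [CompleteSpace V]

theorem lv_log_1 {f : V → ℂ} {z : V} (v : V) (hf : ContDiffAt ℂ ω f z) :
    lv (fun t => Real.log (1 + ‖f t‖ ^ 2)) z v =
      4 * ‖fderiv ℂ f z v‖ ^ 2 / (1 + ‖f z‖ ^ 2) ^ 2 := by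
  have h := lv_log_two (f := fun _ => (1 : ℂ)) (g := f) v contDiffAt_const hf (by
    simp only [norm_one]; positivity)
  simp only [norm_one, one_pow, one_mul] at h
  rw [h]
  have h2 : fderiv ℂ (fun _ : V => (1 : ℂ)) z v = 0 := by
    rw [fderiv_const_apply]; rfl
  rw [h2, mul_zero, sub_zero]

theorem cd_log_1 {n : WithTop ℕ∞} {f : V → ℂ} {z : V} (hf : ContDiffAt ℝ n f z) :
    ContDiffAt ℝ n (fun t => Real.log (1 + ‖f t‖ ^ 2)) z :=
  (contDiffAt_const.add (hf.norm_sq ℝ)).log (by positivity)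

end

theorem chi_mul_cd {n : WithTop ℕ∞} (hn : n ≤ ∞) {H : E → ℝ} {z : E}
    (h : ‖red z.1‖ < 3 / 8 → ContDiffAt ℝ n H z) :
    ContDiffAt ℝ n (fun t : E => chi t.1 * H t) z := by
  have hc : ContDiffAt ℝ n (fun t : E => chi t.1) z :=
    ((chi_smooth.contDiffAt.of_le hn).comp z contDiffAt_fst)
  rcases lt_or_ge (‖red z.1‖) (3 / 8) with h1 | h1
  · exact hc.mul (h h1)
  · have h2 : ∀ᶠ t in 𝓝 z, 1 / 4 < ‖red t.1‖ := by
      have hcc : ContinuousAt (fun t : E => ‖red t.1‖) z :=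
        (norm_red_cont.comp continuous_fst).continuousAt
      apply (continuousAt_const).eventually_lt hcc
      linarith
    refine (contDiffAt_const (c := (0 : ℝ))).congr_of_eventuallyEq ?_
    filter_upwards [h2] with t ht
    rw [chi_zero ht.le, zero_mul]

/-- near a point with `|red x| < 1/2` the function `red` is holomorphic -/
theorem red_cd {n : WithTop ℕ∞} {z : E} (h : ‖red z.1‖ < 1 / 2) :
    ContDiffAt ℂ n (fun t : E => red t.1) z := by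
  have h1 : ∀ᶠ t in 𝓝 z, red t.1 = t.1 - (z.1 - red z.1) :=
    (continuousAt_fst (p := z)).eventually (red_ev h)
  exact (contDiffAt_fst.sub contDiffAt_const).congr_of_eventuallyEq h1

theorem red_cdR {n : WithTop ℕ∞} {z : E} (h : ‖red z.1‖ < 1 / 2) :
    ContDiffAt ℝ n (fun t : E => red t.1) z := (red_cd h).restrict_scalars ℝ

theorem red_fderiv {z : E} (h : ‖red z.1‖ < 1 / 2) (v : E) :
    fderiv ℂ (fun t : E => red t.1) z v = v.1 := by
  have h1 : (fun t : E => red t.1) =ᶠ[𝓝 z] fun t => t.1 - (z.1 - red z.1) :=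
    (continuousAt_fst (p := z)).eventually (red_ev h)
  rw [h1.fderiv_eq, fderiv_sub_const]
  simp [fderiv_fst]

theorem Phi_per : Per Phi := by
  intro x y l hl
  unfold Phi L2
  simp only [red_add x hl, chi_per x hl]

theorem sq_pos {a : ℂ} (h : a ≠ 0) : 0 < ‖a‖ ^ 2 := by
  have := norm_pos_iff.2 h
  positivity

theorem num2_pos {y r : ℂ} (h : y ≠ 0 ∨ r ≠ 0) : 0 < ‖y - r‖ ^ 2 + ‖r‖ ^ 4 := by
  by_cases hr : r = 0
  · have := sq_pos (h.resolve_right (fun h => h hr))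
    simp [hr]
    exact this
  · have := norm_pos_iff.2 hr
    positivity

/-- `L₂` is smooth -/
theorem L2_cd {n : WithTop ℕ∞} {z : E} (h : ‖red z.1‖ < 1 / 2) (h2 : z.2 ≠ 0 ∨ red z.1 ≠ 0) :
    ContDiffAt ℝ n L2 z := by
  have hr := red_cdR (n := n) h
  have h3 := num2_pos h2
  unfold L2
  refine ContDiffAt.log (ContDiffAt.div ?_ ?_ (by positivity)) (by positivity)
  · have h4 : ContDiffAt ℝ n (fun t : E => ‖red t.1‖ ^ 4) z := by
      have := (hr.norm_sq ℝ).pow 2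
      refine this.congr_of_eventuallyEq (Eventually.of_forall fun t => ?_)
      show ‖red t.1‖ ^ 4 = (‖red t.1‖ ^ 2) ^ 2
      ring
    exact ((contDiffAt_snd.sub hr).norm_sq ℝ).add h4
  · exact contDiffAt_const.add (contDiffAt_snd.norm_sq ℝ)

theorem log_red_cd {n : WithTop ℕ∞} {z : E} (h : ‖red z.1‖ < 1 / 2) (h2 : red z.1 ≠ 0) :
    ContDiffAt ℝ n (fun t : E => Real.log (‖red t.1‖ ^ 2)) z :=
  cd_log_one (red_cdR h) h2

/-- `Φ` is smooth outside `Λ × ℂ` -/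
theorem Phi_cd {z : E} (h : z.1 ∉ Lam) : ContDiffAt ℝ ∞ Phi z := by
  unfold Phi
  refine (contDiffAt_const.mul (cd_log_1 contDiffAt_snd)).add (chi_mul_cd le_rfl fun h1 => ?_)
  exact (L2_cd (by linarith) (Or.inr (red_ne h))).sub (log_red_cd (by linarith) (red_ne h))

theorem zero_pot (ρ : E → ℝ) (z v : E) : lev (fun t => ρ t - ρ t) z v = 0 := by
  simp only [sub_self]
  exact lv_const 0 z v

theorem tr2_1 {z : E} (hz : z ∈ V 2) : red (z.1 * z.2) = z.1 * z.2 :=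
  red_self (by have := hz.1; linarith)

theorem tr3_1 {z : E} (hz : z ∈ V 3) : red (z.1 * z.2) = z.1 * z.2 :=
  red_self (by have := hz.1; linarith)

theorem tr4_1 {z : E} (hz : z ∈ V 4) : red z.1 = z.1 :=
  red_self (by have := hz.1; linarith)

/-- the potentials in the last three coordinate systems -/
noncomputable def rho : Fin 5 → E → ℝ
  | 0 => fun _ => 0
  | 1 => fun _ => 0
  | 2 => fun z => 2 * Real.log (1 + ‖z.2 + z.1 * z.2‖ ^ 2) + Real.log (1 + ‖z.1 ^ 2 * z.2‖ ^ 2)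
  | 3 => fun z => 2 * Real.log (1 + ‖z.1 * z.2 ^ 2 + z.1 * z.2‖ ^ 2) + Real.log (1 + ‖z.1‖ ^ 2)
  | 4 => fun z => 2 * Real.log (1 + ‖z.1 ^ 2 * z.2 + z.1‖ ^ 2) + Real.log (1 + ‖z.2‖ ^ 2)

theorem ne_of_trW2 {z : E} (h : tr 2 z ∈ W) : z.1 ≠ 0 ∧ z.2 ≠ 0 := by
  have h1 : z.1 * z.2 ≠ 0 := fun h0 => h.1 (by
    show z.1 * z.2 ∈ Lam
    rw [h0]; exact Lam_zero)
  exact ⟨left_ne_zero_of_mul h1, right_ne_zero_of_mul h1⟩

theorem ne_of_trW3 {z : E} (h : tr 3 z ∈ W) : z.1 ≠ 0 ∧ z.2 ≠ 0 := by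
  have h1 : z.1 * z.2 ≠ 0 := fun h0 => h.1 (by
    show z.1 * z.2 ∈ Lam
    rw [h0]; exact Lam_zero)
  exact ⟨left_ne_zero_of_mul h1, right_ne_zero_of_mul h1⟩

theorem ne_of_trW4 {z : E} (h : tr 4 z ∈ W) : z.1 ≠ 0 := fun h0 => h.1 (by
    show z.1 ∈ Lam
    rw [h0]; exact Lam_zero)

theorem rho2_eq {z : E} (hz : z ∈ V 2) (h : tr 2 z ∈ W) :
    Phi (tr 2 z) = rho 2 z - Real.log (‖z.1‖ ^ 2) := by
  obtain ⟨h1, h2⟩ := ne_of_trW2 h
  have e1 : (tr 2 z).1 = z.1 * z.2 := rfl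
  have e2 : (tr 2 z).2 = z.2 + z.1 * z.2 := rfl
  have e3 : rho 2 z = 2 * Real.log (1 + ‖z.2 + z.1 * z.2‖ ^ 2) +
    Real.log (1 + ‖z.1 ^ 2 * z.2‖ ^ 2) := rfl
  have p1 := sq_pos h1
  have p2 := sq_pos h2
  unfold Phi L2
  rw [e3, e1, e2, tr2_1 hz, chi_small hz.1, one_mul, add_sub_cancel_right]
  have e4 : ‖z.2‖ ^ 2 + ‖z.1 * z.2‖ ^ 4 = ‖z.2‖ ^ 2 * (1 + ‖z.1 ^ 2 * z.2‖ ^ 2) := by
    simp only [norm_mul, norm_pow]
    ring
  have e5 : ‖z.1 * z.2‖ ^ 2 = ‖z.1‖ ^ 2 * ‖z.2‖ ^ 2 := by rw [norm_mul, mul_pow]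
  rw [e4, e5, Real.log_div (by positivity) (by positivity),
    Real.log_mul (by positivity) (by positivity), Real.log_mul p1.ne' p2.ne']
  ring

theorem rho3_eq {z : E} (hz : z ∈ V 3) (h : tr 3 z ∈ W) :
    Phi (tr 3 z) = rho 3 z + Real.log (‖z.2‖ ^ 2) := by
  obtain ⟨h1, h2⟩ := ne_of_trW3 h
  have e1 : (tr 3 z).1 = z.1 * z.2 := rfl
  have e2 : (tr 3 z).2 = z.1 * z.2 ^ 2 + z.1 * z.2 := rfl
  have e3 : rho 3 z = 2 * Real.log (1 + ‖z.1 * z.2 ^ 2 + z.1 * z.2‖ ^ 2) +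
    Real.log (1 + ‖z.1‖ ^ 2) := rfl
  have p1 := sq_pos h1
  have p2 := sq_pos h2
  unfold Phi L2
  rw [e3, e1, e2, tr3_1 hz, chi_small hz.1, one_mul, add_sub_cancel_right]
  have e4 : ‖z.1 * z.2 ^ 2‖ ^ 2 + ‖z.1 * z.2‖ ^ 4 =
      (‖z.1‖ ^ 2 * ‖z.2‖ ^ 2) * (‖z.2‖ ^ 2 * (1 + ‖z.1‖ ^ 2)) := by
    simp only [norm_mul, norm_pow]
    ring
  have e5 : ‖z.1 * z.2‖ ^ 2 = ‖z.1‖ ^ 2 * ‖z.2‖ ^ 2 := by rw [norm_mul, mul_pow]
  rw [e4, e5, Real.log_div (by positivity) (by positivity),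
    Real.log_mul (by positivity) (by positivity),
    Real.log_mul p2.ne' (by positivity), Real.log_mul p1.ne' p2.ne']
  ring

theorem rho4_eq {z : E} (hz : z ∈ V 4) (h : tr 4 z ∈ W) :
    Phi (tr 4 z) = rho 4 z + Real.log (‖z.1‖ ^ 2) := by
  have h1 := ne_of_trW4 h
  have e1 : (tr 4 z).1 = z.1 := rfl
  have e2 : (tr 4 z).2 = z.1 ^ 2 * z.2 + z.1 := rfl
  have e3 : rho 4 z = 2 * Real.log (1 + ‖z.1 ^ 2 * z.2 + z.1‖ ^ 2) +
    Real.log (1 + ‖z.2‖ ^ 2) := rfl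
  have p1 := sq_pos h1
  unfold Phi L2
  rw [e3, e1, e2, tr4_1 hz, chi_small hz.1, one_mul, add_sub_cancel_right]
  have e4 : ‖z.1 ^ 2 * z.2‖ ^ 2 + ‖z.1‖ ^ 4 =
      (‖z.1‖ ^ 2 * ‖z.1‖ ^ 2) * (1 + ‖z.2‖ ^ 2) := by
    simp only [norm_mul, norm_pow]
    ring
  rw [e4, Real.log_div (by positivity) (by positivity), Real.log_mul (by positivity) (by positivity),
    Real.log_mul p1.ne' p1.ne']
  ring

theorem rho_cd {n : WithTop ℕ∞} (j : Fin 5) (z : E) : ContDiffAt ℝ n (rho j) z := by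
  fin_cases j
  · exact contDiffAt_const
  · exact contDiffAt_const
  · exact (contDiffAt_const.mul (cd_log_1 (contDiffAt_snd.add
      (contDiffAt_fst.mul contDiffAt_snd)))).add (cd_log_1 ((contDiffAt_fst.pow 2).mul
        contDiffAt_snd))
  · exact (contDiffAt_const.mul (cd_log_1 ((contDiffAt_fst.mul (contDiffAt_snd.pow 2)).add
      (contDiffAt_fst.mul contDiffAt_snd)))).add (cd_log_1 contDiffAt_fst)
  · exact (contDiffAt_const.mul (cd_log_1 (((contDiffAt_fst.pow 2).mul contDiffAt_snd).add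
      contDiffAt_fst))).add (cd_log_1 contDiffAt_snd)

theorem lv_log_fst {z : E} (v : E) (h : z.1 ≠ 0) :
    lv (fun t : E => Real.log (‖t.1‖ ^ 2)) z v = 0 := lv_log_one v contDiffAt_fst h

theorem lv_log_snd {z : E} (v : E) (h : z.2 ≠ 0) :
    lv (fun t : E => Real.log (‖t.2‖ ^ 2)) z v = 0 := lv_log_one v contDiffAt_snd h

theorem cd_log_fst {n : WithTop ℕ∞} {z : E} (h : z.1 ≠ 0) :
    ContDiffAt ℝ n (fun t : E => Real.log (‖t.1‖ ^ 2)) z := cd_log_one contDiffAt_fst h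

theorem cd_log_snd {n : WithTop ℕ∞} {z : E} (h : z.2 ≠ 0) :
    ContDiffAt ℝ n (fun t : E => Real.log (‖t.2‖ ^ 2)) z := cd_log_one contDiffAt_snd h

end Pool.Agent.U84.SP
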