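import Pool.Agent.U84.SP.Phi

set_option autoImplicit false
set_option linter.unusedSectionVars false

/-!
# The class `α`: the potentials
-/

open Set Topology Filter
open scoped ContDiff

namespace Pool.Agent.U84.SP

open Pool.Agent.Y184.SP

theorem smAt_of {f : E → ℝ} {z : E} (h : ∀ᶠ z' in 𝓝 z, ContDiffAt ℝ ∞ f z') : SmAt f z := h

/-- smoothness near a point of an open set -/
theorem smAt_open {f : E → ℝ} {z : E} {O : Set E} (hO : IsOpen O) (hz : z ∈ O)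
    (h : ∀ z' ∈ O, ContDiffAt ℝ ∞ f z') : SmAt f z := by
  filter_upwards [hO.mem_nhds hz] with z' hz'
  exact h z' hz'

theorem red_open {c : ℝ} : IsOpen {z : E | ‖red z.1‖ < c} :=
  isOpen_lt (norm_red_cont.comp continuous_fst) continuous_const

/-- potentials in the first coordinate system near a point of `Λ × ℂ` -/
theorem pot0_Lam {z : E} (h1 : z.1 ∈ Lam) (h2 : z.2 ≠ 0) :
    PotAt Phi 0 z (fun t => 3 * Real.log (1 + ‖t.2‖ ^ 2) + chi t.1 * L2 t) := by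
  have hO : IsOpen {t : E | ‖red t.1‖ < 1 / 8 ∧ t.2 ≠ 0} :=
    red_open.inter (isClosed_singleton.isOpen_compl.preimage continuous_snd)
  have hz : z ∈ {t : E | ‖red t.1‖ < 1 / 8 ∧ t.2 ≠ 0} := by
    refine ⟨?_, h2⟩
    show ‖red z.1‖ < 1 / 8
    rw [red_eq_zero.2 h1, norm_zero]
    norm_num
  refine ⟨smAt_open hO hz fun t ht => ?_, ?_⟩
  · exact (contDiffAt_const.mul (cd_log_1 contDiffAt_snd)).add (chi_mul_cd le_rfl fun h3 =>
      L2_cd (by linarith) (Or.inl ht.2))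
  · filter_upwards [hO.mem_nhds hz] with t ht hW v
    have h4 : (fun s : E => 3 * Real.log (1 + ‖s.2‖ ^ 2) + chi s.1 * L2 s - Phi (tr 0 s)) =ᶠ[𝓝 t]
        fun s : E => Real.log (‖red s.1‖ ^ 2) := by
      filter_upwards [hO.mem_nhds ht] with s hs
      have e : tr 0 s = s := rfl
      rw [e]
      unfold Phi
      rw [chi_one hs.1.le]
      ring
    rw [lev_lv, lv_congr v h4]
    exact lv_log_one v (red_cd (by linarith [ht.1])) (red_ne hW.1)

theorem pot0_ne {z : E} (h1 : z.1 ∉ Lam) : PotAt Phi 0 z Phi := by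
  have hO : IsOpen {t : E | t.1 ∉ Lam} := Lam_closed.isOpen_compl.preimage continuous_fst
  refine ⟨smAt_open hO h1 fun t ht => Phi_cd ht, ?_⟩
  filter_upwards with t ht v
  exact zero_pot _ _ _

/-- the function `log ((|1 - r y'|² + |r|⁴ |y'|²) / (1 + |y'|²))` -/
noncomputable def L2' (z : E) : ℝ :=
  Real.log ((‖1 - red z.1 * z.2‖ ^ 2 + ‖red z.1‖ ^ 4 * ‖z.2‖ ^ 2) / (1 + ‖z.2‖ ^ 2))

theorem num2'_pos (r y : ℂ) : 0 < ‖1 - r * y‖ ^ 2 + ‖r‖ ^ 4 * ‖y‖ ^ 2 := by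
  by_cases hr : r * y = 0
  · rw [hr, sub_zero, norm_one]
    positivity
  · have h1 := norm_pos_iff.2 (left_ne_zero_of_mul hr)
    have h2 := norm_pos_iff.2 (right_ne_zero_of_mul hr)
    positivity

theorem L2'_cd {n : WithTop ℕ∞} {z : E} (h : ‖red z.1‖ < 1 / 2) : ContDiffAt ℝ n L2' z := by
  have hr := red_cdR (n := n) h
  have h3 := num2'_pos (red z.1) z.2
  unfold L2'
  refine ContDiffAt.log (ContDiffAt.div ?_ ?_ (by positivity)) (by positivity)
  · have h4 : ContDiffAt ℝ n (fun t : E => ‖red t.1‖ ^ 4) z := by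
      have := (hr.norm_sq ℝ).pow 2
      refine this.congr_of_eventuallyEq (Eventually.of_forall fun t => ?_)
      show ‖red t.1‖ ^ 4 = (‖red t.1‖ ^ 2) ^ 2
      ring
    exact ((contDiffAt_const.sub (hr.mul contDiffAt_snd)).norm_sq ℝ).add
      (h4.mul (contDiffAt_snd.norm_sq ℝ))
  · exact contDiffAt_const.add (contDiffAt_snd.norm_sq ℝ)

theorem L2_inv {z : E} (h : z.2 ≠ 0) : L2 (tr 1 z) = L2' z := by
  have e : tr 1 z = (z.1, z.2⁻¹) := rfl
  have h1 := sq_pos h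
  unfold L2 L2'
  rw [e]
  congr 1
  have h2 : ‖z.2⁻¹ - red z.1‖ ^ 2 = ‖1 - red z.1 * z.2‖ ^ 2 / ‖z.2‖ ^ 2 := by
    rw [← div_pow, ← norm_div]
    congr 2
    field_simp
  show (‖z.2⁻¹ - red z.1‖ ^ 2 + ‖red z.1‖ ^ 4) / (1 + ‖z.2⁻¹‖ ^ 2) = _
  rw [h2, norm_inv, inv_pow]
  field_simp
  ring

theorem log_inv_1 {a : ℂ} (h : a ≠ 0) :
    Real.log (1 + ‖a⁻¹‖ ^ 2) = Real.log (1 + ‖a‖ ^ 2) - Real.log (‖a‖ ^ 2) := by
  have h1 := sq_pos h
  rw [← Real.log_div (by positivity) h1.ne', norm_inv, inv_pow]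
  congr 1
  field_simp
  ring

theorem pot1_Lam {z : E} (h1 : z.1 ∈ Lam) :
    PotAt Phi 1 z (fun t => 3 * Real.log (1 + ‖t.2‖ ^ 2) + chi t.1 * L2' t) := by
  have hO : IsOpen {t : E | ‖red t.1‖ < 1 / 8} := red_open
  have hz : z ∈ {t : E | ‖red t.1‖ < 1 / 8} := by
    show ‖red z.1‖ < 1 / 8
    rw [red_eq_zero.2 h1, norm_zero]
    norm_num
  refine ⟨smAt_open hO hz fun t ht => ?_, ?_⟩
  · exact (contDiffAt_const.mul (cd_log_1 contDiffAt_snd)).add (chi_mul_cd le_rfl fun h3 =>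
      L2'_cd (by linarith))
  · filter_upwards [hO.mem_nhds hz] with t ht hW v
    have ht2 : t.2 ≠ 0 := (W_ne hW).resolve_left (by simp)
    have hO2 : IsOpen {s : E | s.2 ≠ 0} := isClosed_singleton.isOpen_compl.preimage continuous_snd
    have h4 : (fun s : E => 3 * Real.log (1 + ‖s.2‖ ^ 2) + chi s.1 * L2' s - Phi (tr 1 s)) =ᶠ[𝓝 t]
        fun s : E => Real.log (‖red s.1‖ ^ 2) + 3 * Real.log (‖s.2‖ ^ 2) := by
      filter_upwards [hO.mem_nhds ht, hO2.mem_nhds ht2] with s hs hs2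
      unfold Phi
      rw [L2_inv hs2]
      have e : tr 1 s = (s.1, s.2⁻¹) := rfl
      rw [e]
      simp only []
      have hs1 : ‖red s.1‖ < 1 / 8 := hs
      rw [chi_one hs1.le, log_inv_1 hs2]
      ring
    have ht1 : ‖red t.1‖ < 1 / 8 := ht
    have hr0 : red t.1 ≠ 0 := red_ne hW.1
    rw [lev_lv, lv_congr v h4, lv_add v (cd_log_one (red_cdR (by linarith)) hr0)
      (contDiffAt_const.mul (cd_log_snd ht2)), lv_smul v 3 (cd_log_snd ht2), lv_log_snd v ht2,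
      lv_log_one v (red_cd (by linarith)) hr0]
    ring

theorem pot1_ne {z : E} (h1 : z.1 ∉ Lam) :
    PotAt Phi 1 z (fun t => 3 * Real.log (1 + ‖t.2‖ ^ 2) +
      chi t.1 * (L2' t - Real.log (‖red t.1‖ ^ 2))) := by
  have hO : IsOpen {t : E | t.1 ∉ Lam} := Lam_closed.isOpen_compl.preimage continuous_fst
  refine ⟨smAt_open hO h1 fun t ht => ?_, ?_⟩
  · exact (contDiffAt_const.mul (cd_log_1 contDiffAt_snd)).add (chi_mul_cd le_rfl fun h3 =>
      (L2'_cd (by linarith)).sub (log_red_cd (by linarith) (red_ne ht)))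
  · filter_upwards with t hW v
    have ht2 : t.2 ≠ 0 := (W_ne hW).resolve_left (by simp)
    have hO2 : IsOpen {s : E | s.2 ≠ 0} := isClosed_singleton.isOpen_compl.preimage continuous_snd
    have h4 : (fun s : E => 3 * Real.log (1 + ‖s.2‖ ^ 2) +
        chi s.1 * (L2' s - Real.log (‖red s.1‖ ^ 2)) - Phi (tr 1 s)) =ᶠ[𝓝 t]
        fun s : E => 3 * Real.log (‖s.2‖ ^ 2) := by
      filter_upwards [hO2.mem_nhds ht2] with s hs2
      unfold Phi
      rw [L2_inv hs2]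
      have e : tr 1 s = (s.1, s.2⁻¹) := rfl
      rw [e]
      simp only []
      rw [log_inv_1 hs2]
      ring
    rw [lev_lv, lv_congr v h4, lv_smul v 3 (cd_log_snd ht2), lv_log_snd v ht2, mul_zero]

theorem rho2_pot {z : E} (hz : z ∈ V 2) : PotAt Phi 2 z (rho 2) := by
  refine ⟨Eventually.of_forall fun t => rho_cd 2 t, ?_⟩
  filter_upwards [(V_open 2).mem_nhds hz] with t ht hW v
  have h0 := (ne_of_trW2 hW).1
  have h4 : (fun s : E => rho 2 s - Phi (tr 2 s)) =ᶠ[𝓝 t] fun s : E => Real.log (‖s.1‖ ^ 2) := by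
    filter_upwards [(V_open 2).mem_nhds ht, tr_W_open hW] with s hs hs2
    rw [rho2_eq hs hs2]
    ring
  rw [lev_lv, lv_congr v h4, lv_log_fst v h0]

theorem rho3_pot {z : E} (hz : z ∈ V 3) : PotAt Phi 3 z (rho 3) := by
  refine ⟨Eventually.of_forall fun t => rho_cd 3 t, ?_⟩
  filter_upwards [(V_open 3).mem_nhds hz] with t ht hW v
  have h0 := (ne_of_trW3 hW).2
  have h4 : (fun s : E => rho 3 s - Phi (tr 3 s)) =ᶠ[𝓝 t] fun s : E => -Real.log (‖s.2‖ ^ 2) := by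
    filter_upwards [(V_open 3).mem_nhds ht, tr_W_open hW] with s hs hs2
    rw [rho3_eq hs hs2]
    ring
  rw [lev_lv, lv_congr v h4, lv_neg v (cd_log_snd h0), lv_log_snd v h0, neg_zero]

theorem rho4_pot {z : E} (hz : z ∈ V 4) : PotAt Phi 4 z (rho 4) := by
  refine ⟨Eventually.of_forall fun t => rho_cd 4 t, ?_⟩
  filter_upwards [(V_open 4).mem_nhds hz] with t ht hW v
  have h0 := ne_of_trW4 hW
  have h4 : (fun s : E => rho 4 s - Phi (tr 4 s)) =ᶠ[𝓝 t] fun s : E => -Real.log (‖s.1‖ ^ 2) := by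
    filter_upwards [(V_open 4).mem_nhds ht, tr_W_open hW] with s hs hs2
    rw [rho4_eq hs hs2]
    ring
  rw [lev_lv, lv_congr v h4, lv_neg v (cd_log_fst h0), lv_log_fst v h0, neg_zero]

/-- the class `α` -/
theorem t_Phi : StPhi := by
  refine ⟨Phi_per, fun j z hz => ?_⟩
  fin_cases j
  · by_cases h : z.1 ∈ Lam
    · exact ⟨_, pot0_Lam h (hz.resolve_left (fun h1 => h1 h))⟩
    · exact ⟨_, pot0_ne h⟩
  · by_cases h : z.1 ∈ Lam
    · exact ⟨_, pot1_Lam h⟩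
    · exact ⟨_, pot1_ne h⟩
  · exact ⟨_, rho2_pot hz⟩
  · exact ⟨_, rho3_pot hz⟩
  · exact ⟨_, rho4_pot hz⟩

end Pool.Agent.U84.SP
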