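import Pool.Agent.U84.SP.Log

set_option autoImplicit false
set_option linter.unusedSectionVars false

/-!
# The lattice, the cut-off function and the coordinate systems
-/

open Set Topology Filter
open scoped ContDiff

namespace Pool.Agent.U84.SP

open Pool.Agent.Y184.SP

theorem Lam_zero : (0 : ℂ) ∈ Lam := ⟨0, 0, by simp⟩

theorem Lam_add {a b : ℂ} (ha : a ∈ Lam) (hb : b ∈ Lam) : a + b ∈ Lam := by
  obtain ⟨m, n, rfl⟩ := ha
  obtain ⟨m', n', rfl⟩ := hb
  exact ⟨m + m', n + n', by push_cast; ring⟩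

theorem Lam_neg {a : ℂ} (ha : a ∈ Lam) : -a ∈ Lam := by
  obtain ⟨m, n, rfl⟩ := ha
  exact ⟨-m, -n, by push_cast; ring⟩

theorem Lam_sub {a b : ℂ} (ha : a ∈ Lam) (hb : b ∈ Lam) : a - b ∈ Lam := by
  rw [sub_eq_add_neg]; exact Lam_add ha (Lam_neg hb)

/-- nonzero elements of the lattice have length at least `1` -/
theorem Lam_norm {a : ℂ} (ha : a ∈ Lam) (h : ‖a‖ < 1) : a = 0 := by
  obtain ⟨m, n, rfl⟩ := ha
  have h1 : |((m : ℂ) + n * Complex.I).re| < 1 := (Complex.abs_re_le_norm _).trans_lt h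
  have h2 : |((m : ℂ) + n * Complex.I).im| < 1 := (Complex.abs_im_le_norm _).trans_lt h
  simp at h1 h2
  have h3 : m = 0 := by
    have : |m| < 1 := by exact_mod_cast h1
    exact Int.abs_lt_one_iff.1 this
  have h4 : n = 0 := by
    have : |n| < 1 := by exact_mod_cast h2
    exact Int.abs_lt_one_iff.1 this
  simp [h3, h4]

theorem sub_red (x : ℂ) : x - red x ∈ Lam :=
  ⟨round x.re, round x.im, by unfold red; ring⟩

theorem red_add (x : ℂ) {l : ℂ} (hl : l ∈ Lam) : red (x + l) = red x := by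
  obtain ⟨m, n, rfl⟩ := hl
  unfold red
  have h1 : (x + (m + n * Complex.I)).re = x.re + m := by simp
  have h2 : (x + (m + n * Complex.I)).im = x.im + n := by simp
  rw [h1, h2, round_add_intCast, round_add_intCast]
  push_cast
  ring

theorem abs_re_red (x : ℂ) : |(red x).re| ≤ 1 / 2 := by
  have : (red x).re = x.re - round x.re := by simp [red]
  rw [this]
  exact abs_sub_round _

theorem abs_im_red (x : ℂ) : |(red x).im| ≤ 1 / 2 := by
  have : (red x).im = x.im - round x.im := by simp [red]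
  rw [this]
  exact abs_sub_round _

theorem red_self {x : ℂ} (h : ‖x‖ < 1 / 2) : red x = x := by
  have h1 : |x.re| < 1 / 2 := (Complex.abs_re_le_norm _).trans_lt h
  have h2 : |x.im| < 1 / 2 := (Complex.abs_im_le_norm _).trans_lt h
  rw [abs_lt] at h1 h2
  have e1 : round x.re = 0 := by
    rw [round_eq_zero_iff]
    exact ⟨by linarith [h1.1], by linarith [h1.2]⟩
  have e2 : round x.im = 0 := by
    rw [round_eq_zero_iff]
    exact ⟨by linarith [h2.1], by linarith [h2.2]⟩
  simp [red, e1, e2]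

theorem red_near {x l : ℂ} (hl : l ∈ Lam) (h : ‖x - l‖ < 1 / 2) : red x = x - l := by
  have h1 := red_add (x - l) hl
  rw [sub_add_cancel] at h1
  rw [h1, red_self h]

theorem round_min (t : ℝ) (n : ℤ) : |t - round t| ≤ |t - n| := round_le t n

theorem norm_red_le (x : ℂ) {l : ℂ} (hl : l ∈ Lam) : ‖red x‖ ≤ ‖x - l‖ := by
  obtain ⟨m, n, rfl⟩ := hl
  rw [← sq_le_sq₀ (norm_nonneg _) (norm_nonneg _), Complex.sq_norm, Complex.sq_norm,
    Complex.normSq_apply, Complex.normSq_apply]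
  have e1 : (red x).re = x.re - round x.re := by simp [red]
  have e2 : (red x).im = x.im - round x.im := by simp [red]
  have e3 : (x - (m + n * Complex.I)).re = x.re - m := by simp
  have e4 : (x - (m + n * Complex.I)).im = x.im - n := by simp
  rw [e1, e2, e3, e4]
  have h1 := round_min x.re m
  have h2 := round_min x.im n
  have h3 := mul_self_le_mul_self (abs_nonneg _) h1
  have h4 := mul_self_le_mul_self (abs_nonneg _) h2
  rw [abs_mul_abs_self, abs_mul_abs_self] at h3 h4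
  linarith

theorem norm_red_lip (x y : ℂ) : ‖red x‖ ≤ ‖red y‖ + ‖x - y‖ := by
  have h1 := norm_red_le x (sub_red y)
  have h2 : x - (y - red y) = red y + (x - y) := by ring
  rw [h2] at h1
  exact h1.trans (norm_add_le _ _)

theorem norm_red_cont : Continuous fun x : ℂ => ‖red x‖ := by
  rw [Metric.continuous_iff]
  intro x ε hε
  refine ⟨ε, hε, fun y hy => ?_⟩
  rw [Real.dist_eq, abs_lt]
  rw [dist_eq_norm] at hy
  have h1 := norm_red_lip x y
  have h2 := norm_red_lip y x
  rw [norm_sub_rev] at h1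
  constructor <;> linarith

theorem red_eq_zero {x : ℂ} : red x = 0 ↔ x ∈ Lam := by
  constructor
  · intro h
    have := sub_red x
    rwa [h, sub_zero] at this
  · intro h
    have h1 := red_add 0 h
    rw [zero_add] at h1
    rw [h1, red_self (by simp)]

theorem red_ne {x : ℂ} (h : x ∉ Lam) : red x ≠ 0 := fun h1 => h (red_eq_zero.1 h1)

/-- near a point with `|red x| < 1/2` the function `red` is a translation -/
theorem red_ev {x : ℂ} (h : ‖red x‖ < 1 / 2) :
    ∀ᶠ y in 𝓝 x, red y = y - (x - red x) := by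
  have h1 : ∀ᶠ y in 𝓝 x, ‖y - (x - red x)‖ < 1 / 2 := by
    have hc : ContinuousAt (fun y : ℂ => ‖y - (x - red x)‖) x := by fun_prop
    apply hc.eventually_lt continuousAt_const
    simpa using h
  filter_upwards [h1] with y hy
  exact red_near (sub_red x) hy

theorem chi_one {x : ℂ} (h : ‖red x‖ ≤ 1 / 8) : chi x = 1 := by
  unfold chi
  apply bump.one_of_mem_closedBall
  simpa [bump] using h

theorem chi_zero {x : ℂ} (h : 1 / 4 ≤ ‖red x‖) : chi x = 0 := by
  unfold chi
  apply bump.zero_of_le_dist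
  simpa [bump] using h

theorem chi_nonneg (x : ℂ) : 0 ≤ chi x := bump.nonneg

theorem chi_le_one (x : ℂ) : chi x ≤ 1 := bump.le_one

theorem chi_per (x : ℂ) {l : ℂ} (hl : l ∈ Lam) : chi (x + l) = chi x := by
  unfold chi
  rw [red_add x hl]

theorem chi_smooth : ContDiff ℝ ∞ chi := by
  rw [contDiff_iff_contDiffAt]
  intro x
  rcases lt_or_ge (‖red x‖) (3 / 8) with h | h
  · have h1 := red_ev (x := x) (by linarith)
    have h2 : ContDiffAt ℝ ∞ (fun y : ℂ => bump (y - (x - red x))) x :=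
      (bump.contDiff.contDiffAt).comp x (contDiffAt_id.sub contDiffAt_const)
    refine h2.congr_of_eventuallyEq ?_
    filter_upwards [h1] with y hy
    unfold chi
    rw [hy]
  · have h1 : ∀ᶠ y in 𝓝 x, 1 / 4 < ‖red y‖ := by
      apply (continuousAt_const).eventually_lt norm_red_cont.continuousAt
      linarith
    refine (contDiffAt_const (c := (0 : ℝ))).congr_of_eventuallyEq ?_
    filter_upwards [h1] with y hy
    exact chi_zero hy.le

/-- near a point with `|red x| < 1/8` the function `chi` is `1` -/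
theorem chi_ev {x : ℂ} (h : ‖red x‖ < 1 / 8) : ∀ᶠ y in 𝓝 x, chi y = 1 := by
  have h1 : ∀ᶠ y in 𝓝 x, ‖red y‖ < 1 / 8 :=
    norm_red_cont.continuousAt.eventually_lt continuousAt_const h
  filter_upwards [h1] with y hy
  exact chi_one hy.le

theorem chi_small {x : ℂ} (h : ‖x‖ < 1 / 8) : chi x = 1 := by
  apply chi_one
  rw [red_self (by linarith)]
  exact h.le

theorem notMem_Lam {x : ℂ} (h : ‖x‖ < 1) (h0 : x ≠ 0) : x ∉ Lam := fun h1 => h0 (Lam_norm h1 h)

theorem Lam_isolated (x : ℂ) : ∀ᶠ y in 𝓝[≠] x, y ∉ Lam := by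
  by_cases hx : x ∈ Lam
  · have h1 : ∀ᶠ y in 𝓝 x, ‖y - x‖ < 1 := by
      have hc : ContinuousAt (fun y : ℂ => ‖y - x‖) x := by fun_prop
      apply hc.eventually_lt continuousAt_const
      simp
    filter_upwards [nhdsWithin_le_nhds h1, self_mem_nhdsWithin] with y hy hy2 hy3
    exact hy2 (sub_eq_zero.1 (Lam_norm (Lam_sub hy3 hx) hy))
  · have h1 : ∀ᶠ y in 𝓝 x, ‖red y‖ ≠ 0 := by
      apply norm_red_cont.continuousAt.eventually_ne
      simpa using red_ne hx
    filter_upwards [nhdsWithin_le_nhds h1] with y hy hy3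
    exact hy (by rw [red_eq_zero.2 hy3, norm_zero])

theorem Lam_closed : IsClosed Lam := by
  have : Lam = {x | ‖red x‖ = 0} := by
    ext x
    simp [red_eq_zero]
  rw [this]
  exact isClosed_eq norm_red_cont continuous_const

theorem W_open : IsOpen W := by
  have h1 : W = (fun z : E => z.1) ⁻¹' Lamᶜ ∩ (fun z : E => z.2) ⁻¹' {0}ᶜ := rfl
  rw [h1]
  exact (Lam_closed.isOpen_compl.preimage continuous_fst).inter
    (isClosed_singleton.isOpen_compl.preimage continuous_snd)

theorem V_open (j : Fin 5) : IsOpen (V j) := by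
  fin_cases j
  · show IsOpen {z : E | z.1 ∉ Lam ∨ z.2 ≠ 0}
    exact (Lam_closed.isOpen_compl.preimage continuous_fst).union
      (isClosed_singleton.isOpen_compl.preimage continuous_snd)
  · exact isOpen_univ
  · show IsOpen {z : E | ‖z.1 * z.2‖ < 1 / 8 ∧ ‖z.2‖ < 1 / 8}
    have h1 : Continuous fun z : E => ‖z.1 * z.2‖ := by fun_prop
    have h2 : Continuous fun z : E => ‖z.2‖ := by fun_prop
    exact (isOpen_lt h1 continuous_const).inter (isOpen_lt h2 continuous_const)
  · show IsOpen {z : E | ‖z.1 * z.2‖ < 1 / 8 ∧ ‖z.1 * z.2 ^ 2‖ < 1 / 8}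
    have h1 : Continuous fun z : E => ‖z.1 * z.2‖ := by fun_prop
    have h2 : Continuous fun z : E => ‖z.1 * z.2 ^ 2‖ := by fun_prop
    exact (isOpen_lt h1 continuous_const).inter (isOpen_lt h2 continuous_const)
  · show IsOpen {z : E | ‖z.1‖ < 1 / 8 ∧ ‖z.1 ^ 2 * z.2‖ < 1 / 8}
    have h1 : Continuous fun z : E => ‖z.1‖ := by fun_prop
    have h2 : Continuous fun z : E => ‖z.1 ^ 2 * z.2‖ := by fun_prop
    exact (isOpen_lt h1 continuous_const).inter (isOpen_lt h2 continuous_const)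

/-- the coordinate changes are holomorphic -/
theorem tr_cd {j : Fin 5} {z : E} (h : j ≠ 1 ∨ z.2 ≠ 0) : ContDiffAt ℂ ω (tr j) z := by
  fin_cases j
  · exact contDiffAt_id
  · have hz : z.2 ≠ 0 := h.resolve_left (fun h => h rfl)
    exact contDiffAt_fst.prodMk (contDiffAt_snd.inv hz)
  · exact (contDiffAt_fst.mul contDiffAt_snd).prodMk
      (contDiffAt_snd.add (contDiffAt_fst.mul contDiffAt_snd))
  · exact (contDiffAt_fst.mul contDiffAt_snd).prodMk
      ((contDiffAt_fst.mul (contDiffAt_snd.pow 2)).add (contDiffAt_fst.mul contDiffAt_snd))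
  · exact contDiffAt_fst.prodMk
      (((contDiffAt_fst.pow 2).mul contDiffAt_snd).add contDiffAt_fst)

theorem W_ne {j : Fin 5} {z : E} (h : tr j z ∈ W) : j ≠ 1 ∨ z.2 ≠ 0 := by
  rw [or_iff_not_imp_left, not_not]
  rintro rfl h0
  have h1 : (tr 1 z).2 ≠ 0 := h.2
  apply h1
  show z.2⁻¹ = 0
  rw [h0, inv_zero]

theorem tr_W_open {j : Fin 5} {z : E} (h : tr j z ∈ W) : ∀ᶠ z' in 𝓝 z, tr j z' ∈ W :=
  (tr_cd (W_ne h)).continuousAt.eventually (W_open.mem_nhds h)

/-- a direction in which the points near a point `z` are in `W` -/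
theorem dense_dir (j : Fin 5) {z : E} (hz : z ∈ V j) :
    ∃ d : E, ∀ᶠ t in 𝓝[≠] (0 : ℂ), tr j (z + t • d) ∈ W := by
  have sh : ∀ a : ℂ, ∀ᶠ t in 𝓝[≠] (0 : ℂ), a + t ≠ 0 := by
    intro a
    have h1 : ∀ᶠ t in 𝓝[≠] (0 : ℂ), t ∉ ({-a} : Set ℂ) \ {0} := by
      have : IsClosed (({-a} : Set ℂ) \ {0}) := ((Set.finite_singleton _).sdiff).isClosed
      exact nhdsWithin_le_nhds (this.isOpen_compl.mem_nhds (by simp))
    filter_upwards [h1, self_mem_nhdsWithin] with t ht ht2 h
    exact ht ⟨by simp [eq_neg_of_add_eq_zero_right h], ht2⟩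
  have shL : ∀ a : ℂ, ∀ᶠ t in 𝓝[≠] (0 : ℂ), a + t ∉ Lam := by
    intro a
    have h1 := Lam_isolated a
    have h2 : Tendsto (fun t : ℂ => a + t) (𝓝[≠] 0) (𝓝[≠] a) := by
      apply tendsto_nhdsWithin_of_tendsto_nhds_of_eventually_within
      · have : Tendsto (fun t : ℂ => a + t) (𝓝 0) (𝓝 (a + 0)) := by
          exact (continuous_const.add continuous_id).tendsto 0
        rw [add_zero] at this
        exact this.mono_left nhdsWithin_le_nhds
      · filter_upwards [self_mem_nhdsWithin] with t ht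
        simpa using ht
    exact h2.eventually h1
  have near0 : ∀ {k : Fin 5} (d : E), z ∈ V k → ∀ᶠ t in 𝓝[≠] (0 : ℂ), z + t • d ∈ V k := by
    intro k d hk
    have h2 : Tendsto (fun t : ℂ => z + t • d) (𝓝 0) (𝓝 z) := by
      have : ContinuousAt (fun t : ℂ => z + t • d) 0 := by fun_prop
      simpa using this.tendsto
    exact nhdsWithin_le_nhds (h2.eventually ((V_open k).mem_nhds hk))
  fin_cases j
  · refine ⟨(1, 1), ?_⟩
    filter_upwards [shL z.1, sh z.2] with t h1 h2
    refine ⟨?_, ?_⟩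
    · simpa [tr] using h1
    · simpa [tr] using h2
  · refine ⟨(1, 1), ?_⟩
    filter_upwards [shL z.1, sh z.2] with t h1 h2
    refine ⟨?_, ?_⟩
    · simpa [tr] using h1
    · simpa [tr] using h2
  · refine ⟨(1, 1), ?_⟩
    filter_upwards [sh z.1, sh z.2, sh (1 + z.1), near0 (k := 2) (1, 1) hz] with t h1 h2 h3 h4
    simp only [V, mem_ofPred_eq, Prod.fst_add, Prod.snd_add, Prod.smul_fst, Prod.smul_snd,
      smul_eq_mul, mul_one] at h4
    have h5 : (z.1 + t) * (z.2 + t) ∉ Lam := notMem_Lam (by linarith [h4.1]) (mul_ne_zero h1 h2)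
    refine ⟨?_, ?_⟩
    · simpa [tr] using h5
    · have h6 : (z.2 + t) * (1 + z.1 + t) ≠ 0 := mul_ne_zero h2 h3
      have h7 : (z.2 + t) + (z.1 + t) * (z.2 + t) = (z.2 + t) * (1 + z.1 + t) := by ring
      simpa [tr, h7] using h6
  · refine ⟨(1, 1), ?_⟩
    filter_upwards [sh z.1, sh z.2, sh (1 + z.2), near0 (k := 3) (1, 1) hz] with t h1 h2 h3 h4
    simp only [V, mem_ofPred_eq, Prod.fst_add, Prod.snd_add, Prod.smul_fst, Prod.smul_snd,
      smul_eq_mul, mul_one] at h4
    have h5 : (z.1 + t) * (z.2 + t) ∉ Lam := notMem_Lam (by linarith [h4.1]) (mul_ne_zero h1 h2)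
    refine ⟨?_, ?_⟩
    · simpa [tr] using h5
    · have h6 : ((z.1 + t) * (z.2 + t)) * (1 + z.2 + t) ≠ 0 :=
        mul_ne_zero (mul_ne_zero h1 h2) h3
      have h7 : (z.1 + t) * (z.2 + t) ^ 2 + (z.1 + t) * (z.2 + t) =
          ((z.1 + t) * (z.2 + t)) * (1 + z.2 + t) := by ring
      have h8 : (z.1 + t) * (z.2 + t) ^ 2 + (z.1 + t) * (z.2 + t) ≠ 0 := by rw [h7]; exact h6
      simpa [tr] using h8
  · refine ⟨(1, 0), ?_⟩
    have h0 : ∀ᶠ t in 𝓝[≠] (0 : ℂ), (z.1 + t) * z.2 + 1 ≠ 0 := by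
      by_cases hz2 : z.2 = 0
      · filter_upwards with t
        rw [hz2]; simp
      · filter_upwards [sh (z.1 + z.2⁻¹)] with t ht h
        apply ht
        have h1 : z.2 * (z.1 + z.2⁻¹ + t) = (z.1 + t) * z.2 + 1 := by
          field_simp
          ring
        rw [h] at h1
        exact (mul_eq_zero.1 h1).resolve_left hz2
    filter_upwards [sh z.1, h0, near0 (k := 4) (1, 0) hz] with t h1 h3 h4
    simp only [V, mem_ofPred_eq, Prod.fst_add, Prod.snd_add, Prod.smul_fst, Prod.smul_snd,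
      smul_eq_mul, mul_one, mul_zero, add_zero] at h4
    have h5 : z.1 + t ∉ Lam := notMem_Lam (by linarith [h4.1]) h1
    refine ⟨?_, ?_⟩
    · simpa [tr] using h5
    · have h6 : (z.1 + t) * ((z.1 + t) * z.2 + 1) ≠ 0 := mul_ne_zero h1 h3
      have h7 : (z.1 + t) ^ 2 * z.2 + (z.1 + t) = (z.1 + t) * ((z.1 + t) * z.2 + 1) := by ring
      have h8 : (z.1 + t) ^ 2 * z.2 + (z.1 + t) ≠ 0 := by rw [h7]; exact h6
      simpa [tr] using h8

/-- the preimage of `W` is dense in the domain of each coordinate system -/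
theorem dense_V (j : Fin 5) {z : E} (hz : z ∈ V j) : z ∈ closure {z' | tr j z' ∈ W} := by
  obtain ⟨d, hd⟩ := dense_dir j hz
  rw [mem_closure_iff_frequently]
  have h2 : Tendsto (fun t : ℂ => z + t • d) (𝓝[≠] 0) (𝓝 z) := by
    have : ContinuousAt (fun t : ℂ => z + t • d) 0 := by fun_prop
    have h3 := this.tendsto.mono_left (nhdsWithin_le_nhds (s := {0}ᶜ))
    simpa using h3
  exact h2.frequently hd.frequently

/-- a continuous function which is nonnegative on `W` is nonnegative -/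
theorem nonneg_of_W (j : Fin 5) {z : E} (hz : z ∈ V j) {F : E → ℝ} (hF : ContinuousAt F z)
    (h : ∀ᶠ z' in 𝓝 z, tr j z' ∈ W → 0 ≤ F z') : 0 ≤ F z := by
  by_contra hlt
  push Not at hlt
  have h1 : ∀ᶠ z' in 𝓝 z, F z' < 0 := hF.eventually_lt continuousAt_const hlt
  have h2 := mem_closure_iff_frequently.1 (dense_V j hz)
  obtain ⟨z', ⟨h3, h4⟩, h5⟩ := ((h2.and_eventually h).and_eventually h1).exists
  exact absurd (h4 h3) (not_le.2 h5)

theorem eq_of_W (j : Fin 5) {z : E} (hz : z ∈ V j) {F G : E → ℝ} (hF : ContinuousAt F z)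
    (hG : ContinuousAt G z) (h : ∀ᶠ z' in 𝓝 z, tr j z' ∈ W → F z' = G z') : F z = G z := by
  have h1 := nonneg_of_W j hz (hF.sub hG) (h.mono fun z' h1 h2 => by
    show 0 ≤ F z' - G z'
    rw [h1 h2, sub_self])
  have h2 := nonneg_of_W j hz (hG.sub hF) (h.mono fun z' h1 h2 => by
    show 0 ≤ G z' - F z'
    rw [h1 h2, sub_self])
  have h1' : 0 ≤ F z - G z := h1
  have h2' : 0 ≤ G z - F z := h2
  linarith

end Pool.Agent.U84.SP
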