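import Pool.Agent.U84.SP.Par
import Pool.Agent.U84.SP.Tr

set_option autoImplicit false
set_option linter.unusedSectionVars false

/-!
# The surface: the points and the parametrisations
-/

open Set Topology Filter
open scoped ContDiff Manifold

namespace Pool.Agent.U84.SP

open Pool.Agent.Y184.SP

/-- the lattice `ℤ[i]` as a subgroup -/
def LamG : AddSubgroup ℂ where
  carrier := Lam
  zero_mem' := Lam_zero
  add_mem' := Lam_add
  neg_mem' := Lam_neg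

theorem mk_eq {a b : ℂ} : ((a : ℂ ⧸ LamG) = (b : ℂ ⧸ LamG)) ↔ a - b ∈ Lam := by
  rw [QuotientAddGroup.eq]
  show -a + b ∈ Lam ↔ a - b ∈ Lam
  constructor
  · intro h
    have := Lam_neg h
    convert this using 1
    ring
  · intro h
    have := Lam_neg h
    convert this using 1
    ring

theorem mk_small {a b : ℂ} (h : (a : ℂ ⧸ LamG) = (b : ℂ ⧸ LamG)) (h1 : ‖a - b‖ < 1) : a = b :=
  sub_eq_zero.1 (Lam_norm (mk_eq.1 h) h1)

theorem mk_small' {a b : ℂ} (h : (a : ℂ ⧸ LamG) = (b : ℂ ⧸ LamG)) (h1 : ‖a‖ < 1 / 8)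
    (h2 : ‖b‖ < 1 / 8) : a = b :=
  mk_small h ((norm_sub_le a b).trans_lt (by linarith))

theorem mk_zero_small {a : ℂ} (h : (a : ℂ ⧸ LamG) = 0) (h1 : ‖a‖ < 1 / 8) : a = 0 :=
  mk_small' (b := 0) h h1 (by rw [norm_zero]; norm_num)

/-- the points of the surface: `fin b y` is the point `(b, y)` of `B × ℂ` (for `(b, y) ≠ (0, 0)`),
`inf b` is the point `(b, ∞)`, `e1 s` and `e2 t` are the points of the exceptional curves outside
their intersection point, which is `fin 0 0` -/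
inductive Pt : Type
  | fin (b : ℂ ⧸ LamG) (y : ℂ) : Pt
  | inf (b : ℂ ⧸ LamG) : Pt
  | e1 (s : ℂ) : Pt
  | e2 (t : ℂ) : Pt

open Classical in
/-- the parametrisations -/
noncomputable def ph : Fin 5 → E → Pt
  | 0 => fun z => Pt.fin z.1 z.2
  | 1 => fun z => if z.2 = 0 then Pt.inf z.1 else Pt.fin z.1 z.2⁻¹
  | 2 => fun z => if z.2 = 0 then Pt.e1 z.1 else
      Pt.fin ((z.1 * z.2 : ℂ) : ℂ ⧸ LamG) (z.2 + z.1 * z.2)
  | 3 => fun z => if z.1 = 0 then (if z.2 = 0 then Pt.fin 0 0 else Pt.e1 z.2⁻¹) else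
      (if z.2 = 0 then Pt.e2 z.1⁻¹ else
        Pt.fin ((z.1 * z.2 : ℂ) : ℂ ⧸ LamG) (z.1 * z.2 ^ 2 + z.1 * z.2))
  | 4 => fun z => if z.1 = 0 then Pt.e2 z.2 else
      Pt.fin (z.1 : ℂ ⧸ LamG) (z.1 ^ 2 * z.2 + z.1)

theorem ph0 (z : E) : ph 0 z = Pt.fin z.1 z.2 := rfl
theorem ph1_0 {z : E} (h : z.2 = 0) : ph 1 z = Pt.inf z.1 := if_pos h
theorem ph1_1 {z : E} (h : z.2 ≠ 0) : ph 1 z = Pt.fin z.1 z.2⁻¹ := if_neg h
theorem ph2_0 {z : E} (h : z.2 = 0) : ph 2 z = Pt.e1 z.1 := if_pos h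
theorem ph2_1 {z : E} (h : z.2 ≠ 0) : ph 2 z =
    Pt.fin ((z.1 * z.2 : ℂ) : ℂ ⧸ LamG) (z.2 + z.1 * z.2) := if_neg h
theorem ph3_00 {z : E} (h1 : z.1 = 0) (h2 : z.2 = 0) : ph 3 z = Pt.fin 0 0 := by
  simp [ph, h1, h2]
theorem ph3_01 {z : E} (h1 : z.1 = 0) (h2 : z.2 ≠ 0) : ph 3 z = Pt.e1 z.2⁻¹ := by
  simp [ph, h1, h2]
theorem ph3_10 {z : E} (h1 : z.1 ≠ 0) (h2 : z.2 = 0) : ph 3 z = Pt.e2 z.1⁻¹ := by
  simp [ph, h1, h2]
theorem ph3_11 {z : E} (h1 : z.1 ≠ 0) (h2 : z.2 ≠ 0) : ph 3 z =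
    Pt.fin ((z.1 * z.2 : ℂ) : ℂ ⧸ LamG) (z.1 * z.2 ^ 2 + z.1 * z.2) := by
  simp [ph, h1, h2]
theorem ph4_0 {z : E} (h : z.1 = 0) : ph 4 z = Pt.e2 z.2 := if_pos h
theorem ph4_1 {z : E} (h : z.1 ≠ 0) : ph 4 z =
    Pt.fin (z.1 : ℂ ⧸ LamG) (z.1 ^ 2 * z.2 + z.1) := if_neg h

/-- the regular points of the coordinate systems -/
def Reg : Fin 5 → Set E
  | 0 => V 0
  | 1 => {z | z.2 ≠ 0}
  | 2 => {z | z ∈ V 2 ∧ z.2 ≠ 0}
  | 3 => {z | z ∈ V 3 ∧ z.1 ≠ 0 ∧ z.2 ≠ 0}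
  | 4 => {z | z ∈ V 4 ∧ z.1 ≠ 0}

theorem Reg_open (j : Fin 5) : IsOpen (Reg j) := by
  have i1 : IsOpen {t : E | t.1 ≠ 0} := isOpen_ne_fun continuous_fst continuous_const
  have i2 : IsOpen {t : E | t.2 ≠ 0} := isOpen_ne_fun continuous_snd continuous_const
  fin_cases j
  · exact V_open 0
  · exact i2
  · exact (V_open 2).inter i2
  · exact (V_open 3).inter (i1.inter i2)
  · exact (V_open 4).inter i1

theorem Reg_sub {j : Fin 5} {z : E} (h : z ∈ Reg j) : z ∈ V j := by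
  fin_cases j
  · exact h
  · trivial
  · exact h.1
  · exact h.1
  · exact h.1

theorem Reg_or {j : Fin 5} {z : E} (h : z ∈ Reg j) : j ≠ 1 ∨ z.2 ≠ 0 := by
  fin_cases j
  · left; decide
  · right; exact h
  · left; decide
  · left; decide
  · left; decide

/-- at the regular points the parametrisation is given by the coordinates `(x, y)` -/
theorem Reg_ph {j : Fin 5} {z : E} (h : z ∈ Reg j) : ph j z = ph 0 (tr j z) ∧ tr j z ∈ V 0 := by
  fin_cases j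
  · exact ⟨rfl, h⟩
  · exact ⟨ph1_1 h, Or.inr (inv_ne_zero h)⟩
  · refine ⟨ph2_1 h.2, ?_⟩
    by_cases h1 : z.1 * z.2 = 0
    · right
      show z.2 + z.1 * z.2 ≠ 0
      rw [h1, add_zero]; exact h.2
    · left
      show z.1 * z.2 ∉ Lam
      exact notMem_Lam (by have := h.1.1; linarith) h1
  · refine ⟨ph3_11 h.2.1 h.2.2, Or.inl ?_⟩
    show z.1 * z.2 ∉ Lam
    exact notMem_Lam (by have := h.1.1; linarith) (mul_ne_zero h.2.1 h.2.2)
  · refine ⟨ph4_1 h.2, Or.inl ?_⟩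
    show z.1 ∉ Lam
    exact notMem_Lam (by have := h.1.1; linarith) h.2

/-- the inverses of the coordinate changes -/
noncomputable def inv : Fin 5 → E → E
  | 0 => fun z => z
  | 1 => fun z => (z.1, z.2⁻¹)
  | 2 => fun z => (z.1 / (z.2 - z.1), z.2 - z.1)
  | 3 => fun z => (z.1 ^ 2 / (z.2 - z.1), (z.2 - z.1) / z.1)
  | 4 => fun z => (z.1, (z.2 - z.1) / z.1 ^ 2)

theorem inv_tr {j : Fin 5} {z : E} (h : z ∈ Reg j) : inv j (tr j z) = z := by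
  fin_cases j
  · rfl
  · show ((z.1, z.2⁻¹⁻¹) : E) = z
    rw [inv_inv]
  · show ((z.1 * z.2 / (z.2 + z.1 * z.2 - z.1 * z.2), z.2 + z.1 * z.2 - z.1 * z.2) : E) = z
    have := h.2
    rw [add_sub_cancel_right, mul_div_cancel_right₀ _ this]
  · have h1 := h.2.1
    have h2 := h.2.2
    show (((z.1 * z.2) ^ 2 / (z.1 * z.2 ^ 2 + z.1 * z.2 - z.1 * z.2),
      (z.1 * z.2 ^ 2 + z.1 * z.2 - z.1 * z.2) / (z.1 * z.2)) : E) = z
    rw [add_sub_cancel_right]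
    ext
    · show (z.1 * z.2) ^ 2 / (z.1 * z.2 ^ 2) = z.1
      field_simp
    · show z.1 * z.2 ^ 2 / (z.1 * z.2) = z.2
      field_simp
  · have h1 : z.1 ≠ 0 := h.2
    show ((z.1, (z.1 ^ 2 * z.2 + z.1 - z.1) / z.1 ^ 2) : E) = z
    rw [add_sub_cancel_right]
    ext
    · rfl
    · show z.1 ^ 2 * z.2 / z.1 ^ 2 = z.2
      field_simp

/-- the points where the inverse is holomorphic -/
def Rg : Fin 5 → Set E
  | 0 => univ
  | 1 => {z | z.2 ≠ 0}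
  | 2 => {z | z.2 - z.1 ≠ 0}
  | 3 => {z | z.2 - z.1 ≠ 0 ∧ z.1 ≠ 0}
  | 4 => {z | z.1 ≠ 0}

theorem Rg_open (j : Fin 5) : IsOpen (Rg j) := by
  have i1 : IsOpen {t : E | t.1 ≠ 0} := isOpen_ne_fun continuous_fst continuous_const
  have i2 : IsOpen {t : E | t.2 ≠ 0} := isOpen_ne_fun continuous_snd continuous_const
  have i3 : IsOpen {t : E | t.2 - t.1 ≠ 0} :=
    isOpen_ne_fun (continuous_snd.sub continuous_fst) continuous_const
  fin_cases j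
  · exact isOpen_univ
  · exact i2
  · exact i3
  · exact i3.inter i1
  · exact i1

theorem tr_Rg {j : Fin 5} {z : E} (h : z ∈ Reg j) : tr j z ∈ Rg j := by
  fin_cases j
  · trivial
  · exact inv_ne_zero h
  · show z.2 + z.1 * z.2 - z.1 * z.2 ≠ 0
    rw [add_sub_cancel_right]; exact h.2
  · refine ⟨?_, mul_ne_zero h.2.1 h.2.2⟩
    show z.1 * z.2 ^ 2 + z.1 * z.2 - z.1 * z.2 ≠ 0
    rw [add_sub_cancel_right]; exact mul_ne_zero h.2.1 (pow_ne_zero 2 h.2.2)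
  · exact h.2

theorem tr_inv {j : Fin 5} {z : E} (h : z ∈ Rg j) : tr j (inv j z) = z := by
  fin_cases j
  · rfl
  · show ((z.1, z.2⁻¹⁻¹) : E) = z
    rw [inv_inv]
  · have h1 : z.2 - z.1 ≠ 0 := h
    show ((z.1 / (z.2 - z.1) * (z.2 - z.1), z.2 - z.1 + z.1 / (z.2 - z.1) * (z.2 - z.1)) : E) = z
    rw [div_mul_cancel₀ _ h1, sub_add_cancel]
  · have h1 : z.2 - z.1 ≠ 0 := h.1
    have h2 : z.1 ≠ 0 := h.2
    show ((z.1 ^ 2 / (z.2 - z.1) * ((z.2 - z.1) / z.1),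
      z.1 ^ 2 / (z.2 - z.1) * ((z.2 - z.1) / z.1) ^ 2 +
        z.1 ^ 2 / (z.2 - z.1) * ((z.2 - z.1) / z.1)) : E) = z
    have e1 : z.1 ^ 2 / (z.2 - z.1) * ((z.2 - z.1) / z.1) = z.1 := by field_simp
    have e2 : z.1 ^ 2 / (z.2 - z.1) * ((z.2 - z.1) / z.1) ^ 2 = z.2 - z.1 := by field_simp
    rw [e1, e2, sub_add_cancel]
  · have h2 : z.1 ≠ 0 := h
    show ((z.1, z.1 ^ 2 * ((z.2 - z.1) / z.1 ^ 2) + z.1) : E) = z
    have e1 : z.1 ^ 2 * ((z.2 - z.1) / z.1 ^ 2) = z.2 - z.1 := by field_simp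
    rw [e1, sub_add_cancel]

theorem inv_cd {j : Fin 5} {z : E} (h : z ∈ Rg j) : ContDiffAt ℂ ω (inv j) z := by
  fin_cases j
  · exact contDiffAt_id
  · exact contDiffAt_fst.prodMk (contDiffAt_snd.inv h)
  · exact (contDiffAt_fst.div (contDiffAt_snd.sub contDiffAt_fst) h).prodMk
      (contDiffAt_snd.sub contDiffAt_fst)
  · exact ((contDiffAt_fst.pow 2).div (contDiffAt_snd.sub contDiffAt_fst) h.1).prodMk
      ((contDiffAt_snd.sub contDiffAt_fst).div contDiffAt_fst h.2)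
  · exact contDiffAt_fst.prodMk ((contDiffAt_snd.sub contDiffAt_fst).div (contDiffAt_fst.pow 2)
      (pow_ne_zero 2 h))

/-- the relation of being related by a local holomorphic coordinate change -/
def Rel (i j : Fin 5) (z w : E) : Prop :=
  ∃ g : E → E, ContDiffAt ℂ ω g z ∧ g z = w ∧ ∀ᶠ z' in 𝓝 z, ph j (g z') = ph i z'

theorem Rel.trans {i j k : Fin 5} {z w t : E} (h1 : Rel i j z w) (h2 : Rel j k w t) :
    Rel i k z t := by
  obtain ⟨g, g1, g2, g3⟩ := h1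
  obtain ⟨f, f1, f2, f3⟩ := h2
  subst g2
  refine ⟨fun z => f (g z), f1.comp z g1, f2, ?_⟩
  filter_upwards [g3, g1.continuousAt.eventually f3] with z' h3 h4
  rw [h4, h3]

theorem Rel.refl (i : Fin 5) (z : E) : Rel i i z z :=
  ⟨fun z => z, contDiffAt_id, rfl, Eventually.of_forall fun _ => rfl⟩

theorem Rel_to0 {j : Fin 5} {z : E} (h : z ∈ Reg j) : Rel j 0 z (tr j z) := by
  refine ⟨tr j, tr_cd (Reg_or h), rfl, ?_⟩
  filter_upwards [(Reg_open j).mem_nhds h] with z' hz'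
  exact (Reg_ph hz').1.symm

theorem Rel_of0 {j : Fin 5} {z : E} (h : z ∈ Reg j) : Rel 0 j (tr j z) z := by
  have h1 : ContDiffAt ℂ ω (inv j) (tr j z) := inv_cd (tr_Rg h)
  refine ⟨inv j, h1, inv_tr h, ?_⟩
  have h2 : ∀ᶠ z' in 𝓝 (tr j z), inv j z' ∈ Reg j :=
    h1.continuousAt.eventually ((Reg_open j).mem_nhds (by rw [inv_tr h]; exact h))
  filter_upwards [h2, (Rg_open j).mem_nhds (tr_Rg h)] with z' h3 h4
  rw [(Reg_ph h3).1, tr_inv h4]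

theorem Rel_shift {l : ℂ} (hl : l ∈ Lam) (z : E) : Rel 0 0 z (z.1 + l, z.2) := by
  refine ⟨fun z => (z.1 + l, z.2), (contDiffAt_fst.add contDiffAt_const).prodMk contDiffAt_snd,
    rfl, Eventually.of_forall fun z' => ?_⟩
  show Pt.fin ((z'.1 + l : ℂ) : ℂ ⧸ LamG) z'.2 = Pt.fin (z'.1 : ℂ ⧸ LamG) z'.2
  have : ((z'.1 + l : ℂ) : ℂ ⧸ LamG) = (z'.1 : ℂ ⧸ LamG) := by
    rw [mk_eq, add_sub_cancel_left]; exact hl
  rw [this]

theorem Rel_shift1 {l : ℂ} (hl : l ∈ Lam) (z : E) : Rel 1 1 z (z.1 + l, z.2) := by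
  refine ⟨fun z => (z.1 + l, z.2), (contDiffAt_fst.add contDiffAt_const).prodMk contDiffAt_snd,
    rfl, Eventually.of_forall fun z' => ?_⟩
  have h0 : ((z'.1 + l : ℂ) : ℂ ⧸ LamG) = (z'.1 : ℂ ⧸ LamG) := by
    rw [mk_eq, add_sub_cancel_left]; exact hl
  by_cases h : z'.2 = 0
  · rw [ph1_0 h, ph1_0 (z := (z'.1 + l, z'.2)) h, h0]
  · rw [ph1_1 h, ph1_1 (z := (z'.1 + l, z'.2)) h, h0]

theorem ph0_eq {z w : E} (h : ph 0 z = ph 0 w) : z.1 - w.1 ∈ Lam ∧ z.2 = w.2 := by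
  rw [ph0, ph0, Pt.fin.injEq] at h
  exact ⟨mk_eq.1 h.1, h.2⟩

theorem Rel_Reg {i j : Fin 5} {z w : E} (hz : z ∈ Reg i) (hw : w ∈ Reg j) (h : ph i z = ph j w) :
    Rel i j z w := by
  rw [(Reg_ph hz).1, (Reg_ph hw).1] at h
  obtain ⟨h1, h2⟩ := ph0_eq h
  have h3 : (((tr i z).1 + -((tr i z).1 - (tr j w).1), (tr i z).2) : E) = tr j w := by
    ext
    · simp
    · exact h2
  have h4 := Rel_shift (Lam_neg h1) (tr i z)
  rw [h3] at h4
  exact (Rel_to0 hz).trans (h4.trans (Rel_of0 hw))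

/-- the regular points are characterised by their images -/
theorem Reg_of_eq {i j : Fin 5} {z w : E} (hz : z ∈ Reg i) (hw : w ∈ V j) (h : ph i z = ph j w) :
    w ∈ Reg j := by
  obtain ⟨h1, h2⟩ := Reg_ph hz
  rw [h1, ph0] at h
  fin_cases j
  · exact hw
  · show w.2 ≠ 0
    intro h0
    have h' : Pt.fin _ _ = ph 1 w := h
    rw [ph1_0 h0] at h'
    exact Pt.noConfusion h'
  · refine ⟨hw, fun h0 => ?_⟩
    have h' : Pt.fin _ _ = ph 2 w := h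
    rw [ph2_0 h0] at h'
    exact Pt.noConfusion h'
  · refine ⟨hw, ?_⟩
    have h' : Pt.fin _ _ = ph 3 w := h
    by_cases a1 : w.1 = 0 <;> by_cases a2 : w.2 = 0
    · rw [ph3_00 a1 a2, Pt.fin.injEq] at h'
      exfalso
      rcases h2 with h2 | h2
      · apply h2
        have := (mk_eq (b := 0)).1 h'.1
        rwa [sub_zero] at this
      · exact h2 h'.2
    · rw [ph3_01 a1 a2] at h'
      exact Pt.noConfusion h'
    · rw [ph3_10 a1 a2] at h'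
      exact Pt.noConfusion h'
    · exact ⟨a1, a2⟩
  · refine ⟨hw, fun h0 => ?_⟩
    have h' : Pt.fin _ _ = ph 4 w := h
    rw [ph4_0 h0] at h'
    exact Pt.noConfusion h'

end Pool.Agent.U84.SP
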