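import Pool.Agent.U84.SP.X

set_option autoImplicit false
set_option linter.unusedSectionVars false

/-!
# The surface: coordinate changes and the Hausdorff property
-/

open Set Topology Filter
open scoped ContDiff Manifold

namespace Pool.Agent.U84.SP

open Pool.Agent.Y184.SP

theorem Rel23 {z : E} (h : z.1 ≠ 0) : Rel 2 3 z (z.1 ^ 2 * z.2, z.1⁻¹) := by
  refine ⟨fun z => (z.1 ^ 2 * z.2, z.1⁻¹), ((contDiffAt_fst.pow 2).mul contDiffAt_snd).prodMk
    (contDiffAt_fst.inv h), rfl, ?_⟩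
  have i1 : IsOpen {t : E | t.1 ≠ 0} := isOpen_ne_fun continuous_fst continuous_const
  filter_upwards [i1.mem_nhds h] with z' h1
  have h1' : z'.1 ≠ 0 := h1
  by_cases h2 : z'.2 = 0
  · rw [ph2_0 h2, ph3_01 (z := (z'.1 ^ 2 * z'.2, z'.1⁻¹)) (by simp [h2]) (inv_ne_zero h1')]
    simp
  · rw [ph2_1 h2, ph3_11 (z := (z'.1 ^ 2 * z'.2, z'.1⁻¹)) (mul_ne_zero (pow_ne_zero 2 h1') h2)
      (inv_ne_zero h1')]
    have e1 : z'.1 ^ 2 * z'.2 * z'.1⁻¹ = z'.1 * z'.2 := by field_simp
    have e2 : z'.1 ^ 2 * z'.2 * z'.1⁻¹ ^ 2 = z'.2 := by field_simp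
    simp only [e1, e2]

theorem Rel32 {z : E} (h : z.2 ≠ 0) : Rel 3 2 z (z.2⁻¹, z.1 * z.2 ^ 2) := by
  refine ⟨fun z => (z.2⁻¹, z.1 * z.2 ^ 2), (contDiffAt_snd.inv h).prodMk
    (contDiffAt_fst.mul (contDiffAt_snd.pow 2)), rfl, ?_⟩
  have i1 : IsOpen {t : E | t.2 ≠ 0} := isOpen_ne_fun continuous_snd continuous_const
  filter_upwards [i1.mem_nhds h] with z' h1
  have h1' : z'.2 ≠ 0 := h1
  by_cases h2 : z'.1 = 0
  · rw [ph3_01 h2 h1', ph2_0 (z := (z'.2⁻¹, z'.1 * z'.2 ^ 2)) (by simp [h2])]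
  · rw [ph3_11 h2 h1', ph2_1 (z := (z'.2⁻¹, z'.1 * z'.2 ^ 2)) (mul_ne_zero h2
      (pow_ne_zero 2 h1'))]
    have e1 : z'.2⁻¹ * (z'.1 * z'.2 ^ 2) = z'.1 * z'.2 := by field_simp
    simp only [e1]

theorem Rel34 {z : E} (h : z.1 ≠ 0) : Rel 3 4 z (z.1 * z.2, z.1⁻¹) := by
  refine ⟨fun z => (z.1 * z.2, z.1⁻¹), (contDiffAt_fst.mul contDiffAt_snd).prodMk
    (contDiffAt_fst.inv h), rfl, ?_⟩
  have i1 : IsOpen {t : E | t.1 ≠ 0} := isOpen_ne_fun continuous_fst continuous_const
  filter_upwards [i1.mem_nhds h] with z' h1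
  have h1' : z'.1 ≠ 0 := h1
  by_cases h2 : z'.2 = 0
  · rw [ph3_10 h1' h2, ph4_0 (z := (z'.1 * z'.2, z'.1⁻¹)) (by simp [h2])]
  · rw [ph3_11 h1' h2, ph4_1 (z := (z'.1 * z'.2, z'.1⁻¹)) (mul_ne_zero h1' h2)]
    have e1 : (z'.1 * z'.2) ^ 2 * z'.1⁻¹ = z'.1 * z'.2 ^ 2 := by field_simp
    simp only [e1]

theorem Rel43 {z : E} (h : z.2 ≠ 0) : Rel 4 3 z (z.2⁻¹, z.1 * z.2) := by
  refine ⟨fun z => (z.2⁻¹, z.1 * z.2), (contDiffAt_snd.inv h).prodMk
    (contDiffAt_fst.mul contDiffAt_snd), rfl, ?_⟩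
  have i1 : IsOpen {t : E | t.2 ≠ 0} := isOpen_ne_fun continuous_snd continuous_const
  filter_upwards [i1.mem_nhds h] with z' h1
  have h1' : z'.2 ≠ 0 := h1
  by_cases h2 : z'.1 = 0
  · rw [ph4_0 h2, ph3_10 (z := (z'.2⁻¹, z'.1 * z'.2)) (inv_ne_zero h1') (by simp [h2])]
    simp
  · rw [ph4_1 h2, ph3_11 (z := (z'.2⁻¹, z'.1 * z'.2)) (inv_ne_zero h1') (mul_ne_zero h2 h1')]
    have e1 : z'.2⁻¹ * (z'.1 * z'.2) = z'.1 := by field_simp
    have e2 : z'.2⁻¹ * (z'.1 * z'.2) ^ 2 = z'.1 ^ 2 * z'.2 := by field_simp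
    simp only [e1, e2]

theorem Rel.eq {i j : Fin 5} {z w : E} (h : Rel i j z w) : ph j w = ph i z := by
  obtain ⟨g, _, g2, g3⟩ := h
  rw [← g2]
  exact g3.self_of_nhds

theorem Rel_of_eq {i : Fin 5} {z w : E} (h : z = w) : Rel i i z w := h ▸ Rel.refl i z

theorem non1 {z : E} (h : z ∉ Reg 1) : z.2 = 0 := by
  by_contra h0; exact h h0

theorem non2 {z : E} (hz : z ∈ V 2) (h : z ∉ Reg 2) : z.2 = 0 := by
  by_contra h0; exact h ⟨hz, h0⟩

theorem non4 {z : E} (hz : z ∈ V 4) (h : z ∉ Reg 4) : z.1 = 0 := by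
  by_contra h0; exact h ⟨hz, h0⟩

theorem non3 {z : E} (hz : z ∈ V 3) (h : z ∉ Reg 3) : z.1 = 0 ∨ z.2 = 0 := by
  by_contra h0
  push Not at h0
  exact h ⟨hz, h0.1, h0.2⟩

theorem pairext {z w : E} (h1 : z.1 = w.1) (h2 : z.2 = w.2) : z = w := Prod.ext h1 h2

/-- the coordinate changes are holomorphic -/
theorem compatV {i j : Fin 5} {z w : E} (hz : z ∈ V i) (hw : w ∈ V j) (h : ph i z = ph j w) :
    Rel i j z w := by
  by_cases hr : z ∈ Reg i
  · exact Rel_Reg hr (Reg_of_eq hr hw h) h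
  have hr2 : w ∉ Reg j := fun h' => hr (Reg_of_eq h' hz h.symm)
  fin_cases i
  · exact absurd hz hr
  · have a : z.2 = 0 := non1 hr
    have h' : ph 1 z = ph j w := h
    rw [ph1_0 a] at h'
    fin_cases j
    · exact absurd hw hr2
    · have b : w.2 = 0 := non1 hr2
      have h'' : Pt.inf z.1 = ph 1 w := h'
      rw [ph1_0 b, Pt.inf.injEq] at h''
      have h3 := Rel_shift1 (Lam_neg (mk_eq.1 h'')) z
      have e : ((z.1 + -(z.1 - w.1), z.2) : E) = w := pairext (by simp) (by rw [a, b])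
      rw [e] at h3
      exact h3
    · have h'' : Pt.inf z.1 = ph 2 w := h'
      rw [ph2_0 (non2 hw hr2)] at h''
      exact Pt.noConfusion h''
    · have h'' : Pt.inf z.1 = ph 3 w := h'
      by_cases a1 : w.1 = 0 <;> by_cases a2 : w.2 = 0
      · rw [ph3_00 a1 a2] at h''; exact Pt.noConfusion h''
      · rw [ph3_01 a1 a2] at h''; exact Pt.noConfusion h''
      · rw [ph3_10 a1 a2] at h''; exact Pt.noConfusion h''
      · rw [ph3_11 a1 a2] at h''; exact Pt.noConfusion h''
    · have h'' : Pt.inf z.1 = ph 4 w := h'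
      rw [ph4_0 (non4 hw hr2)] at h''
      exact Pt.noConfusion h''
  · have a : z.2 = 0 := non2 hz hr
    have h' : ph 2 z = ph j w := h
    rw [ph2_0 a] at h'
    fin_cases j
    · exact absurd hw hr2
    · have h'' : Pt.e1 z.1 = ph 1 w := h'
      rw [ph1_0 (non1 hr2)] at h''
      exact Pt.noConfusion h''
    · have b : w.2 = 0 := non2 hw hr2
      have h'' : Pt.e1 z.1 = ph 2 w := h'
      rw [ph2_0 b, Pt.e1.injEq] at h''
      exact Rel_of_eq (pairext h'' (by rw [a, b]))
    · have h'' : Pt.e1 z.1 = ph 3 w := h'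
      by_cases a1 : w.1 = 0 <;> by_cases a2 : w.2 = 0
      · rw [ph3_00 a1 a2] at h''; exact Pt.noConfusion h''
      · rw [ph3_01 a1 a2, Pt.e1.injEq] at h''
        have h3 : z.1 ≠ 0 := by rw [h'']; exact inv_ne_zero a2
        have h4 := Rel23 h3
        have e : ((z.1 ^ 2 * z.2, z.1⁻¹) : E) = w := pairext (by simp [a, a1]) (by
          show z.1⁻¹ = w.2
          rw [h'', inv_inv])
        rw [e] at h4
        exact h4
      · rw [ph3_10 a1 a2] at h''; exact Pt.noConfusion h''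
      · rw [ph3_11 a1 a2] at h''; exact Pt.noConfusion h''
    · have h'' : Pt.e1 z.1 = ph 4 w := h'
      rw [ph4_0 (non4 hw hr2)] at h''
      exact Pt.noConfusion h''
  · have h' : ph 3 z = ph j w := h
    fin_cases j
    · exact absurd hw hr2
    · have h'' : ph 3 z = ph 1 w := h'
      rw [ph1_0 (non1 hr2)] at h''
      by_cases a1 : z.1 = 0 <;> by_cases a2 : z.2 = 0
      · rw [ph3_00 a1 a2] at h''; exact Pt.noConfusion h''
      · rw [ph3_01 a1 a2] at h''; exact Pt.noConfusion h''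
      · rw [ph3_10 a1 a2] at h''; exact Pt.noConfusion h''
      · rw [ph3_11 a1 a2] at h''; exact Pt.noConfusion h''
    · have h'' : ph 3 z = ph 2 w := h'
      have b : w.2 = 0 := non2 hw hr2
      rw [ph2_0 b] at h''
      by_cases a1 : z.1 = 0 <;> by_cases a2 : z.2 = 0
      · rw [ph3_00 a1 a2] at h''; exact Pt.noConfusion h''
      · rw [ph3_01 a1 a2, Pt.e1.injEq] at h''
        have h4 := Rel32 a2
        have e : ((z.2⁻¹, z.1 * z.2 ^ 2) : E) = w := pairext h'' (by simp [a1, b])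
        rw [e] at h4
        exact h4
      · rw [ph3_10 a1 a2] at h''; exact Pt.noConfusion h''
      · rw [ph3_11 a1 a2] at h''; exact Pt.noConfusion h''
    · have h'' : ph 3 z = ph 3 w := h'
      refine Rel_of_eq ?_
      have b := non3 hz hr
      have c := non3 hw hr2
      by_cases a1 : z.1 = 0 <;> by_cases a2 : z.2 = 0 <;> by_cases b1 : w.1 = 0 <;>
        by_cases b2 : w.2 = 0
      · exact pairext (by rw [a1, b1]) (by rw [a2, b2])
      · rw [ph3_00 a1 a2, ph3_01 b1 b2] at h''; exact Pt.noConfusion h''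
      · rw [ph3_00 a1 a2, ph3_10 b1 b2] at h''; exact Pt.noConfusion h''
      · rcases c with c | c
        · exact absurd c b1
        · exact absurd c b2
      · rw [ph3_01 a1 a2, ph3_00 b1 b2] at h''; exact Pt.noConfusion h''
      · rw [ph3_01 a1 a2, ph3_01 b1 b2, Pt.e1.injEq] at h''
        exact pairext (by rw [a1, b1]) (inv_injective h'')
      · rw [ph3_01 a1 a2, ph3_10 b1 b2] at h''; exact Pt.noConfusion h''
      · rcases c with c | c
        · exact absurd c b1
        · exact absurd c b2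
      · rw [ph3_10 a1 a2, ph3_00 b1 b2] at h''; exact Pt.noConfusion h''
      · rw [ph3_10 a1 a2, ph3_01 b1 b2] at h''; exact Pt.noConfusion h''
      · rw [ph3_10 a1 a2, ph3_10 b1 b2, Pt.e2.injEq] at h''
        exact pairext (inv_injective h'') (by rw [a2, b2])
      · rcases c with c | c
        · exact absurd c b1
        · exact absurd c b2
      all_goals
        rcases b with b | b
        · exact absurd b a1
        · exact absurd b a2
    · have h'' : ph 3 z = ph 4 w := h'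
      have b : w.1 = 0 := non4 hw hr2
      rw [ph4_0 b] at h''
      by_cases a1 : z.1 = 0 <;> by_cases a2 : z.2 = 0
      · rw [ph3_00 a1 a2] at h''; exact Pt.noConfusion h''
      · rw [ph3_01 a1 a2] at h''; exact Pt.noConfusion h''
      · rw [ph3_10 a1 a2, Pt.e2.injEq] at h''
        have h4 := Rel34 a1
        have e : ((z.1 * z.2, z.1⁻¹) : E) = w := pairext (by simp [a2, b]) h''
        rw [e] at h4
        exact h4
      · rw [ph3_11 a1 a2] at h''; exact Pt.noConfusion h''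
  · have a : z.1 = 0 := non4 hz hr
    have h' : ph 4 z = ph j w := h
    rw [ph4_0 a] at h'
    fin_cases j
    · exact absurd hw hr2
    · have h'' : Pt.e2 z.2 = ph 1 w := h'
      rw [ph1_0 (non1 hr2)] at h''
      exact Pt.noConfusion h''
    · have h'' : Pt.e2 z.2 = ph 2 w := h'
      rw [ph2_0 (non2 hw hr2)] at h''
      exact Pt.noConfusion h''
    · have h'' : Pt.e2 z.2 = ph 3 w := h'
      by_cases a1 : w.1 = 0 <;> by_cases a2 : w.2 = 0
      · rw [ph3_00 a1 a2] at h''; exact Pt.noConfusion h''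
      · rw [ph3_01 a1 a2] at h''; exact Pt.noConfusion h''
      · rw [ph3_10 a1 a2, Pt.e2.injEq] at h''
        have h3 : z.2 ≠ 0 := by rw [h'']; exact inv_ne_zero a1
        have h4 := Rel43 h3
        have e : ((z.2⁻¹, z.1 * z.2) : E) = w := pairext (by
          show z.2⁻¹ = w.1
          rw [h'', inv_inv]) (by simp [a, a2])
        rw [e] at h4
        exact h4
      · rw [ph3_11 a1 a2] at h''; exact Pt.noConfusion h''
    · have b : w.1 = 0 := non4 hw hr2
      have h'' : Pt.e2 z.2 = ph 4 w := h'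
      rw [ph4_0 b, Pt.e2.injEq] at h''
      exact Rel_of_eq (pairext (by rw [a, b]) h'')

/-- the last three parametrisations are injective -/
theorem inj_ge {j : Fin 5} (hj : j = 2 ∨ j = 3 ∨ j = 4) {z w : E} (hz : z ∈ V j) (hw : w ∈ V j)
    (h : ph j z = ph j w) : z = w := by
  by_cases hr : z ∈ Reg j
  · have hr2 := Reg_of_eq hr hw h
    rw [(Reg_ph hr).1, (Reg_ph hr2).1] at h
    obtain ⟨h1, h2⟩ := ph0_eq h
    have h3 : (tr j z).1 = (tr j w).1 := by
      refine mk_small' (mk_eq.2 h1) ?_ ?_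
      · rcases hj with rfl | rfl | rfl
        · exact hz.1
        · exact hz.1
        · exact hz.1
      · rcases hj with rfl | rfl | rfl
        · exact hw.1
        · exact hw.1
        · exact hw.1
    rw [← inv_tr hr, ← inv_tr hr2, Prod.ext h3 h2]
  · have hr2 : w ∉ Reg j := fun h' => hr (Reg_of_eq h' hz h.symm)
    rcases hj with rfl | rfl | rfl
    · have a := non2 hz hr
      have b := non2 hw hr2
      rw [ph2_0 a, ph2_0 b, Pt.e1.injEq] at h
      exact pairext h (by rw [a, b])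
    · have b := non3 hz hr
      have c := non3 hw hr2
      by_cases a1 : z.1 = 0 <;> by_cases a2 : z.2 = 0 <;> by_cases b1 : w.1 = 0 <;>
        by_cases b2 : w.2 = 0
      · exact pairext (by rw [a1, b1]) (by rw [a2, b2])
      · rw [ph3_00 a1 a2, ph3_01 b1 b2] at h; exact Pt.noConfusion h
      · rw [ph3_00 a1 a2, ph3_10 b1 b2] at h; exact Pt.noConfusion h
      · rcases c with c | c
        · exact absurd c b1
        · exact absurd c b2
      · rw [ph3_01 a1 a2, ph3_00 b1 b2] at h; exact Pt.noConfusion h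
      · rw [ph3_01 a1 a2, ph3_01 b1 b2, Pt.e1.injEq] at h
        exact pairext (by rw [a1, b1]) (inv_injective h)
      · rw [ph3_01 a1 a2, ph3_10 b1 b2] at h; exact Pt.noConfusion h
      · rcases c with c | c
        · exact absurd c b1
        · exact absurd c b2
      · rw [ph3_10 a1 a2, ph3_00 b1 b2] at h; exact Pt.noConfusion h
      · rw [ph3_10 a1 a2, ph3_01 b1 b2] at h; exact Pt.noConfusion h
      · rw [ph3_10 a1 a2, ph3_10 b1 b2, Pt.e2.injEq] at h
        exact pairext (inv_injective h) (by rw [a2, b2])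
      · rcases c with c | c
        · exact absurd c b1
        · exact absurd c b2
      all_goals
        rcases b with b | b
        · exact absurd b a1
        · exact absurd b a2
    · have a := non4 hz hr
      have b := non4 hw hr2
      rw [ph4_0 a, ph4_0 b, Pt.e2.injEq] at h
      exact pairext (by rw [a, b]) h

end Pool.Agent.U84.SP
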