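import Pool.Agent.U84.SP.X2

set_option autoImplicit false
set_option linter.unusedSectionVars false

/-!
# The surface: topology
-/

open Set Topology Filter
open scoped ContDiff Manifold

namespace Pool.Agent.U84.SP

open Pool.Agent.Y184.SP

/-- the domains on which the parametrisations are injective -/
def Dm (i : Fin 5 × ℂ) : Set E := {z | z ∈ V i.1 ∧ ((i.1 = 0 ∨ i.1 = 1) → ‖z.1 - i.2‖ < 1 / 4)}

theorem Dm_open (i : Fin 5 × ℂ) : IsOpen (Dm i) := by
  by_cases h : i.1 = 0 ∨ i.1 = 1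
  · have e : Dm i = V i.1 ∩ {z : E | ‖z.1 - i.2‖ < 1 / 4} := by
      ext z; simp [Dm, h]
    rw [e]
    have h2 : Continuous fun z : E => ‖z.1 - i.2‖ := by fun_prop
    exact (V_open _).inter (isOpen_lt h2 continuous_const)
  · have e : Dm i = V i.1 := by
      ext z; simp [Dm, h]
    rw [e]
    exact V_open _

theorem Dm_inj (i : Fin 5 × ℂ) : InjOn (ph i.1) (Dm i) := by
  obtain ⟨j, a⟩ := i
  intro z hz w hw h
  have key : ‖z.1 - a‖ < 1 / 4 → ‖w.1 - a‖ < 1 / 4 → ‖z.1 - w.1‖ < 1 := by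
    intro h1 h2
    have e : z.1 - w.1 = (z.1 - a) - (w.1 - a) := by ring
    rw [e]
    exact (norm_sub_le _ _).trans_lt (by linarith)
  fin_cases j
  · have h1 := hz.2 (Or.inl rfl)
    have h2 := hw.2 (Or.inl rfl)
    obtain ⟨h3, h4⟩ := ph0_eq h
    exact pairext (mk_small (mk_eq.2 h3) (key h1 h2)) h4
  · have h1 := hz.2 (Or.inr rfl)
    have h2 := hw.2 (Or.inr rfl)
    have h' : ph 1 z = ph 1 w := h
    by_cases a1 : z.2 = 0 <;> by_cases a2 : w.2 = 0
    · rw [ph1_0 a1, ph1_0 a2, Pt.inf.injEq] at h'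
      exact pairext (mk_small h' (key h1 h2)) (by rw [a1, a2])
    · rw [ph1_0 a1, ph1_1 a2] at h'; exact Pt.noConfusion h'
    · rw [ph1_1 a1, ph1_0 a2] at h'; exact Pt.noConfusion h'
    · rw [ph1_1 a1, ph1_1 a2, Pt.fin.injEq] at h'
      exact pairext (mk_small h'.1 (key h1 h2)) (inv_injective h'.2)
  · exact inj_ge (Or.inl rfl) hz.1 hw.1 h
  · exact inj_ge (Or.inr (Or.inl rfl)) hz.1 hw.1 h
  · exact inj_ge (Or.inr (Or.inr rfl)) hz.1 hw.1 h

theorem Dm_self {j : Fin 5} {z : E} (h : z ∈ V j) : z ∈ Dm (j, z.1) :=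
  ⟨h, fun _ => by rw [sub_self, norm_zero]; norm_num⟩

/-- every point is in the image of one of the parametrisations -/
theorem covV (p : Pt) : ∃ j, ∃ z ∈ V j, ph j z = p := by
  cases p with
  | fin b y =>
    obtain ⟨x, rfl⟩ := QuotientAddGroup.mk_surjective b
    by_cases h : ((x, y) : E) ∈ V 0
    · exact ⟨0, (x, y), h, rfl⟩
    · refine ⟨3, (0, 0), V3_0, ?_⟩
      have h1 : ¬(x ∉ Lam ∨ y ≠ 0) := h
      push Not at h1
      rw [ph3_00 rfl rfl, h1.2]
      have : ((x : ℂ) : ℂ ⧸ LamG) = 0 := (mk_eq (b := 0)).2 (by rw [sub_zero]; exact h1.1)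
      exact congrArg (fun b => Pt.fin b 0) this.symm
  | inf b =>
    obtain ⟨x, rfl⟩ := QuotientAddGroup.mk_surjective b
    exact ⟨1, (x, 0), trivial, ph1_0 rfl⟩
  | e1 s => exact ⟨2, (s, 0), by constructor <;> simp, ph2_0 rfl⟩
  | e2 t => exact ⟨4, (0, t), by constructor <;> simp, ph4_0 rfl⟩
where
  V3_0 : ((0, 0) : E) ∈ V 3 := by constructor <;> simp

/-- the surface as a set with parametrisations -/
noncomputable def XP : Par Pt where
  ι := Fin 5 × ℂ
  D := Dm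
  φ := fun i => ph i.1
  openD := Dm_open
  inj := Dm_inj
  cov := fun p => by
    obtain ⟨j, z, h1, h2⟩ := covV p
    exact ⟨(j, z.1), z, Dm_self h1, h2⟩
  compat := fun i j z w hz hw h => compatV hz.1 hw.1 h

/-- the surface -/
def X : Type := XP.Sp

noncomputable instance : TopologicalSpace X := inferInstanceAs (TopologicalSpace XP.Sp)
noncomputable instance : ChartedSpace E X := inferInstanceAs (ChartedSpace E XP.Sp)
instance : IsManifold 𝓘(ℂ, E) ω X := inferInstanceAs (IsManifold 𝓘(ℂ, E) ω XP.Sp)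
instance : IsManifold 𝓘(ℝ, E) ∞ X := inferInstanceAs (IsManifold 𝓘(ℝ, E) ∞ XP.Sp)

/-- the parametrisations of the surface -/
noncomputable def pX (j : Fin 5) : E → X := ph j

theorem pX_cont {j : Fin 5} {z : E} (h : z ∈ V j) : ContinuousAt (pX j) z :=
  XP.ph_cont (i := (j, z.1)) (Dm_self h)

theorem V0_of {j : Fin 5} {z : E} (hj : j ≠ 1) (hz : z ∈ V j) (h : tr j z ∈ V 0) : z ∈ Reg j := by
  fin_cases j
  · exact hz
  · exact absurd rfl hj
  · refine ⟨hz, fun h0 => ?_⟩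
    have h1 : z.1 * z.2 ∉ Lam ∨ z.2 + z.1 * z.2 ≠ 0 := h
    rw [h0, mul_zero, add_zero] at h1
    rcases h1 with h1 | h1
    · exact h1 Lam_zero
    · exact h1 rfl
  · have h1 : z.1 * z.2 ∉ Lam ∨ z.1 * z.2 ^ 2 + z.1 * z.2 ≠ 0 := h
    refine ⟨hz, ?_, ?_⟩
    · intro h0
      rw [h0] at h1
      rcases h1 with h1 | h1
      · exact h1 (by rw [zero_mul]; exact Lam_zero)
      · exact h1 (by ring)
    · intro h0
      rw [h0] at h1
      rcases h1 with h1 | h1
      · exact h1 (by rw [mul_zero]; exact Lam_zero)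
      · exact h1 (by ring)
  · refine ⟨hz, fun h0 => ?_⟩
    have h1 : z.1 ∉ Lam ∨ z.1 ^ 2 * z.2 + z.1 ≠ 0 := h
    rw [h0] at h1
    rcases h1 with h1 | h1
    · exact h1 Lam_zero
    · exact h1 (by ring)

theorem tr_cont {j : Fin 5} (hj : j ≠ 1) : Continuous (tr j) :=
  continuous_iff_continuousAt.2 fun _ => (tr_cd (Or.inl hj)).continuousAt

/-- the relation `ph 0 z = ph j w` -/
theorem q0 {j : Fin 5} (hj : j ≠ 1) {z w : E} (hz : z ∈ V 0) (hw : w ∈ V j) :
    ph 0 z = ph j w ↔ z.1 - (tr j w).1 ∈ Lam ∧ z.2 = (tr j w).2 := by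
  constructor
  · intro h
    have h1 : w ∈ Reg j := Reg_of_eq (i := 0) hz hw h
    rw [(Reg_ph h1).1] at h
    exact ph0_eq h
  · rintro ⟨h1, h2⟩
    have h3 : tr j w ∈ V 0 := by
      rcases hz with hz | hz
      · left
        intro h4
        apply hz
        have := Lam_add h1 h4
        rwa [sub_add_cancel] at this
      · right
        rw [← h2]; exact hz
    rw [(Reg_ph (V0_of hj hw h3)).1, ph0, ph0, h2, mk_eq.2 h1]

theorem ph_ne_inf {j : Fin 5} (hj : j ≠ 1) (w : E) (b : ℂ ⧸ LamG) : Pt.inf b ≠ ph j w := by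
  fin_cases j
  · exact fun h => Pt.noConfusion h
  · exact absurd rfl hj
  · intro h
    have h'' : Pt.inf b = ph 2 w := h
    by_cases a2 : w.2 = 0
    · rw [ph2_0 a2] at h''; exact Pt.noConfusion h''
    · rw [ph2_1 a2] at h''; exact Pt.noConfusion h''
  · intro h
    have h'' : Pt.inf b = ph 3 w := h
    by_cases a1 : w.1 = 0 <;> by_cases a2 : w.2 = 0
    · rw [ph3_00 a1 a2] at h''; exact Pt.noConfusion h''
    · rw [ph3_01 a1 a2] at h''; exact Pt.noConfusion h''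
    · rw [ph3_10 a1 a2] at h''; exact Pt.noConfusion h''
    · rw [ph3_11 a1 a2] at h''; exact Pt.noConfusion h''
  · intro h
    have h'' : Pt.inf b = ph 4 w := h
    by_cases a2 : w.1 = 0
    · rw [ph4_0 a2] at h''; exact Pt.noConfusion h''
    · rw [ph4_1 a2] at h''; exact Pt.noConfusion h''

theorem q1 {j : Fin 5} (hj : j ≠ 1) {z w : E} (hw : w ∈ V j) :
    ph 1 z = ph j w ↔ z.1 - (tr j w).1 ∈ Lam ∧ z.2 * (tr j w).2 = 1 := by
  constructor
  · intro h
    by_cases h0 : z.2 = 0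
    · rw [ph1_0 h0] at h
      exact absurd h (ph_ne_inf hj w _)
    · have h1 : w ∈ Reg j := Reg_of_eq (i := 1) h0 hw h
      rw [(Reg_ph h1).1, ph1_1 h0] at h
      obtain ⟨h2, h3⟩ := ph0_eq (z := (z.1, z.2⁻¹)) h
      refine ⟨h2, ?_⟩
      rw [← h3]
      exact mul_inv_cancel₀ h0
  · rintro ⟨h1, h2⟩
    have h0 : z.2 ≠ 0 := left_ne_zero_of_mul_eq_one h2
    have h4 : (tr j w).2 ≠ 0 := right_ne_zero_of_mul_eq_one h2
    rw [(Reg_ph (V0_of hj hw (Or.inr h4))).1, ph1_1 h0, ph0, mk_eq.2 h1,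
      eq_inv_of_mul_eq_one_right h2]

theorem q11 {z w : E} : ph 1 z = ph 1 w ↔ z.1 - w.1 ∈ Lam ∧ z.2 = w.2 := by
  by_cases a1 : z.2 = 0 <;> by_cases a2 : w.2 = 0
  · rw [ph1_0 a1, ph1_0 a2, Pt.inf.injEq, mk_eq, a1, a2]; simp
  · rw [ph1_0 a1, ph1_1 a2]
    refine ⟨fun h => Pt.noConfusion h, fun h => absurd (h.2.symm.trans a1) a2⟩
  · rw [ph1_1 a1, ph1_0 a2]
    refine ⟨fun h => Pt.noConfusion h, fun h => absurd (h.2.trans a2) a1⟩
  · rw [ph1_1 a1, ph1_1 a2, Pt.fin.injEq, mk_eq, inv_inj]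

theorem q23 {z w : E} (hz : z ∈ V 2) (hw : w ∈ V 3) :
    ph 2 z = ph 3 w ↔ w.1 = z.1 ^ 2 * z.2 ∧ z.1 * w.2 = 1 := by
  constructor
  · intro h
    by_cases h0 : z.2 = 0
    · rw [ph2_0 h0] at h
      by_cases a1 : w.1 = 0 <;> by_cases a2 : w.2 = 0
      · rw [ph3_00 a1 a2] at h; exact Pt.noConfusion h
      · rw [ph3_01 a1 a2, Pt.e1.injEq] at h
        rw [h, a1, h0]
        exact ⟨by ring, inv_mul_cancel₀ a2⟩
      · rw [ph3_10 a1 a2] at h; exact Pt.noConfusion h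
      · rw [ph3_11 a1 a2] at h; exact Pt.noConfusion h
    · have hr : z ∈ Reg 2 := ⟨hz, h0⟩
      have hr2 := Reg_of_eq hr hw h
      rw [(Reg_ph hr).1, (Reg_ph hr2).1] at h
      obtain ⟨h1, h2⟩ := ph0_eq h
      have h3 : z.1 * z.2 = w.1 * w.2 := mk_small' (mk_eq.2 h1) hz.1 hw.1
      have h4 : z.2 + z.1 * z.2 = w.1 * w.2 ^ 2 + w.1 * w.2 := h2
      have h5 : z.2 = w.1 * w.2 ^ 2 := by linear_combination h4 - h3
      have h6 : z.1 * w.2 = 1 := by
        have h7 : z.2 * (z.1 * w.2) = z.2 * 1 := by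
          rw [mul_one]
          linear_combination w.2 * h3 - h5
        exact mul_left_cancel₀ h0 h7
      refine ⟨?_, h6⟩
      have h8 : w.2 ≠ 0 := hr2.2.2
      have h9 : w.1 * w.2 = z.1 ^ 2 * z.2 * w.2 := by linear_combination -h3 - z.1 * z.2 * h6
      exact mul_right_cancel₀ h8 h9
  · rintro ⟨h1, h2⟩
    have h3 : z.1 ≠ 0 := left_ne_zero_of_mul_eq_one h2
    have h4 := (Rel23 h3).eq
    have e : ((z.1 ^ 2 * z.2, z.1⁻¹) : E) = w :=
      pairext h1.symm (eq_inv_of_mul_eq_one_right h2).symm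
    rw [e] at h4
    exact h4.symm

theorem q34 {z w : E} (hz : z ∈ V 3) (hw : w ∈ V 4) :
    ph 3 z = ph 4 w ↔ w.1 = z.1 * z.2 ∧ z.1 * w.2 = 1 := by
  constructor
  · intro h
    by_cases h0 : z ∈ Reg 3
    · have hr2 := Reg_of_eq h0 hw h
      rw [(Reg_ph h0).1, (Reg_ph hr2).1] at h
      obtain ⟨h1, h2⟩ := ph0_eq h
      have h3 : z.1 * z.2 = w.1 := mk_small' (mk_eq.2 h1) hz.1 hw.1
      have h4 : z.1 * z.2 ^ 2 + z.1 * z.2 = w.1 ^ 2 * w.2 + w.1 := h2
      refine ⟨h3.symm, ?_⟩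
      have h5 : z.1 ≠ 0 := h0.2.1
      have h6 : z.2 ≠ 0 := h0.2.2
      have h7 : (z.1 * z.2 ^ 2) * (z.1 * w.2) = (z.1 * z.2 ^ 2) * 1 := by
        rw [← h3] at h4
        linear_combination -h4
      exact mul_left_cancel₀ (mul_ne_zero h5 (pow_ne_zero 2 h6)) h7
    · have hr2 : w ∉ Reg 4 := fun h' => h0 (Reg_of_eq h' hz h.symm)
      have b := non4 hw hr2
      rw [ph4_0 b] at h
      by_cases a1 : z.1 = 0 <;> by_cases a2 : z.2 = 0
      · rw [ph3_00 a1 a2] at h; exact Pt.noConfusion h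
      · rw [ph3_01 a1 a2] at h; exact Pt.noConfusion h
      · rw [ph3_10 a1 a2, Pt.e2.injEq] at h
        rw [← h, b, a2]
        exact ⟨by ring, mul_inv_cancel₀ a1⟩
      · rw [ph3_11 a1 a2] at h; exact Pt.noConfusion h
  · rintro ⟨h1, h2⟩
    have h3 : z.1 ≠ 0 := left_ne_zero_of_mul_eq_one h2
    have h4 := (Rel34 h3).eq
    have e : ((z.1 * z.2, z.1⁻¹) : E) = w :=
      pairext h1.symm (eq_inv_of_mul_eq_one_right h2).symm
    rw [e] at h4
    exact h4.symm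

theorem q24 {z w : E} (hz : z ∈ V 2) (hw : w ∈ V 4) :
    ph 2 z = ph 4 w ↔ w.1 = z.1 * z.2 ∧ z.1 ^ 2 * z.2 * w.2 = 1 := by
  constructor
  · intro h
    by_cases h0 : z ∈ Reg 2
    · have hr2 := Reg_of_eq h0 hw h
      rw [(Reg_ph h0).1, (Reg_ph hr2).1] at h
      obtain ⟨h1, h2⟩ := ph0_eq h
      have h3 : z.1 * z.2 = w.1 := mk_small' (mk_eq.2 h1) hz.1 hw.1
      have h4 : z.2 + z.1 * z.2 = w.1 ^ 2 * w.2 + w.1 := h2
      refine ⟨h3.symm, ?_⟩
      have h7 : z.2 * (z.1 ^ 2 * z.2 * w.2) = z.2 * 1 := by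
        rw [← h3] at h4
        linear_combination -h4
      exact mul_left_cancel₀ h0.2 h7
    · have hr2 : w ∉ Reg 4 := fun h' => h0 (Reg_of_eq h' hz h.symm)
      rw [ph2_0 (non2 hz h0), ph4_0 (non4 hw hr2)] at h
      exact Pt.noConfusion h
  · rintro ⟨h1, h2⟩
    have h3 : z.2 ≠ 0 := right_ne_zero_of_mul (left_ne_zero_of_mul_eq_one h2)
    have h4 : z.1 ≠ 0 := by
      have := left_ne_zero_of_mul (left_ne_zero_of_mul_eq_one h2)
      exact fun h => this (by rw [h]; ring)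
    have hr : z ∈ Reg 2 := ⟨hz, h3⟩
    have hr2 : w ∈ Reg 4 := ⟨hw, by rw [h1]; exact mul_ne_zero h4 h3⟩
    rw [(Reg_ph hr).1, (Reg_ph hr2).1]
    congr 1
    show ((z.1 * z.2, z.2 + z.1 * z.2) : E) = (w.1, w.1 ^ 2 * w.2 + w.1)
    rw [h1]
    refine pairext rfl ?_
    show z.2 + z.1 * z.2 = (z.1 * z.2) ^ 2 * w.2 + z.1 * z.2
    linear_combination -z.2 * h2

/-- the limits of pairs with the same image have the same image -/
def Cl (i j : Fin 5) : Prop := ∀ z w, z ∈ V i → w ∈ V j →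
  (∃ᶠ p : E × E in 𝓝 (z, w), ph i p.1 = ph j p.2) → ph i z = ph j w

theorem Cl.symm {i j : Fin 5} (h : Cl i j) : Cl j i := by
  intro z w hz hw hf
  refine (h w z hw hz ?_).symm
  have h1 : Tendsto (Prod.swap : E × E → E × E) (𝓝 (z, w)) (𝓝 (w, z)) :=
    continuous_swap.tendsto (z, w)
  exact h1.frequently (hf.mono fun p hp => hp.symm)

theorem Cl_of {i j : Fin 5} {Q : Set (E × E)} (hQ : IsClosed Q)
    (h : ∀ z w, z ∈ V i → w ∈ V j → (ph i z = ph j w ↔ (z, w) ∈ Q)) : Cl i j := by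
  intro z w hz hw hf
  rw [h z w hz hw]
  have h1 : ∀ᶠ p : E × E in 𝓝 (z, w), p.1 ∈ V i ∧ p.2 ∈ V j :=
    (((V_open i).preimage continuous_fst).inter ((V_open j).preimage continuous_snd)).mem_nhds
      ⟨hz, hw⟩
  have h2 : ∃ᶠ p : E × E in 𝓝 (z, w), p ∈ Q :=
    (hf.and_eventually h1).mono fun p hp => (h p.1 p.2 hp.2.1 hp.2.2).1 hp.1
  have h3 : (z, w) ∈ closure Q := mem_closure_iff_frequently.2 h2
  rwa [hQ.closure_eq] at h3

theorem Cl0 {j : Fin 5} (hj : j ≠ 1) : Cl 0 j := by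
  have hc := tr_cont hj
  refine Cl_of (Q := {p | p.1.1 - (tr j p.2).1 ∈ Lam ∧ p.1.2 = (tr j p.2).2}) ?_
    fun z w hz hw => q0 hj hz hw
  have c1 : Continuous fun p : E × E => p.1.1 - (tr j p.2).1 := by fun_prop
  have c2 : Continuous fun p : E × E => (tr j p.2).2 := by fun_prop
  exact (Lam_closed.preimage c1).inter (isClosed_eq (by fun_prop) c2)

theorem Cl1 {j : Fin 5} (hj : j ≠ 1) : Cl 1 j := by
  have hc := tr_cont hj
  refine Cl_of (Q := {p | p.1.1 - (tr j p.2).1 ∈ Lam ∧ p.1.2 * (tr j p.2).2 = 1}) ?_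
    fun z w hz hw => q1 hj hw
  have c1 : Continuous fun p : E × E => p.1.1 - (tr j p.2).1 := by fun_prop
  have c2 : Continuous fun p : E × E => p.1.2 * (tr j p.2).2 := by fun_prop
  exact (Lam_closed.preimage c1).inter (isClosed_eq c2 continuous_const)

theorem Cl11 : Cl 1 1 := by
  refine Cl_of (Q := {p | p.1.1 - p.2.1 ∈ Lam ∧ p.1.2 = p.2.2}) ?_ fun z w hz hw => q11
  have c1 : Continuous fun p : E × E => p.1.1 - p.2.1 := by fun_prop
  exact (Lam_closed.preimage c1).inter (isClosed_eq (by fun_prop) (by fun_prop))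

theorem Clge {j : Fin 5} (hj : j = 2 ∨ j = 3 ∨ j = 4) : Cl j j := by
  refine Cl_of (Q := {p | p.1 = p.2}) (isClosed_eq continuous_fst continuous_snd)
    fun z w hz hw => ⟨fun h => inj_ge hj hz hw h, fun h => ?_⟩
  have h' : z = w := h
  rw [h']

theorem Cl23 : Cl 2 3 := by
  refine Cl_of (Q := {p | p.2.1 = p.1.1 ^ 2 * p.1.2 ∧ p.1.1 * p.2.2 = 1}) ?_
    fun z w hz hw => q23 hz hw
  exact (isClosed_eq (by fun_prop) (by fun_prop)).inter (isClosed_eq (by fun_prop) (by fun_prop))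

theorem Cl24 : Cl 2 4 := by
  refine Cl_of (Q := {p | p.2.1 = p.1.1 * p.1.2 ∧ p.1.1 ^ 2 * p.1.2 * p.2.2 = 1}) ?_
    fun z w hz hw => q24 hz hw
  exact (isClosed_eq (by fun_prop) (by fun_prop)).inter (isClosed_eq (by fun_prop) (by fun_prop))

theorem Cl34 : Cl 3 4 := by
  refine Cl_of (Q := {p | p.2.1 = p.1.1 * p.1.2 ∧ p.1.1 * p.2.2 = 1}) ?_
    fun z w hz hw => q34 hz hw
  exact (isClosed_eq (by fun_prop) (by fun_prop)).inter (isClosed_eq (by fun_prop) (by fun_prop))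

theorem Cl_all (i j : Fin 5) : Cl i j := by
  fin_cases i
  · fin_cases j
    · exact Cl0 (by decide)
    · exact (Cl1 (by decide)).symm
    · exact Cl0 (by decide)
    · exact Cl0 (by decide)
    · exact Cl0 (by decide)
  · fin_cases j
    · exact Cl1 (by decide)
    · exact Cl11
    · exact Cl1 (by decide)
    · exact Cl1 (by decide)
    · exact Cl1 (by decide)
  · fin_cases j
    · exact (Cl0 (by decide)).symm
    · exact (Cl1 (by decide)).symm
    · exact Clge (by decide)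
    · exact Cl23
    · exact Cl24
  · fin_cases j
    · exact (Cl0 (by decide)).symm
    · exact (Cl1 (by decide)).symm
    · exact Cl23.symm
    · exact Clge (by decide)
    · exact Cl34
  · fin_cases j
    · exact (Cl0 (by decide)).symm
    · exact (Cl1 (by decide)).symm
    · exact Cl24.symm
    · exact Cl34.symm
    · exact Clge (by decide)

instance X_t2 : T2Space X := XP.t2 fun i j z w hz hw h => Cl_all i.1 j.1 z w hz.1 hw.1 h

end Pool.Agent.U84.SP
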