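import Pool.Agent.U84.SP.X3

set_option autoImplicit false
set_option linter.unusedSectionVars false

/-!
# The surface is compact and connected
-/

open Set Topology Filter
open scoped ContDiff Manifold

namespace Pool.Agent.U84.SP

open Pool.Agent.Y184.SP

theorem W_Reg {j : Fin 5} {z : E} (hz : z ∈ V j) (h : tr j z ∈ W) : z ∈ Reg j := by
  by_cases hj : j = 1
  · subst hj
    exact (W_ne h).resolve_left (fun h => h rfl)
  · exact V0_of hj hz (Or.inl h.1)

theorem pX_W {j : Fin 5} {z : E} (hz : z ∈ V j) (h : tr j z ∈ W) : pX j z = pX 0 (tr j z) :=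
  (Reg_ph (W_Reg hz h)).1

theorem exists_pX (p : X) : ∃ j, ∃ z ∈ V j, pX j z = p := covV p

theorem red_norm (x : ℂ) : ‖red x‖ ≤ 3 / 4 := by
  have h1 := abs_re_red x
  have h2 := abs_im_red x
  rw [← sq_le_sq₀ (norm_nonneg _) (by norm_num), Complex.sq_norm, Complex.normSq_apply]
  have h3 := mul_self_le_mul_self (abs_nonneg _) h1
  have h4 := mul_self_le_mul_self (abs_nonneg _) h2
  rw [abs_mul_abs_self] at h3 h4
  linarith

theorem mk_red (x : ℂ) : ((red x : ℂ) : ℂ ⧸ LamG) = (x : ℂ ⧸ LamG) := by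
  rw [mk_eq]
  have := Lam_neg (sub_red x)
  rwa [neg_sub] at this

/-- compact sets whose images cover the surface -/
def Kc : Fin 5 → Set E
  | 0 => {z | 1 / 32 ≤ ‖z.1‖ ∧ ‖z.1‖ ≤ 3 / 4 ∧ ‖z.2‖ ≤ 1 / 32}
  | 1 => {z | ‖z.1‖ ≤ 3 / 4 ∧ ‖z.2‖ ≤ 32}
  | 2 => {z | ‖z.1‖ ≤ 1 ∧ ‖z.2‖ ≤ 1 / 16}
  | 3 => {z | (‖z.1‖ ≤ 1 ∧ ‖z.2‖ ≤ 1) ∧ ‖z.1 * z.2‖ ≤ 1 / 16 ∧ ‖z.1 * z.2 ^ 2‖ ≤ 1 / 16}
  | 4 => {z | ‖z.1‖ ≤ 1 / 16 ∧ ‖z.2‖ ≤ 1}

theorem Kc_compact (j : Fin 5) : IsCompact (Kc j) := by
  have c1 : Continuous fun z : E => ‖z.1‖ := by fun_prop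
  have c2 : Continuous fun z : E => ‖z.2‖ := by fun_prop
  have c3 : Continuous fun z : E => ‖z.1 * z.2‖ := by fun_prop
  have c4 : Continuous fun z : E => ‖z.1 * z.2 ^ 2‖ := by fun_prop
  have key : ∀ (K : Set E) (R : ℝ), IsClosed K → (∀ z ∈ K, ‖z.1‖ ≤ R ∧ ‖z.2‖ ≤ R) →
      IsCompact K := by
    intro K R hK hb
    refine (isCompact_closedBall (0 : E) R).of_isClosed_subset hK ?_
    intro z hz
    rw [mem_closedBall_zero_iff, Prod.norm_def]
    exact max_le (hb z hz).1 (hb z hz).2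
  fin_cases j
  · refine key _ 1 ?_ ?_
    · exact (isClosed_le continuous_const c1).inter ((isClosed_le c1 continuous_const).inter
        (isClosed_le c2 continuous_const))
    · rintro z ⟨_, h1, h2⟩
      constructor <;> linarith
  · refine key _ 32 ?_ ?_
    · exact (isClosed_le c1 continuous_const).inter (isClosed_le c2 continuous_const)
    · rintro z ⟨h1, h2⟩
      constructor <;> linarith
  · refine key _ 1 ?_ ?_
    · exact (isClosed_le c1 continuous_const).inter (isClosed_le c2 continuous_const)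
    · rintro z ⟨h1, h2⟩
      constructor <;> linarith
  · refine key _ 1 ?_ ?_
    · exact ((isClosed_le c1 continuous_const).inter (isClosed_le c2 continuous_const)).inter
        ((isClosed_le c3 continuous_const).inter (isClosed_le c4 continuous_const))
    · rintro z ⟨⟨h1, h2⟩, _⟩
      constructor <;> linarith
  · refine key _ 1 ?_ ?_
    · exact (isClosed_le c1 continuous_const).inter (isClosed_le c2 continuous_const)
    · rintro z ⟨h1, h2⟩
      constructor <;> linarith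

theorem Kc_sub (j : Fin 5) : Kc j ⊆ V j := by
  fin_cases j
  · rintro z ⟨h1, h2, h3⟩
    left
    intro h4
    have := Lam_norm h4 (by linarith)
    rw [this, norm_zero] at h1
    norm_num at h1
  · intro z _; trivial
  · rintro z ⟨h1, h2⟩
    refine ⟨?_, by linarith⟩
    rw [norm_mul]
    have := mul_le_mul h1 h2 (norm_nonneg _) zero_le_one
    linarith
  · rintro z ⟨_, h1, h2⟩
    exact ⟨by linarith, by linarith⟩
  · rintro z ⟨h1, h2⟩
    refine ⟨by linarith, ?_⟩
    rw [norm_mul, norm_pow]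
    have h3 : ‖z.1‖ ^ 2 ≤ (1 / 16) ^ 2 := pow_le_pow_left₀ (norm_nonneg _) h1 2
    have := mul_le_mul h3 h2 (norm_nonneg _) (by positivity)
    linarith

theorem Kc_cov (p : X) : ∃ j, ∃ z ∈ Kc j, pX j z = p := by
  obtain ⟨q, rfl⟩ : ∃ q : Pt, (q : X) = p := ⟨p, rfl⟩
  cases q with
  | inf b =>
    obtain ⟨x, rfl⟩ := QuotientAddGroup.mk_surjective b
    refine ⟨1, (red x, 0), ⟨red_norm x, by simp⟩, ?_⟩
    show ph 1 (red x, 0) = Pt.inf x
    rw [ph1_0 rfl]
    exact congrArg Pt.inf (mk_red x)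
  | e1 s =>
    rcases le_or_gt ‖s‖ 1 with h | h
    · exact ⟨2, (s, 0), ⟨h, by simp⟩, ph2_0 rfl⟩
    · have hs : s ≠ 0 := by rintro rfl; simp at h; linarith
      refine ⟨3, (0, s⁻¹), ⟨⟨by simp, ?_⟩, by simp, by simp⟩, ?_⟩
      · show ‖s⁻¹‖ ≤ 1
        rw [norm_inv]; exact inv_le_one_of_one_le₀ h.le
      · show ph 3 (0, s⁻¹) = Pt.e1 s
        rw [ph3_01 rfl (inv_ne_zero hs), inv_inv]
  | e2 t =>
    rcases le_or_gt ‖t‖ 1 with h | h
    · exact ⟨4, (0, t), ⟨by simp, h⟩, ph4_0 rfl⟩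
    · have hs : t ≠ 0 := by rintro rfl; simp at h; linarith
      refine ⟨3, (t⁻¹, 0), ⟨⟨?_, by simp⟩, by simp, by simp⟩, ?_⟩
      · show ‖t⁻¹‖ ≤ 1
        rw [norm_inv]; exact inv_le_one_of_one_le₀ h.le
      · show ph 3 (t⁻¹, 0) = Pt.e2 t
        rw [ph3_10 (inv_ne_zero hs) rfl, inv_inv]
  | fin b y =>
    obtain ⟨x0, rfl⟩ := QuotientAddGroup.mk_surjective b
    obtain ⟨x, hx, hxb⟩ : ∃ x : ℂ, ‖x‖ ≤ 3 / 4 ∧ (x : ℂ ⧸ LamG) = (x0 : ℂ ⧸ LamG) :=
      ⟨red x0, red_norm x0, mk_red x0⟩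
    have e0 : (Pt.fin (x0 : ℂ ⧸ LamG) y : X) = pX 0 (x, y) := by
      show Pt.fin (x0 : ℂ ⧸ LamG) y = ph 0 (x, y)
      rw [ph0, hxb]
    show ∃ j, ∃ z ∈ Kc j, pX j z = (Pt.fin (x0 : ℂ ⧸ LamG) y : X)
    rw [e0]
    rcases le_or_gt (1 / 32) ‖y‖ with hy | hy
    · have hy0 : y ≠ 0 := by rintro rfl; simp at hy; linarith
      refine ⟨1, (x, y⁻¹), ⟨hx, ?_⟩, ?_⟩
      · show ‖y⁻¹‖ ≤ 32
        rw [norm_inv]
        have := inv_anti₀ (by norm_num) hy
        norm_num at this
        exact this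
      · show ph 1 (x, y⁻¹) = ph 0 (x, y)
        rw [ph1_1 (inv_ne_zero hy0), inv_inv, ph0]
    · rcases le_or_gt (1 / 32) ‖x‖ with hx1 | hx1
      · exact ⟨0, (x, y), ⟨hx1, hx, hy.le⟩, rfl⟩
      · have hw : ‖y - x‖ ≤ 1 / 16 := (norm_sub_le _ _).trans (by linarith)
        by_cases hx0 : x = 0
        · by_cases hy0 : y = 0
          · refine ⟨3, (0, 0), ⟨⟨by simp, by simp⟩, by simp, by simp⟩, ?_⟩
            show ph 3 (0, 0) = ph 0 (x, y)
            rw [ph3_00 rfl rfl, ph0, hx0, hy0]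
            rfl
          · refine ⟨2, (0, y), ⟨by simp, ?_⟩, ?_⟩
            · show ‖y‖ ≤ 1 / 16
              linarith
            · show ph 2 (0, y) = ph 0 (x, y)
              rw [ph2_1 hy0, ph0, hx0]
              simp
        · have hxp : 0 < ‖x‖ := norm_pos_iff.2 hx0
          rcases le_or_gt ‖x‖ ‖y - x‖ with h1 | h1
          · -- chart 2
            have hw0 : y - x ≠ 0 := by
              intro h; rw [h, norm_zero] at h1; linarith
            refine ⟨2, (x / (y - x), y - x), ⟨?_, hw⟩, ?_⟩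
            · show ‖x / (y - x)‖ ≤ 1
              rw [norm_div]
              exact div_le_one_of_le₀ h1 (norm_nonneg _)
            · show ph 2 (x / (y - x), y - x) = ph 0 (x, y)
              rw [ph2_1 (z := (x / (y - x), y - x)) hw0, ph0]
              have e : x / (y - x) * (y - x) = x := by field_simp
              simp only [e, sub_add_cancel]
          · rcases le_or_gt (‖x‖ ^ 2) ‖y - x‖ with h2 | h2
            · -- chart 3
              have hw0 : y - x ≠ 0 := by
                intro h; rw [h, norm_zero] at h2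
                have := pow_pos hxp 2
                linarith
              have e1 : x ^ 2 / (y - x) * ((y - x) / x) = x := by field_simp
              have e2 : x ^ 2 / (y - x) * ((y - x) / x) ^ 2 = y - x := by field_simp
              refine ⟨3, (x ^ 2 / (y - x), (y - x) / x), ⟨⟨?_, ?_⟩, ?_, ?_⟩, ?_⟩
              · show ‖x ^ 2 / (y - x)‖ ≤ 1
                rw [norm_div, norm_pow]
                exact div_le_one_of_le₀ h2 (norm_nonneg _)
              · show ‖(y - x) / x‖ ≤ 1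
                rw [norm_div]
                exact div_le_one_of_le₀ h1.le (norm_nonneg _)
              · show ‖x ^ 2 / (y - x) * ((y - x) / x)‖ ≤ 1 / 16
                rw [e1]; linarith
              · show ‖x ^ 2 / (y - x) * ((y - x) / x) ^ 2‖ ≤ 1 / 16
                rw [e2]; exact hw
              · show ph 3 (x ^ 2 / (y - x), (y - x) / x) = ph 0 (x, y)
                rw [ph3_11 (z := (x ^ 2 / (y - x), (y - x) / x))
                  (div_ne_zero (pow_ne_zero 2 hx0) hw0) (div_ne_zero hw0 hx0), ph0]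
                simp only [e1, e2, sub_add_cancel]
            · -- chart 4
              refine ⟨4, (x, (y - x) / x ^ 2), ⟨?_, ?_⟩, ?_⟩
              · show ‖x‖ ≤ 1 / 16
                linarith
              · show ‖(y - x) / x ^ 2‖ ≤ 1
                rw [norm_div, norm_pow]
                exact div_le_one_of_le₀ h2.le (by positivity)
              · show ph 4 (x, (y - x) / x ^ 2) = ph 0 (x, y)
                rw [ph4_1 (z := (x, (y - x) / x ^ 2)) hx0, ph0]
                have e : x ^ 2 * ((y - x) / x ^ 2) = y - x := by field_simp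
                simp only [e, sub_add_cancel]

instance X_compact : CompactSpace X := by
  constructor
  have h1 : (univ : Set X) = ⋃ j : Fin 5, pX j '' Kc j := by
    symm
    rw [eq_univ_iff_forall]
    intro p
    obtain ⟨j, z, h1, h2⟩ := Kc_cov p
    exact mem_iUnion.2 ⟨j, z, h1, h2⟩
  rw [h1]
  refine isCompact_iUnion fun j => (Kc_compact j).image_of_continuousOn ?_
  intro z hz
  exact (pX_cont (Kc_sub j hz)).continuousWithinAt

theorem Lam_countable : Lam.Countable := by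
  have : Lam = range fun p : ℤ × ℤ => (p.1 : ℂ) + p.2 * Complex.I := by
    ext x
    constructor
    · rintro ⟨m, n, rfl⟩
      exact ⟨(m, n), rfl⟩
    · rintro ⟨⟨m, n⟩, rfl⟩
      exact ⟨m, n, rfl⟩
  rw [this]
  exact countable_range _

theorem V0_conn : IsPreconnected (V 0) := by
  have h1 : V 0 = {z : E | z.1 ∈ Lam ∧ z.2 = 0}ᶜ := by
    ext z
    show (z.1 ∉ Lam ∨ z.2 ≠ 0) ↔ ¬(z.1 ∈ Lam ∧ z.2 = 0)
    tauto
  have h2 : {z : E | z.1 ∈ Lam ∧ z.2 = 0}.Countable := by
    have : {z : E | z.1 ∈ Lam ∧ z.2 = 0} ⊆ Lam ×ˢ {0} := fun z hz => ⟨hz.1, hz.2⟩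
    exact (Lam_countable.prod (countable_singleton _)).mono this
  have h3 : 1 < Module.rank ℝ E := by
    rw [rank_prod', Complex.rank_real_complex]
    norm_num
  rw [h1]
  exact (h2.isConnected_compl_of_one_lt_rank h3).isPreconnected

theorem pX_dense (p : X) : p ∈ closure (pX 0 '' W) := by
  obtain ⟨j, z, hz, rfl⟩ := exists_pX p
  rw [mem_closure_iff_frequently]
  have h1 := mem_closure_iff_frequently.1 (dense_V j hz)
  have h2 : ∃ᶠ z' in 𝓝 z, pX j z' ∈ pX 0 '' W :=
    (h1.and_eventually ((V_open j).mem_nhds hz)).mono fun z' h =>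
      ⟨tr j z', h.1, (pX_W h.2 h.1).symm⟩
  exact (pX_cont hz).tendsto.frequently h2

instance X_conn : ConnectedSpace X := by
  have : Nonempty X := ⟨pX 0 (0, 1)⟩
  have h1 : IsPreconnected (pX 0 '' V 0) :=
    V0_conn.image _ fun z hz => (pX_cont hz).continuousWithinAt
  have : PreconnectedSpace X := by
    constructor
    refine h1.subset_closure (subset_univ _) ?_
    intro p _
    exact closure_mono (image_mono fun z hz => W_V0' hz) (pX_dense p)
  exact ⟨inferInstance⟩
where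
  W_V0' {z : E} (h : z ∈ W) : z ∈ V 0 := Or.inl h.1

end Pool.Agent.U84.SP
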